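import Pool.Agent.Lib.MP_95bb8c_al.NR.Sums

set_option autoImplicit false
set_option linter.unusedSectionVars false

/-!
# Average costs
-/

namespace Pool.Agent.Lib.MP_95bb8c_al.NR

open Finset

variable {V E : Type} [Fintype V] [DecidableEq V] [Fintype E] [DecidableEq E]
variable {s t : E → V} {bar : V → V} {sig : V → E → E} {c : V → E → E → ℚ}

/-- The total cost of the pairs of edges from `v` to `w` and to `y`. -/
def tot (s t : E → V) (c : V → E → E → ℚ) (v w y : V) : ℚ :=
  ∑ e ∈ bd s t v w, ∑ f ∈ bd s t v y, c v e f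

/-- The average cost of the pairs of edges from `v` to `w` and to `y`. -/
def av (s t : E → V) (c : V → E → E → ℚ) (v w y : V) : ℚ :=
  tot s t c v w y / ((bd s t v w).card * (bd s t v y).card)

/-- The sum of the average costs at all corners of the complete graph. -/
def TB (s t : E → V) (c : V → E → E → ℚ) : ℚ :=
  ∑ v, ∑ w ∈ univ.erase v, ∑ y ∈ (univ.erase v).erase w, av s t c v w y

theorem tot_symm (hs : ∀ v e f, c v e f = c v f e) (v w y : V) :
    tot s t c v w y = tot s t c v y w := by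
  unfold tot
  rw [Finset.sum_comm]
  exact Finset.sum_congr rfl fun e _ => Finset.sum_congr rfl fun f _ => hs v f e

theorem av_symm (hs : ∀ v e f, c v e f = c v f e) (v w y : V) :
    av s t c v w y = av s t c v y w := by
  unfold av
  rw [tot_symm hs, mul_comm ((bd s t v w).card : ℚ)]

theorem tot_eq {v w y : V} (hw : (bd s t v w).Nonempty) (hy : (bd s t v y).Nonempty) :
    tot s t c v w y = av s t c v w y * ((bd s t v w).card * (bd s t v y).card) := by
  unfold av
  have h1 : ((bd s t v w).card : ℚ) ≠ 0 := by exact_mod_cast hw.card_pos.ne'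
  have h2 : ((bd s t v y).card : ℚ) ≠ 0 := by exact_mod_cast hy.card_pos.ne'
  field_simp

theorem av_eq {v w y : V} : av s t c v w y =
    ∑ e ∈ bd s t v w, ∑ f ∈ bd s t v y,
      1 / ((bd s t v w).card : ℚ) * (1 / ((bd s t v y).card : ℚ)) * c v e f := by
  unfold av tot
  simp_rw [← Finset.mul_sum]
  rw [div_eq_mul_inv, mul_comm, mul_inv, one_div, one_div]

/-- The sum of the costs of all triangles of a type. -/
theorem sum_tri (hne : ∀ v w, v ≠ w → (bd s t v w).Nonempty) {v w y : V} (h1 : v ≠ w)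
    (h2 : w ≠ y) (h3 : y ≠ v) :
    ∑ e ∈ bd s t v w, ∑ f ∈ bd s t w y, ∑ g ∈ bd s t y v, (c v g e + c w e f + c y f g) =
      (av s t c v y w + av s t c w v y + av s t c y w v) *
        ((bd s t v w).card * (bd s t w y).card * (bd s t y v).card) := by
  have e1 : ∑ e ∈ bd s t v w, ∑ f ∈ bd s t w y, ∑ g ∈ bd s t y v, c v g e =
      (bd s t w y).card * tot s t c v y w := by
    unfold tot
    rw [bd_comm v y, Finset.sum_comm, Finset.sum_const, nsmul_eq_mul]
    congr 1
    exact Finset.sum_comm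
  have e2 : ∑ e ∈ bd s t v w, ∑ f ∈ bd s t w y, ∑ g ∈ bd s t y v, c w e f =
      (bd s t y v).card * tot s t c w v y := by
    unfold tot
    rw [bd_comm w v, Finset.mul_sum]
    refine Finset.sum_congr rfl fun e _ => ?_
    rw [Finset.mul_sum]
    refine Finset.sum_congr rfl fun f _ => ?_
    rw [Finset.sum_const, nsmul_eq_mul]
  have e3 : ∑ e ∈ bd s t v w, ∑ f ∈ bd s t w y, ∑ g ∈ bd s t y v, c y f g =
      (bd s t v w).card * tot s t c y w v := by
    unfold tot
    rw [bd_comm y w, Finset.sum_const, nsmul_eq_mul]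
  simp_rw [Finset.sum_add_distrib]
  rw [e1, e2, e3, tot_eq (hne v y h3.symm) (hne v w h1), tot_eq (hne w v h1.symm) (hne w y h2),
    tot_eq (hne y w h2.symm) (hne y v h3), bd_comm v y, bd_comm w v, bd_comm y w]
  ring

/-- The sum of the costs of all cycles of length four of a type. -/
theorem sum_four (hne : ∀ v w, v ≠ w → (bd s t v w).Nonempty) {v w z y : V} (h1 : v ≠ w)
    (h2 : w ≠ z) (h3 : z ≠ y) (h4 : y ≠ v) :
    ∑ e ∈ bd s t v w, ∑ f ∈ bd s t w z, ∑ g ∈ bd s t z y, ∑ h ∈ bd s t y v,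
        (c v h e + c w e f + c z f g + c y g h) =
      (av s t c v y w + av s t c w v z + av s t c z w y + av s t c y z v) *
        ((bd s t v w).card * (bd s t w z).card * (bd s t z y).card * (bd s t y v).card) := by
  have e1 : ∑ e ∈ bd s t v w, ∑ f ∈ bd s t w z, ∑ g ∈ bd s t z y, ∑ h ∈ bd s t y v, c v h e =
      (bd s t w z).card * ((bd s t z y).card * tot s t c v y w) := by
    unfold tot
    rw [bd_comm v y, Finset.sum_comm, Finset.sum_const, nsmul_eq_mul]
    congr 1
    simp_rw [Finset.sum_const, nsmul_eq_mul]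
    rw [← Finset.mul_sum]
    congr 1
    exact Finset.sum_comm
  have e2 : ∑ e ∈ bd s t v w, ∑ f ∈ bd s t w z, ∑ g ∈ bd s t z y, ∑ h ∈ bd s t y v, c w e f =
      (bd s t z y).card * ((bd s t y v).card * tot s t c w v z) := by
    unfold tot
    rw [bd_comm w v]
    simp_rw [Finset.sum_const, nsmul_eq_mul]
    simp_rw [← Finset.mul_sum]
  have e3 : ∑ e ∈ bd s t v w, ∑ f ∈ bd s t w z, ∑ g ∈ bd s t z y, ∑ h ∈ bd s t y v, c z f g =
      (bd s t v w).card * ((bd s t y v).card * tot s t c z w y) := by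
    unfold tot
    rw [bd_comm z w, Finset.sum_const, nsmul_eq_mul]
    simp_rw [Finset.sum_const, nsmul_eq_mul]
    simp_rw [← Finset.mul_sum]
  have e4 : ∑ e ∈ bd s t v w, ∑ f ∈ bd s t w z, ∑ g ∈ bd s t z y, ∑ h ∈ bd s t y v, c y g h =
      (bd s t v w).card * ((bd s t w z).card * tot s t c y z v) := by
    unfold tot
    rw [bd_comm y z, Finset.sum_const, nsmul_eq_mul, Finset.sum_const, nsmul_eq_mul]
  simp_rw [Finset.sum_add_distrib]
  rw [e1, e2, e3, e4, tot_eq (hne v y h4.symm) (hne v w h1), tot_eq (hne w v h1.symm) (hne w z h2),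
    tot_eq (hne z w h2.symm) (hne z y h3), tot_eq (hne y z h3.symm) (hne y v h4),
    bd_comm v y, bd_comm w v, bd_comm z w, bd_comm y z]
  ring

theorem av_tri (hc : Loc s t c) (hne : ∀ v w, v ≠ w → (bd s t v w).Nonempty) {v w y : V}
    (h1 : v ≠ w) (h2 : w ≠ y) (h3 : y ≠ v) :
    0 ≤ av s t c v y w + av s t c w v y + av s t c y w v := by
  have e1 := sum_tri (c := c) hne h1 h2 h3
  have e2 : 0 ≤ ∑ e ∈ bd s t v w, ∑ f ∈ bd s t w y, ∑ g ∈ bd s t y v,
      (c v g e + c w e f + c y f g) :=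
    Finset.sum_nonneg fun e he => Finset.sum_nonneg fun f hf => Finset.sum_nonneg fun g hg =>
      hc.tri v w y h1 h2 h3 e he f hf g hg
  have c1 : (0 : ℚ) < (bd s t v w).card := by exact_mod_cast (hne v w h1).card_pos
  have c2 : (0 : ℚ) < (bd s t w y).card := by exact_mod_cast (hne w y h2).card_pos
  have c3 : (0 : ℚ) < (bd s t y v).card := by exact_mod_cast (hne y v h3).card_pos
  rw [e1] at e2
  exact nonneg_of_mul_nonneg_left e2 (mul_pos (mul_pos c1 c2) c3)

theorem av_four (hc : Loc s t c) (hne : ∀ v w, v ≠ w → (bd s t v w).Nonempty) {v w z y : V}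
    (h1 : v ≠ w) (h2 : w ≠ z) (h3 : z ≠ y) (h4 : y ≠ v) (h5 : v ≠ z) (h6 : w ≠ y) :
    0 ≤ av s t c v y w + av s t c w v z + av s t c z w y + av s t c y z v := by
  have e1 := sum_four (c := c) hne h1 h2 h3 h4
  have e2 : 0 ≤ ∑ e ∈ bd s t v w, ∑ f ∈ bd s t w z, ∑ g ∈ bd s t z y, ∑ h ∈ bd s t y v,
      (c v h e + c w e f + c z f g + c y g h) :=
    Finset.sum_nonneg fun e he => Finset.sum_nonneg fun f hf => Finset.sum_nonneg fun g hg =>
      Finset.sum_nonneg fun h hh => hc.four v w z y h1 h2 h3 h4 h5 h6 e he f hf g hg h hh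
  have c1 : (0 : ℚ) < (bd s t v w).card := by exact_mod_cast (hne v w h1).card_pos
  have c2 : (0 : ℚ) < (bd s t w z).card := by exact_mod_cast (hne w z h2).card_pos
  have c3 : (0 : ℚ) < (bd s t z y).card := by exact_mod_cast (hne z y h3).card_pos
  have c4 : (0 : ℚ) < (bd s t y v).card := by exact_mod_cast (hne y v h4).card_pos
  rw [e1] at e2
  exact nonneg_of_mul_nonneg_left e2 (mul_pos (mul_pos (mul_pos c1 c2) c3) c4)

end Pool.Agent.Lib.MP_95bb8c_al.NR
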