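import Pool.Agent.Lib.MP_95bb8c_al.NR.Defs

set_option autoImplicit false
set_option linter.unusedSectionVars false

/-!
# Nearly regular lists: basic facts
-/

namespace Pool.Agent.Lib.MP_95bb8c_al.NR

open Finset

variable {V E : Type} [Fintype V] [DecidableEq V] [Fintype E] [DecidableEq E]
variable {s t : E → V} {bar : V → V} {sig : V → E → E} {c : V → E → E → ℚ}

theorem mem_bd (hl : ∀ e, s e ≠ t e) {v w : V} (hvw : v ≠ w) {e : E} :
    e ∈ bd s t v w ↔ e ∈ cut s t {v} ∧ oth s t v e = w := by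
  have h1 := hl e
  unfold bd oth
  rw [Finset.mem_inter, mem_star hl, mem_star hl]
  constructor
  · rintro ⟨h2, h3⟩
    refine ⟨h2, ?_⟩
    by_cases h4 : s e = v
    · rw [if_pos h4]
      rcases h3 with h3 | h3
      · exact absurd (h4.symm.trans h3) hvw
      · exact h3
    · rw [if_neg h4]
      rcases h3 with h3 | h3
      · exact h3
      · rcases h2 with h2 | h2
        · exact absurd h2 h4
        · exact absurd (h2.symm.trans h3) hvw
  · rintro ⟨h2, h3⟩
    refine ⟨h2, ?_⟩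
    by_cases h4 : s e = v
    · rw [if_pos h4] at h3
      exact Or.inr h3
    · rw [if_neg h4] at h3
      exact Or.inl h3

theorem bd_comm (v w : V) : bd s t v w = bd s t w v := Finset.inter_comm _ _

theorem oth_ne (hl : ∀ e, s e ≠ t e) (v : V) (e : E) : oth s t v e ≠ v := by
  have h1 := hl e
  unfold oth
  by_cases h4 : s e = v
  · rw [if_pos h4]
    exact fun h5 => h1 (h4.trans h5.symm)
  · rw [if_neg h4]
    exact h4

theorem mem_bd_oth (hl : ∀ e, s e ≠ t e) {v : V} {e : E} (he : e ∈ cut s t {v}) :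
    e ∈ bd s t v (oth s t v e) :=
  (mem_bd hl (oth_ne hl v e).symm).2 ⟨he, rfl⟩

theorem mem_bd_ends (hl : ∀ e, s e ≠ t e) (e : E) : e ∈ bd s t (s e) (t e) := by
  rw [mem_bd hl (hl e)]
  refine ⟨(mem_star hl).2 (Or.inl rfl), ?_⟩
  unfold oth
  rw [if_pos rfl]

theorem bd_filter (hl : ∀ e, s e ≠ t e) {v w : V} (hvw : v ≠ w) :
    bd s t v w = (cut s t {v}).filter fun e => oth s t v e = w := by
  ext e
  rw [mem_bd hl hvw, Finset.mem_filter]

theorem sum_cut {M : Type} [AddCommMonoid M] (hl : ∀ e, s e ≠ t e) (v : V) (F : E → M) :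
    ∑ e ∈ cut s t {v}, F e = ∑ w ∈ univ.erase v, ∑ e ∈ bd s t v w, F e := by
  rw [← Finset.sum_fiberwise_of_maps_to (s := cut s t {v}) (t := univ.erase v)
    (g := fun e => oth s t v e)]
  · refine Finset.sum_congr rfl fun w hw => ?_
    rw [bd_filter hl (Finset.ne_of_mem_erase hw).symm]
  · intro e _
    exact Finset.mem_erase.2 ⟨oth_ne hl v e, Finset.mem_univ _⟩

theorem card_cut (hl : ∀ e, s e ≠ t e) (v : V) :
    (cut s t {v}).card = ∑ w ∈ univ.erase v, (bd s t v w).card := by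
  rw [Finset.card_eq_sum_ones, sum_cut hl]
  exact Finset.sum_congr rfl fun w _ => (Finset.card_eq_sum_ones _).symm

theorem Con.inv' (h : Con s t bar sig) (v : V) {e : E} (he : e ∈ cut s t {bar v}) :
    sig (bar v) e ∈ cut s t {v} ∧ sig v (sig (bar v) e) = e := by
  have h1 := h.mem (bar v) e he
  have h2 := h.inv (bar v) e he
  rw [h.bar_bar] at h1 h2
  exact ⟨h1, h2⟩

theorem Con.sig_inj (h : Con s t bar sig) (v : V) : ∀ e ∈ cut s t {v}, ∀ f ∈ cut s t {v},
    sig v e = sig v f → e = f := by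
  intro e he f hf hef
  rw [← h.inv v e he, hef, h.inv v f hf]

theorem sum_sig {M : Type} [AddCommMonoid M] (h : Con s t bar sig) (v : V) (F : E → M) :
    ∑ e ∈ cut s t {v}, F (sig v e) = ∑ e ∈ cut s t {bar v}, F e := by
  refine Finset.sum_nbij' (sig v) (sig (bar v)) (fun e he => h.mem v e he)
    (fun e he => (h.inv' v he).1) (fun e he => h.inv v e he) (fun e he => (h.inv' v he).2)
    (fun e he => rfl)

theorem sum_sig2 {M : Type} [AddCommMonoid M] (h : Con s t bar sig) (v : V) {e : E}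
    (he : e ∈ cut s t {v}) (F : E → M) :
    ∑ f ∈ (cut s t {v}).erase e, F (sig v f) = ∑ f ∈ (cut s t {bar v}).erase (sig v e), F f := by
  refine Finset.sum_nbij' (sig v) (sig (bar v)) ?_ ?_ ?_ ?_ (fun e he => rfl)
  · intro f hf
    rw [Finset.mem_erase] at hf ⊢
    exact ⟨fun h1 => hf.1 (h.sig_inj v f hf.2 e he h1), h.mem v f hf.2⟩
  · intro f hf
    rw [Finset.mem_erase] at hf ⊢
    refine ⟨fun h1 => hf.1 ?_, (h.inv' v hf.2).1⟩
    rw [← h1, (h.inv' v hf.2).2]
  · intro f hf
    exact h.inv v f (Finset.mem_erase.1 hf).2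
  · intro f hf
    exact (h.inv' v (Finset.mem_erase.1 hf).2).2

theorem sum_bar {M : Type} [AddCommMonoid M] (h : Con s t bar sig) (G : V → M) :
    ∑ v, G (bar v) = ∑ v, G v :=
  Equiv.sum_comp ⟨bar, bar, h.bar_bar, h.bar_bar⟩ G

theorem card_bar (h : Con s t bar sig) (v : V) :
    (cut s t {bar v}).card = (cut s t {v}).card := by
  refine Finset.card_nbij' (sig (bar v)) (sig v) (fun e he => (h.inv' v he).1)
    (fun e he => h.mem v e he) (fun e he => (h.inv' v he).2) (fun e he => h.inv v e he)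

theorem sum_anti (h : Con s t bar sig) (hc : Cst s t bar sig c) :
    ∑ v, ∑ e ∈ cut s t {v}, ∑ f ∈ (cut s t {v}).erase e, c v e f = 0 := by
  have h1 : ∀ v, ∑ e ∈ cut s t {bar v}, ∑ f ∈ (cut s t {bar v}).erase e, c (bar v) e f =
      - ∑ e ∈ cut s t {v}, ∑ f ∈ (cut s t {v}).erase e, c v e f := by
    intro v
    rw [← sum_sig h v (fun e => ∑ f ∈ (cut s t {bar v}).erase e, c (bar v) e f),
      ← Finset.sum_neg_distrib]
    refine Finset.sum_congr rfl fun e he => ?_
    rw [← sum_sig2 h v he (fun f => c (bar v) (sig v e) f), ← Finset.sum_neg_distrib]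
    refine Finset.sum_congr rfl fun f hf => ?_
    rw [Finset.mem_erase] at hf
    exact hc.anti v e he f hf.2 hf.1.symm
  have h2 := sum_bar h (fun v => ∑ e ∈ cut s t {v}, ∑ f ∈ (cut s t {v}).erase e, c v e f)
  simp_rw [h1, Finset.sum_neg_distrib] at h2
  linarith

end Pool.Agent.Lib.MP_95bb8c_al.NR
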