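import Pool.Agent.Lib.MP_95bb8c_al.OE.ListOf
import Pool.Agent.Lib.MP_95bb8c_al.Tiling

set_option autoImplicit false
set_option linter.unusedSectionVars false

/-!
# Nearly regular lists: definitions

`s e`, `t e` are the ends of the edge `e`; `cut s t {v}` is the set of the edges at `v`.
-/

namespace Pool.Agent.Lib.MP_95bb8c_al.NR

open Finset

variable {V E : Type} [Fintype V] [DecidableEq V] [Fintype E] [DecidableEq E]

/-- The edges which join `v` and `w` (for `v ≠ w`). -/
def bd (s t : E → V) (v w : V) : Finset E := cut s t {v} ∩ cut s t {w}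

/-- The other end of the edge `e` at `v`. -/
def oth (s t : E → V) (v : V) (e : E) : V := if s e = v then t e else s e

/-- A connecting map: the data of the involution `bar` and the bijections `sig`. -/
structure Con (s t : E → V) (bar : V → V) (sig : V → E → E) : Prop where
  hl : ∀ e, s e ≠ t e
  bar_bar : ∀ v, bar (bar v) = v
  bar_ne : ∀ v, bar v ≠ v
  mem : ∀ v, ∀ e ∈ cut s t {v}, sig v e ∈ cut s t {bar v}
  inv : ∀ v, ∀ e ∈ cut s t {v}, sig (bar v) (sig v e) = e

/-- Symmetric costs of pairs of edges, antisymmetric under `sig`. -/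
structure Cst (s t : E → V) (bar : V → V) (sig : V → E → E) (c : V → E → E → ℚ) : Prop where
  symm : ∀ v e f, c v e f = c v f e
  anti : ∀ v, ∀ e ∈ cut s t {v}, ∀ f ∈ cut s t {v}, e ≠ f →
    c (bar v) (sig v e) (sig v f) = - c v e f

/-- The cost of a set of edges: the sum of the costs of its ordered pairs at the vertices. -/
def cost (s t : E → V) (c : V → E → E → ℚ) (X : Finset E) : ℚ :=
  ∑ v, ∑ e ∈ cut s t {v}, ∑ f ∈ (cut s t {v}).erase e, if e ∈ X ∧ f ∈ X then c v e f else 0

/-- All sets of edges with degrees `0` and `2` have costs at least `0`. -/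
def Nng (s t : E → V) (c : V → E → E → ℚ) : Prop := ∀ X, Deg02 s t X → 0 ≤ cost s t c X

/-- The costs of digons, triangles and cycles of length four are at least `0`. -/
structure Loc (s t : E → V) (c : V → E → E → ℚ) : Prop where
  symm : ∀ v e f, c v e f = c v f e
  dig : ∀ v w, v ≠ w → ∀ e ∈ bd s t v w, ∀ f ∈ bd s t v w, e ≠ f → 0 ≤ c v e f + c w e f
  tri : ∀ v w y, v ≠ w → w ≠ y → y ≠ v → ∀ e ∈ bd s t v w, ∀ f ∈ bd s t w y,
    ∀ g ∈ bd s t y v, 0 ≤ c v g e + c w e f + c y f g
  four : ∀ v w z y, v ≠ w → w ≠ z → z ≠ y → y ≠ v → v ≠ z → w ≠ y →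
    ∀ e ∈ bd s t v w, ∀ f ∈ bd s t w z, ∀ g ∈ bd s t z y, ∀ h ∈ bd s t y v,
      0 ≤ c v h e + c w e f + c z f g + c y g h

/-- The bilinear form of the costs. -/
def phi (s t : E → V) (c : V → E → E → ℚ) (x y : E → ℚ) : ℚ :=
  ∑ v, ∑ e ∈ cut s t {v}, ∑ f ∈ (cut s t {v}).erase e, x e * y f * c v e f

/-- A nearly regular multigraph: `k` vertices, all degrees within `ε * d` of `d`, all pairs of
vertices joined by at least `δ * d` and at most `(1/2 - δ) * d` edges, and all odd cuts which are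
not stars of size at least `(1 + δ) * d`. -/
structure Near (s t : E → V) (k : ℕ) (d δ ε : ℚ) : Prop where
  card : Fintype.card V = k
  six : 6 ≤ k
  dpos : 0 < d
  deg : ∀ v, |((cut s t {v}).card : ℚ) - d| ≤ ε * d
  lo : ∀ v w, v ≠ w → δ * d ≤ ((bd s t v w).card : ℚ)
  hi : ∀ v w, v ≠ w → ((bd s t v w).card : ℚ) ≤ (1 / 2 - δ) * d
  odd : ∀ S : Finset V, Odd S.card → 3 ≤ S.card → S.card + 3 ≤ k →
    (1 + δ) * d ≤ ((cut s t S).card : ℚ)

/-- The constant of the stability lemma. -/
def KA (k : ℕ) : ℚ := 1000 * (k : ℚ) ^ 10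

end Pool.Agent.Lib.MP_95bb8c_al.NR
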