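import Pool.Agent.Lib.MP_95bb8c_al.NR.Basic

set_option autoImplicit false
set_option linter.unusedSectionVars false

/-!
# Farkas' lemma and lists of cycles
-/

namespace Pool.Agent.Lib.MP_95bb8c_al.NR

open Finset

/-- Farkas' lemma over the rationals, for linear forms on any rational vector space
(Bartl's induction). -/
theorem farkas_fin {W : Type} [AddCommGroup W] [Module ℚ W] : ∀ (n : ℕ)
    (A : Fin n → W →ₗ[ℚ] ℚ) (b : W →ₗ[ℚ] ℚ),
    (∃ x : Fin n → ℚ, (∀ j, 0 ≤ x j) ∧ ∀ w, ∑ j, x j * A j w = b w) ∨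
      ∃ y : W, (∀ j, 0 ≤ A j y) ∧ b y < 0 := by
  intro n
  induction n with
  | zero =>
    intro A b
    by_cases hb : ∀ w, b w = 0
    · exact Or.inl ⟨fun _ => 0, fun _ => le_rfl, fun w => by rw [hb w]; simp⟩
    · push Not at hb
      obtain ⟨w, hw⟩ := hb
      right
      rcases lt_or_gt_of_ne hw with h | h
      · exact ⟨w, fun j => j.elim0, h⟩
      · exact ⟨-w, fun j => j.elim0, by rw [map_neg]; linarith⟩
  | succ n IH =>
    intro A b
    rcases IH (fun j => A j.castSucc) b with ⟨x, hx, h⟩ | ⟨y, hy, hby⟩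
    · left
      refine ⟨Fin.snoc x 0, ?_, ?_⟩
      · intro j
        refine Fin.lastCases ?_ (fun i => ?_) j
        · simp
        · simpa using hx i
      · intro w
        rw [Fin.sum_univ_castSucc]
        simp only [Fin.snoc_castSucc, Fin.snoc_last, zero_mul, add_zero]
        exact h w
    · by_cases ha : 0 ≤ A (Fin.last n) y
      · right
        refine ⟨y, ?_, hby⟩
        intro j
        refine Fin.lastCases ha (fun i => hy i) j
      push Not at ha
      -- `z` has `A last z = 1`, all other values at most `0`, `b z > 0`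
      set a := A (Fin.last n) with hadef
      set z : W := (a y)⁻¹ • y with hz
      have haz : a z = 1 := by
        rw [hz, map_smul, smul_eq_mul, inv_mul_cancel₀ ha.ne]
      have hinv : (a y)⁻¹ < 0 := inv_lt_zero.mpr ha
      have hAz : ∀ j : Fin n, A j.castSucc z ≤ 0 := by
        intro j
        rw [hz, map_smul, smul_eq_mul]
        exact mul_nonpos_of_nonpos_of_nonneg hinv.le (hy j)
      have hbz : 0 < b z := by
        rw [hz, map_smul, smul_eq_mul]
        exact mul_pos_of_neg_of_neg hinv hby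
      rcases IH (fun j => A j.castSucc - (A j.castSucc z) • a) (b - (b z) • a) with
        ⟨x, hx, h⟩ | ⟨u, hu, hbu⟩
      · left
        refine ⟨Fin.snoc x (b z - ∑ j, x j * A j.castSucc z), ?_, ?_⟩
        · intro j
          refine Fin.lastCases ?_ (fun i => ?_) j
          · simp only [Fin.snoc_last]
            have : ∑ j, x j * A j.castSucc z ≤ 0 :=
              Finset.sum_nonpos fun j _ => mul_nonpos_of_nonneg_of_nonpos (hx j) (hAz j)
            linarith
          · simpa using hx i
        · intro w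
          rw [Fin.sum_univ_castSucc]
          simp only [Fin.snoc_castSucc, Fin.snoc_last]
          have h1 := h w
          simp only [LinearMap.sub_apply, LinearMap.smul_apply, smul_eq_mul] at h1
          have h2 : ∑ j, x j * (A j.castSucc w - A j.castSucc z * a w) =
              ∑ j, x j * A j.castSucc w - (∑ j, x j * A j.castSucc z) * a w := by
            rw [Finset.sum_mul, ← Finset.sum_sub_distrib]
            exact Finset.sum_congr rfl fun j _ => by ring
          rw [h2] at h1
          linarith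
      · right
        refine ⟨u - (a u) • z, ?_, ?_⟩
        · intro j
          refine Fin.lastCases ?_ (fun i => ?_) j
          · change 0 ≤ a (u - (a u) • z)
            rw [map_sub, map_smul, haz, smul_eq_mul, mul_one, sub_self]
          · have h1 := hu i
            simp only [LinearMap.sub_apply, LinearMap.smul_apply, smul_eq_mul] at h1
            rw [map_sub, map_smul, smul_eq_mul]
            linarith
        · simp only [LinearMap.sub_apply, LinearMap.smul_apply, smul_eq_mul] at hbu
          rw [map_sub, map_smul, smul_eq_mul]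
          linarith

/-- Farkas' lemma, indexed by a finite type. -/
theorem farkas_fintype {W : Type} [AddCommGroup W] [Module ℚ W] {κ : Type} [Fintype κ]
    (A : κ → W →ₗ[ℚ] ℚ) (b : W →ₗ[ℚ] ℚ) :
    (∃ x : κ → ℚ, (∀ j, 0 ≤ x j) ∧ ∀ w, ∑ j, x j * A j w = b w) ∨
      ∃ y : W, (∀ j, 0 ≤ A j y) ∧ b y < 0 := by
  classical
  let e := Fintype.equivFin κ
  rcases farkas_fin (Fintype.card κ) (fun i => A (e.symm i)) b with ⟨x, hx, h⟩ | ⟨y, hy, hb⟩
  · left
    refine ⟨fun k => x (e k), fun k => hx _, fun w => ?_⟩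
    rw [← h w]
    refine Fintype.sum_equiv e _ _ fun k => ?_
    rw [Equiv.symm_apply_apply]
  · right
    refine ⟨y, fun k => ?_, hb⟩
    have := hy (e k)
    rwa [Equiv.symm_apply_apply] at this

variable {V E : Type} [Fintype V] [DecidableEq V] [Fintype E] [DecidableEq E]
variable {s t : E → V} {bar : V → V} {sig : V → E → E} {c : V → E → E → ℚ}

/-- The space of the symmetric antisymmetric costs. -/
def cstSpace (s t : E → V) (bar : V → V) (sig : V → E → E) : Submodule ℚ (V → E → E → ℚ) where
  carrier := {c | Cst s t bar sig c}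
  add_mem' := by
    intro a b ha hb
    refine ⟨fun v e f => ?_, fun v e he f hf hef => ?_⟩
    · simp only [Pi.add_apply]
      rw [ha.symm, hb.symm]
    · simp only [Pi.add_apply]
      rw [ha.anti v e he f hf hef, hb.anti v e he f hf hef]
      ring
  zero_mem' := ⟨fun v e f => rfl, fun v e he f hf hef => by simp⟩
  smul_mem' := by
    intro r a ha
    refine ⟨fun v e f => ?_, fun v e he f hf hef => ?_⟩
    · simp only [Pi.smul_apply, smul_eq_mul]
      rw [ha.symm]
    · simp only [Pi.smul_apply, smul_eq_mul]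
      rw [ha.anti v e he f hf hef]
      ring

/-- The cost of `X` as a linear form. -/
def costL (s t : E → V) (bar : V → V) (sig : V → E → E) (X : Finset E) :
    cstSpace s t bar sig →ₗ[ℚ] ℚ where
  toFun c := cost s t c.1 X
  map_add' := by
    intro a b
    unfold cost
    simp only [Submodule.coe_add, Pi.add_apply]
    rw [← Finset.sum_add_distrib]
    refine Finset.sum_congr rfl fun v _ => ?_
    rw [← Finset.sum_add_distrib]
    refine Finset.sum_congr rfl fun e _ => ?_
    rw [← Finset.sum_add_distrib]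
    refine Finset.sum_congr rfl fun f _ => ?_
    split_ifs <;> simp
  map_smul' := by
    intro r a
    unfold cost
    simp only [Submodule.coe_smul, Pi.smul_apply, smul_eq_mul, RingHom.id_apply]
    rw [Finset.mul_sum]
    refine Finset.sum_congr rfl fun v _ => ?_
    rw [Finset.mul_sum]
    refine Finset.sum_congr rfl fun e _ => ?_
    rw [Finset.mul_sum]
    refine Finset.sum_congr rfl fun f _ => ?_
    split_ifs <;> simp

/-- The indicator of the corner `e, f` at `v`. -/
def fkInd (v : V) (e f : E) (v' : V) (e' f' : E) : ℚ :=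
  if v' = v ∧ ((e' = e ∧ f' = f) ∨ (e' = f ∧ f' = e)) then 1 else 0

theorem ind_symm (v : V) (e f : E) (v' : V) (e' f' : E) :
    fkInd v e f v' e' f' = fkInd v e f v' f' e' := by
  unfold fkInd
  congr 1
  apply propext
  constructor
  · rintro ⟨h, h1 | h1⟩
    · exact ⟨h, Or.inr ⟨h1.2, h1.1⟩⟩
    · exact ⟨h, Or.inl ⟨h1.2, h1.1⟩⟩
  · rintro ⟨h, h1 | h1⟩
    · exact ⟨h, Or.inr ⟨h1.2, h1.1⟩⟩
    · exact ⟨h, Or.inl ⟨h1.2, h1.1⟩⟩

/-- The difference of the indicators of a corner and its image is an antisymmetric cost. -/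
theorem cst_ind (h : Con s t bar sig) (v : V) {e f : E} (he : e ∈ cut s t {v})
    (hf : f ∈ cut s t {v}) :
    Cst s t bar sig (fun v' e' f' => fkInd v e f v' e' f' -
      fkInd (bar v) (sig v e) (sig v f) v' e' f') := by
  refine ⟨fun v' e' f' => ?_, fun v' e' he' f' hf' hef' => ?_⟩
  · rw [ind_symm, ind_symm (bar v)]
  · have hbb : bar v' = v ↔ v' = bar v := by
      constructor
      · intro h1; rw [← h1, h.bar_bar]
      · intro h1; rw [h1, h.bar_bar]
    have hb2 : bar v' = bar v ↔ v' = v := by
      constructor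
      · intro h1
        have := congrArg bar h1
        rwa [h.bar_bar, h.bar_bar] at this
      · rintro rfl; rfl
    have h1 : fkInd v e f (bar v') (sig v' e') (sig v' f') =
        fkInd (bar v) (sig v e) (sig v f) v' e' f' := by
      unfold fkInd
      congr 1
      apply propext
      rw [hbb]
      constructor
      · rintro ⟨hv, h2⟩
        refine ⟨hv, ?_⟩
        subst hv
        have h3 := (h.inv' v he').2
        have h4 := (h.inv' v hf').2
        rcases h2 with ⟨h5, h6⟩ | ⟨h5, h6⟩
        · left; rw [← h5, ← h6]; exact ⟨h3.symm, h4.symm⟩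
        · right; rw [← h5, ← h6]; exact ⟨h3.symm, h4.symm⟩
      · rintro ⟨hv, h2⟩
        refine ⟨hv, ?_⟩
        subst hv
        have h3 := h.inv v e he
        have h4 := h.inv v f hf
        rcases h2 with ⟨h5, h6⟩ | ⟨h5, h6⟩
        · left; rw [h5, h6]; exact ⟨h3, h4⟩
        · right; rw [h5, h6]; exact ⟨h4, h3⟩
    have h2 : fkInd (bar v) (sig v e) (sig v f) (bar v') (sig v' e') (sig v' f') =
        fkInd v e f v' e' f' := by
      unfold fkInd
      congr 1
      apply propext
      rw [hb2]
      constructor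
      · rintro ⟨hv, h2⟩
        refine ⟨hv, ?_⟩
        subst hv
        rcases h2 with ⟨h5, h6⟩ | ⟨h5, h6⟩
        · exact Or.inl ⟨h.sig_inj _ _ he' _ he h5, h.sig_inj _ _ hf' _ hf h6⟩
        · exact Or.inr ⟨h.sig_inj _ _ he' _ hf h5, h.sig_inj _ _ hf' _ he h6⟩
      · rintro ⟨hv, h2⟩
        refine ⟨hv, ?_⟩
        subst hv
        rcases h2 with ⟨h5, h6⟩ | ⟨h5, h6⟩
        · left; rw [h5, h6]; exact ⟨rfl, rfl⟩
        · right; rw [h5, h6]; exact ⟨rfl, rfl⟩
    rw [h1, h2]
    ring

/-- The total cost of an indicator. -/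
theorem sum_ind (v : V) {e f : E} (he : e ∈ cut s t {v}) (hf : f ∈ cut s t {v}) (hef : e ≠ f)
    (X : Finset E) : cost s t (fkInd v e f) X = 2 * if e ∈ X ∧ f ∈ X then 1 else 0 := by
  have hfe : f ∈ (cut s t {v}).erase e := Finset.mem_erase.mpr ⟨hef.symm, hf⟩
  have hef' : e ∈ (cut s t {v}).erase f := Finset.mem_erase.mpr ⟨hef, he⟩
  have h1 : ∑ g ∈ (cut s t {v}).erase e, (if e ∈ X ∧ g ∈ X then fkInd v e f v e g else 0) =
      if e ∈ X ∧ f ∈ X then 1 else 0 := by
    rw [Finset.sum_eq_single_of_mem f hfe]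
    · unfold fkInd
      simp
    · intro g hg hgf
      have h0 : fkInd v e f v e g = 0 := by
        unfold fkInd
        apply if_neg
        rintro ⟨-, ⟨-, h⟩ | ⟨h, -⟩⟩
        · exact hgf h
        · exact hef h
      rw [h0, ite_self]
  have h2 : ∑ g ∈ (cut s t {v}).erase f, (if f ∈ X ∧ g ∈ X then fkInd v e f v f g else 0) =
      if e ∈ X ∧ f ∈ X then 1 else 0 := by
    rw [Finset.sum_eq_single_of_mem e hef']
    · unfold fkInd
      by_cases h3 : e ∈ X ∧ f ∈ X
      · rw [if_pos h3, if_pos ⟨h3.2, h3.1⟩]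
        simp
      · rw [if_neg h3, if_neg fun h4 => h3 ⟨h4.2, h4.1⟩]
    · intro g hg hgf
      have h0 : fkInd v e f v f g = 0 := by
        unfold fkInd
        apply if_neg
        rintro ⟨-, ⟨h, -⟩ | ⟨-, h⟩⟩
        · exact hef h.symm
        · exact hgf h
      rw [h0, ite_self]
  have h3 : ∑ p ∈ ((cut s t {v}).erase e).erase f, ∑ g ∈ (cut s t {v}).erase p,
      (if p ∈ X ∧ g ∈ X then fkInd v e f v p g else 0) = 0 := by
    refine Finset.sum_eq_zero fun p hp => Finset.sum_eq_zero fun g _ => ?_
    rw [Finset.mem_erase, Finset.mem_erase] at hp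
    have h0 : fkInd v e f v p g = 0 := by
      unfold fkInd
      apply if_neg
      rintro ⟨-, ⟨h, -⟩ | ⟨h, -⟩⟩
      · exact hp.2.1 h
      · exact hp.1 h
    rw [h0, ite_self]
  unfold cost
  rw [Finset.sum_eq_single v]
  · rw [← Finset.add_sum_erase (cut s t {v}) _ he,
      ← Finset.add_sum_erase ((cut s t {v}).erase e) (fun p => ∑ g ∈ (cut s t {v}).erase p,
        (if p ∈ X ∧ g ∈ X then fkInd v e f v p g else 0)) hfe]
    rw [h1, h2, h3]
    ring
  · intro v' _ hv'
    refine Finset.sum_eq_zero fun p _ => Finset.sum_eq_zero fun g _ => ?_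
    have h0 : fkInd v e f v' p g = 0 := by
      unfold fkInd
      exact if_neg fun h => hv' h.1
    rw [h0, ite_self]
  · intro h
    exact absurd (Finset.mem_univ _) h

/-- In a set with degrees `0`, `2`, an edge at `v` has exactly one partner at `v`. -/
theorem partner {X : Finset E} (hX : Deg02 s t X) (v : V) {e : E} (he : e ∈ cut s t {v}) :
    (∑ f ∈ (cut s t {v}).erase e, if e ∈ X ∧ f ∈ X then (1 : ℚ) else 0) =
      if e ∈ X ∧ e ∈ X then 1 else 0 := by
  by_cases h : e ∈ X
  · have h1 : (X ∩ cut s t {v}).card = 2 := by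
      rcases hX v with h1 | h1
      · rw [Finset.card_eq_zero] at h1
        exact absurd (Finset.mem_inter.mpr ⟨h, he⟩) (by rw [h1]; simp)
      · exact h1
    have h2 : ((X ∩ cut s t {v}).erase e).card = 1 := by
      rw [Finset.card_erase_of_mem (Finset.mem_inter.mpr ⟨h, he⟩), h1]
    have h3 : (∑ f ∈ (cut s t {v}).erase e, if e ∈ X ∧ f ∈ X then (1 : ℚ) else 0) =
        (((cut s t {v}).erase e).filter fun f => f ∈ X).card := by
      rw [Finset.card_filter]
      push_cast
      refine Finset.sum_congr rfl fun f _ => ?_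
      simp [h]
    have h4 : (((cut s t {v}).erase e).filter fun f => f ∈ X) = (X ∩ cut s t {v}).erase e := by
      ext f
      simp only [Finset.mem_filter, Finset.mem_erase, Finset.mem_inter]
      tauto
    rw [h3, h4, h2]
    simp [h]
  · simp [h]

theorem farkas_list (h : Con s t bar sig) (X0 : Finset E) (hX0 : Deg02 s t X0) (v0 : V)
    (e0 f0 : E) (he0 : e0 ∈ X0) (hf0 : f0 ∈ X0) (hev : e0 ∈ cut s t {v0})
    (hfv : f0 ∈ cut s t {v0}) (hnp : oth s t v0 e0 ≠ oth s t v0 f0)
    (H : ∀ c : V → E → E → ℚ, Cst s t bar sig c → Nng s t c → cost s t c X0 ≤ 0) :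
    ∃ L : List (Finset E), (∀ C ∈ L, IsCycle s t C) ∧ (∃ C ∈ L, 3 ≤ C.card) ∧
      ∀ v, ∀ e ∈ cut s t {v}, ∀ f ∈ cut s t {v},
        (L.countP fun C => e ∈ C ∧ f ∈ C) = (L.countP fun C => sig v e ∈ C ∧ sig v f ∈ C) := by
  classical
  have hl := h.hl
  rcases farkas_fintype (κ := {X : Finset E // Deg02 s t X})
    (fun X => costL s t bar sig X.1) (-costL s t bar sig X0) with ⟨x, hx, hxs⟩ | ⟨c, hc, hc2⟩
  swap
  · exfalso
    have h1 := H c.1 c.2 (fun X hX => hc ⟨X, hX⟩)
    rw [LinearMap.neg_apply] at hc2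
    have h2 : costL s t bar sig X0 c = cost s t c.1 X0 := rfl
    rw [h2] at hc2
    linarith
  -- the weights
  set K0 : {X : Finset E // Deg02 s t X} := ⟨X0, hX0⟩ with hK0
  let W : {X : Finset E // Deg02 s t X} → ℚ := fun X => x X + if X = K0 then 1 else 0
  have hW : ∀ X, 0 ≤ W X := by
    intro X
    have h1 := hx X
    simp only [W]
    split_ifs <;> linarith
  have hWs : ∀ c : V → E → E → ℚ, Cst s t bar sig c → ∑ X, W X * cost s t c X.1 = 0 := by
    intro c hc
    have h1 := hxs ⟨c, hc⟩
    rw [LinearMap.neg_apply] at h1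
    have h2 : ∀ X : Finset E, costL s t bar sig X ⟨c, hc⟩ = cost s t c X := fun X => rfl
    simp only [h2] at h1
    simp only [W, add_mul, Finset.sum_add_distrib, h1, ite_mul, one_mul, zero_mul,
      Finset.sum_ite_eq', Finset.mem_univ, if_true]
    rw [hK0]
    ring
  -- the frequencies of pairs
  let F : E → E → ℚ := fun e f => ∑ X, W X * (if e ∈ X.1 ∧ f ∈ X.1 then 1 else 0)
  have hF : ∀ v, ∀ e ∈ cut s t {v}, ∀ f ∈ cut s t {v}, e ≠ f → F e f = F (sig v e) (sig v f) := by
    intro v e he f hf hef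
    have h1 := hWs _ (cst_ind h v he hf)
    have h2 : ∀ X : Finset E, cost s t (fun v' e' f' => fkInd v e f v' e' f' -
        fkInd (bar v) (sig v e) (sig v f) v' e' f') X =
        2 * (if e ∈ X ∧ f ∈ X then 1 else 0) - 2 * (if sig v e ∈ X ∧ sig v f ∈ X then 1 else 0) := by
      intro X
      rw [← sum_ind (s := s) (t := t) v he hf hef X, ← sum_ind (s := s) (t := t) (bar v)
        (h.mem v e he) (h.mem v f hf) (fun h3 => hef (h.sig_inj v e he f hf h3)) X]
      unfold cost
      rw [← Finset.sum_sub_distrib]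
      refine Finset.sum_congr rfl fun v' _ => ?_
      rw [← Finset.sum_sub_distrib]
      refine Finset.sum_congr rfl fun e' _ => ?_
      rw [← Finset.sum_sub_distrib]
      refine Finset.sum_congr rfl fun f' _ => ?_
      split_ifs <;> ring
    simp only [h2] at h1
    have h3 : ∑ X : {X : Finset E // Deg02 s t X}, W X * (2 * (if e ∈ X.1 ∧ f ∈ X.1 then 1 else 0) -
        2 * (if sig v e ∈ X.1 ∧ sig v f ∈ X.1 then 1 else 0)) =
        2 * F e f - 2 * F (sig v e) (sig v f) := by
      simp only [F]
      rw [Finset.mul_sum, Finset.mul_sum, ← Finset.sum_sub_distrib]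
      exact Finset.sum_congr rfl fun X _ => by ring
    rw [h3] at h1
    linarith
  have hdiag : ∀ v, ∀ e ∈ cut s t {v}, ∑ f ∈ (cut s t {v}).erase e, F e f = F e e := by
    intro v e he
    simp only [F]
    rw [Finset.sum_comm]
    refine Finset.sum_congr rfl fun X _ => ?_
    rw [← Finset.mul_sum, partner X.2 v he]
  have hF2 : ∀ v, ∀ e ∈ cut s t {v}, ∀ f ∈ cut s t {v}, F e f = F (sig v e) (sig v f) := by
    intro v e he f hf
    by_cases hef : e = f
    · subst hef
      rw [← hdiag v e he, ← hdiag (bar v) (sig v e) (h.mem v e he),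
        ← sum_sig2 h v he (fun f => F (sig v e) f)]
      refine Finset.sum_congr rfl fun f hf => ?_
      rw [Finset.mem_erase] at hf
      exact hF v e he f hf.2 hf.1.symm
    · exact hF v e he f hf hef
  obtain ⟨L, N, hN, hL, hLc⟩ := OE.list_of_law hl W hW (fun X => X.1) (fun X _ => X.2)
  have hNq : (0 : ℚ) < N := by exact_mod_cast hN
  refine ⟨L, hL, ?_, ?_⟩
  · have h1 := hLc v0 e0 hev f0 hfv
    have h2 : (0 : ℚ) < F e0 f0 := by
      have h3 : (1 : ℚ) ≤ W K0 * (if e0 ∈ K0.1 ∧ f0 ∈ K0.1 then 1 else 0) := by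
        rw [if_pos ⟨he0, hf0⟩]
        have := hx K0
        simp only [W, if_true]
        linarith
      have h4 : W K0 * (if e0 ∈ K0.1 ∧ f0 ∈ K0.1 then 1 else 0) ≤ F e0 f0 := by
        refine Finset.single_le_sum (f := fun X : {X : Finset E // Deg02 s t X} =>
          W X * (if e0 ∈ X.1 ∧ f0 ∈ X.1 then (1 : ℚ) else 0)) (fun X _ => ?_) (Finset.mem_univ K0)
        refine mul_nonneg (hW X) ?_
        split_ifs <;> norm_num
      linarith
    have h3 : 0 < L.countP fun C => e0 ∈ C ∧ f0 ∈ C := by
      have h4 : (0 : ℚ) < ((L.countP fun C => e0 ∈ C ∧ f0 ∈ C : ℕ) : ℚ) := by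
        rw [h1]
        exact mul_pos hNq h2
      exact_mod_cast h4
    rw [List.countP_pos_iff] at h3
    obtain ⟨C, hC, hC2⟩ := h3
    simp only [decide_eq_true_eq] at hC2
    refine ⟨C, hC, ?_⟩
    by_contra hlt
    push Not at hlt
    have hef : e0 ≠ f0 := by
      rintro rfl
      exact hnp rfl
    have h4 : ({e0, f0} : Finset E) ⊆ C := by
      intro g hg
      rw [Finset.mem_insert, Finset.mem_singleton] at hg
      rcases hg with rfl | rfl
      · exact hC2.1
      · exact hC2.2
    have h5 : ({e0, f0} : Finset E) = C := by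
      apply Finset.eq_of_subset_of_card_le h4
      rw [Finset.card_pair hef]
      omega
    have hu := mem_bd_oth hl hev
    have hu1 : e0 ∈ cut s t {oth s t v0 e0} := (Finset.mem_inter.mp hu).2
    have h6 : (C ∩ cut s t {oth s t v0 e0}).card = 2 := by
      rcases (hL C hC).deg (oth s t v0 e0) with h6 | h6
      · rw [Finset.card_eq_zero] at h6
        exact absurd (Finset.mem_inter.mpr ⟨hC2.1, hu1⟩) (by rw [h6]; simp)
      · exact h6
    have h7 : f0 ∈ cut s t {oth s t v0 e0} := by
      by_contra h8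
      have h9 : C ∩ cut s t {oth s t v0 e0} ⊆ {e0} := by
        intro g hg
        rw [← h5, Finset.mem_inter, Finset.mem_insert, Finset.mem_singleton] at hg
        rcases hg.1 with rfl | rfl
        · exact Finset.mem_singleton_self _
        · exact absurd hg.2 h8
      have h10 := Finset.card_le_card h9
      rw [h6, Finset.card_singleton] at h10
      omega
    have h8 : f0 ∈ bd s t v0 (oth s t v0 e0) := Finset.mem_inter.mpr ⟨hfv, h7⟩
    rw [mem_bd hl (oth_ne hl v0 e0).symm] at h8
    exact hnp h8.2.symm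
  · intro v e he f hf
    have h1 := hLc v e he f hf
    have h2 := hLc (bar v) (sig v e) (h.mem v e he) (sig v f) (h.mem v f hf)
    have h3 : ((L.countP fun C => e ∈ C ∧ f ∈ C : ℕ) : ℚ) =
        ((L.countP fun C => sig v e ∈ C ∧ sig v f ∈ C : ℕ) : ℚ) := by
      rw [h1, h2]
      congr 1
      exact hF2 v e he f hf
    exact_mod_cast h3

end Pool.Agent.Lib.MP_95bb8c_al.NR
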