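import Mathlib

set_option autoImplicit false
set_option linter.unusedSectionVars false

/-!
# The grid lemma

A finite set `A` whose elements have rows and columns, no line contains (nearly) half of `A`.
If `f` is nearly antisymmetric for pairs in different rows and different columns, then `f` is
nearly zero.
-/

namespace Pool.Agent.Lib.MP_95bb8c_al.NR

open Finset

/-- Two cells in different rows and in different columns. -/
def gAdj {R : Type} (C D : R × R) : Prop := C.1 ≠ D.1 ∧ C.2 ≠ D.2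

/-- If outside any two lines there is a large cell, then each large cell is adjacent to a triangle
of large cells. -/
theorem g_triangle {R : Type} [DecidableEq R] (L : R × R → Prop)
    (hRR : ∀ a b, ∃ C, L C ∧ C.1 ≠ a ∧ C.1 ≠ b)
    (hRC : ∀ a b, ∃ C, L C ∧ C.1 ≠ a ∧ C.2 ≠ b)
    (hCC : ∀ a b, ∃ C, L C ∧ C.2 ≠ a ∧ C.2 ≠ b) (P : R × R) (hP : L P) :
    ∃ T1 T2 T3, L T1 ∧ L T2 ∧ L T3 ∧ gAdj P T1 ∧ gAdj T1 T2 ∧ gAdj T1 T3 ∧ gAdj T2 T3 := by
  obtain ⟨i, j⟩ := P
  obtain ⟨⟨i', j'⟩, hQ, hi, hj⟩ := hRC i j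
  simp only at hi hj
  -- a large cell outside the rows and the columns of `P` and `Q`
  by_cases hR : ∃ C, L C ∧ C.1 ≠ i ∧ C.1 ≠ i' ∧ C.2 ≠ j ∧ C.2 ≠ j'
  · obtain ⟨⟨a, b⟩, hC, h1, h2, h3, h4⟩ := hR
    simp only at h1 h2 h3 h4
    exact ⟨(i', j'), (i, j), (a, b), hQ, hP, hC, ⟨Ne.symm hi, Ne.symm hj⟩, ⟨hi, hj⟩,
      ⟨Ne.symm h2, Ne.symm h4⟩, ⟨Ne.symm h1, Ne.symm h3⟩⟩
  -- the two configurations which give a triangle
  have case1 : ∀ i'' j'' : R, L (i'', j) → i'' ≠ i → i'' ≠ i' → L (i, j'') → j'' ≠ j → j'' ≠ j' →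
      ∃ T1 T2 T3, L T1 ∧ L T2 ∧ L T3 ∧ gAdj (i, j) T1 ∧ gAdj T1 T2 ∧ gAdj T1 T3 ∧
        gAdj T2 T3 := by
    intro i'' j'' hX h1 h2 hY h3 h4
    exact ⟨(i', j'), (i'', j), (i, j''), hQ, hX, hY, ⟨Ne.symm hi, Ne.symm hj⟩,
      ⟨Ne.symm h2, hj⟩, ⟨hi, Ne.symm h4⟩, ⟨h1, Ne.symm h3⟩⟩
  have case2 : ∀ i'' j'' : R, L (i'', j') → i'' ≠ i → i'' ≠ i' → L (i', j'') → j'' ≠ j →
      j'' ≠ j' →
      ∃ T1 T2 T3, L T1 ∧ L T2 ∧ L T3 ∧ gAdj (i, j) T1 ∧ gAdj T1 T2 ∧ gAdj T1 T3 ∧
        gAdj T2 T3 := by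
    intro i'' j'' hX h1 h2 hY h3 h4
    exact ⟨(i'', j'), (i, j), (i', j''), hX, hP, hY, ⟨Ne.symm h1, Ne.symm hj⟩,
      ⟨h1, hj⟩, ⟨h2, Ne.symm h4⟩, ⟨Ne.symm hi, Ne.symm h3⟩⟩
  -- `X` outside the rows `i`, `i'`
  obtain ⟨⟨i'', jx⟩, hX, hX1, hX2⟩ := hRR i i'
  simp only at hX1 hX2
  have hjx : jx = j ∨ jx = j' := by
    by_contra hcon
    rw [not_or] at hcon
    exact hR ⟨(i'', jx), hX, hX1, hX2, hcon.1, hcon.2⟩
  -- `Y` outside the columns `j`, `j'`
  obtain ⟨⟨iy, j''⟩, hY, hY1, hY2⟩ := hCC j j'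
  simp only at hY1 hY2
  have hiy : iy = i ∨ iy = i' := by
    by_contra hcon
    rw [not_or] at hcon
    exact hR ⟨(iy, j''), hY, hcon.1, hcon.2, hY1, hY2⟩
  rcases hjx with e1 | e1 <;> rcases hiy with e2 | e2 <;> subst e1 <;> subst e2
  · exact case1 i'' j'' hX hX1 hX2 hY hY1 hY2
  · -- X = (i'', j), Y = (i', j'')
    obtain ⟨⟨a, b⟩, hZ, hZ1, hZ2⟩ := hRC iy jx
    simp only at hZ1 hZ2
    by_cases ha : a = i
    · subst ha
      by_cases hb : b = j''
      · subst hb
        exact case1 i'' b hX hX1 hX2 hZ hY1 hY2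
      · exact ⟨(iy, j''), (i'', jx), (a, b), hY, hX, hZ, ⟨Ne.symm hi, Ne.symm hY1⟩,
          ⟨Ne.symm hX2, hY1⟩, ⟨hi, Ne.symm hb⟩, ⟨hX1, Ne.symm hZ2⟩⟩
    · have hb : b = j' := by
        by_contra hb
        exact hR ⟨(a, b), hZ, ha, hZ1, hZ2, hb⟩
      subst hb
      exact case2 a j'' hZ ha hZ1 hY hY1 hY2
  · -- X = (i'', j'), Y = (i, j'')
    obtain ⟨⟨a, b⟩, hZ, hZ1, hZ2⟩ := hRC iy jx
    simp only at hZ1 hZ2
    by_cases ha : a = i'
    · subst ha
      by_cases hb : b = j''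
      · subst hb
        exact case2 i'' b hX hX1 hX2 hZ hY1 hY2
      · exact ⟨(i'', jx), (iy, j''), (a, b), hX, hY, hZ, ⟨Ne.symm hX1, Ne.symm hj⟩,
          ⟨hX1, Ne.symm hY2⟩, ⟨hX2, Ne.symm hZ2⟩, ⟨Ne.symm hi, Ne.symm hb⟩⟩
    · have hb : b = j := by
        by_contra hb
        exact hR ⟨(a, b), hZ, hZ1, ha, hb, hZ2⟩
      subst hb
      exact case1 a j'' hZ hZ1 ha hY hY1 hY2
  · exact case2 i'' j'' hX hX1 hX2 hY hY1 hY2

theorem grid {P R : Type} [DecidableEq P] [Fintype R] [DecidableEq R] (A : Finset P)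
    (r q : P → R) (k : ℕ) (hk : Fintype.card R = k) (δ : ℚ) (hδ : 0 < δ)
    (hr : ∀ i, ((A.filter fun p => r p = i).card : ℚ) ≤ (1 / 2 - δ) * A.card)
    (hq : ∀ j, ((A.filter fun p => q p = j).card : ℚ) ≤ (1 / 2 - δ) * A.card) (f : P → ℚ) :
    (A.card : ℚ) * ∑ p ∈ A, |f p| ≤ 4 * ((k : ℚ) ^ 2 / δ) ^ 2 *
      ∑ p ∈ A, ∑ p' ∈ A, if r p ≠ r p' ∧ q p ≠ q p' then |f p + f p'| else 0 := by
  classical
  rcases A.eq_empty_or_nonempty with hA | hA
  · subst hA; simp
  have hApos : (0 : ℚ) < A.card := by exact_mod_cast hA.card_pos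
  obtain ⟨p0, hp0⟩ := hA
  have hkpos : (0 : ℚ) < k := by
    rw [← hk]
    exact_mod_cast Fintype.card_pos_iff.mpr ⟨r p0⟩
  have hk1 : (1 : ℚ) ≤ k := by
    rw [← hk]
    exact_mod_cast (Fintype.card_pos_iff.mpr ⟨r p0⟩ : 0 < Fintype.card R)
  -- `δ ≤ 1 / 2`
  have hδ2 : δ ≤ 1 / 2 := by
    have h1 := hr (r p0)
    have h0 : (0 : ℚ) ≤ ((A.filter fun p => r p = r p0).card : ℚ) := Nat.cast_nonneg _
    by_contra hcon
    push Not at hcon
    nlinarith
  set m : ℚ := δ * A.card / (k : ℚ) ^ 2 with hm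
  have hmpos : 0 < m := by positivity
  -- the cells
  let cell : R × R → Finset P := fun C => A.filter fun p => r p = C.1 ∧ q p = C.2
  have hcell : ∀ C p, p ∈ cell C ↔ p ∈ A ∧ r p = C.1 ∧ q p = C.2 := by
    intro C p
    simp only [cell, Finset.mem_filter]
  let L : R × R → Prop := fun C => m ≤ ((cell C).card : ℚ)
  -- outside any set of elements of density at most `1 - 2 δ` there is a large cell
  have hout : ∀ (Q : R × R → Prop) [DecidablePred Q],
      ((A.filter fun p => ¬ Q (r p, q p)).card : ℚ) ≤ (1 - 2 * δ) * A.card →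
      ∃ C, L C ∧ Q C := by
    intro Q _ hQ
    by_contra hcon
    push Not at hcon
    have h1 : ((A.filter fun p => Q (r p, q p)).card : ℚ) ≤ δ * A.card := by
      have h2 : (A.filter fun p => Q (r p, q p)) ⊆
          (univ.filter fun C : R × R => Q C).biUnion fun C => cell C := by
        intro p hp
        rw [Finset.mem_filter] at hp
        rw [Finset.mem_biUnion]
        exact ⟨(r p, q p), by simp [hp.2], by rw [hcell]; exact ⟨hp.1, rfl, rfl⟩⟩
      have h3 : ((A.filter fun p => Q (r p, q p)).card : ℚ) ≤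
          ∑ C ∈ univ.filter fun C : R × R => Q C, ((cell C).card : ℚ) := by
        have := (Finset.card_le_card h2).trans Finset.card_biUnion_le
        exact_mod_cast this
      have h4 : ∑ C ∈ univ.filter fun C : R × R => Q C, ((cell C).card : ℚ) ≤
          ∑ C ∈ univ.filter fun C : R × R => Q C, m := by
        apply Finset.sum_le_sum
        intro C hC
        rw [Finset.mem_filter] at hC
        by_contra hlt
        push Not at hlt
        exact hcon C hlt.le hC.2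
      have h5 : ∑ C ∈ univ.filter fun C : R × R => Q C, m ≤ (k : ℚ) ^ 2 * m := by
        rw [Finset.sum_const, nsmul_eq_mul]
        apply mul_le_mul_of_nonneg_right _ hmpos.le
        have h6 : (univ.filter fun C : R × R => Q C).card ≤ k ^ 2 := by
          refine (Finset.card_le_univ _).trans ?_
          rw [Fintype.card_prod, hk, sq]
        exact_mod_cast h6
      have h7 : (k : ℚ) ^ 2 * m = δ * A.card := by
        rw [hm]; field_simp
      linarith
    have h8 : (A.card : ℚ) = (A.filter fun p => Q (r p, q p)).card +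
        (A.filter fun p => ¬ Q (r p, q p)).card := by
      exact_mod_cast (Finset.card_filter_add_card_filter_not (s := A)
        (fun p => Q (r p, q p))).symm
    nlinarith
  have hlines : ∀ (X Y : Finset P) (Z : Finset P), Z ⊆ X ∪ Y →
      (X.card : ℚ) ≤ (1 / 2 - δ) * A.card → (Y.card : ℚ) ≤ (1 / 2 - δ) * A.card →
      (Z.card : ℚ) ≤ (1 - 2 * δ) * A.card := by
    intro X Y Z hZ hX hY
    have h1 : (Z.card : ℚ) ≤ X.card + Y.card := by
      exact_mod_cast (Finset.card_le_card hZ).trans (Finset.card_union_le X Y)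
    linarith
  have hRR : ∀ a b, ∃ C, L C ∧ C.1 ≠ a ∧ C.1 ≠ b := by
    intro a b
    refine hout (fun C => C.1 ≠ a ∧ C.1 ≠ b) ?_
    refine hlines _ _ _ ?_ (hr a) (hr b)
    intro p hp
    simp only [Finset.mem_filter, Finset.mem_union] at hp ⊢
    obtain ⟨h1, h2⟩ := hp
    by_cases h : r p = a
    · exact Or.inl ⟨h1, h⟩
    · refine Or.inr ⟨h1, ?_⟩
      by_contra h3
      exact h2 ⟨h, h3⟩
  have hRC : ∀ a b, ∃ C, L C ∧ C.1 ≠ a ∧ C.2 ≠ b := by
    intro a b
    refine hout (fun C => C.1 ≠ a ∧ C.2 ≠ b) ?_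
    refine hlines _ _ _ ?_ (hr a) (hq b)
    intro p hp
    simp only [Finset.mem_filter, Finset.mem_union] at hp ⊢
    obtain ⟨h1, h2⟩ := hp
    by_cases h : r p = a
    · exact Or.inl ⟨h1, h⟩
    · refine Or.inr ⟨h1, ?_⟩
      by_contra h3
      exact h2 ⟨h, h3⟩
  have hCC : ∀ a b, ∃ C, L C ∧ C.2 ≠ a ∧ C.2 ≠ b := by
    intro a b
    refine hout (fun C => C.2 ≠ a ∧ C.2 ≠ b) ?_
    refine hlines _ _ _ ?_ (hq a) (hq b)
    intro p hp
    simp only [Finset.mem_filter, Finset.mem_union] at hp ⊢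
    obtain ⟨h1, h2⟩ := hp
    by_cases h : q p = a
    · exact Or.inl ⟨h1, h⟩
    · refine Or.inr ⟨h1, ?_⟩
      by_contra h3
      exact h2 ⟨h, h3⟩
  -- the sums
  set g : P → ℚ := fun p => ∑ p' ∈ A, if r p ≠ r p' ∧ q p ≠ q p' then |f p + f p'| else 0
    with hg
  set G : ℚ := ∑ p ∈ A, g p with hG
  have hg0 : ∀ p, 0 ≤ g p := by
    intro p
    apply Finset.sum_nonneg
    intro p' _
    split_ifs
    · exact abs_nonneg _
    · exact le_rfl
  have hG0 : 0 ≤ G := Finset.sum_nonneg fun p _ => hg0 p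
  let S1 : R × R → ℚ := fun C => ∑ x ∈ cell C, |f x|
  let S2 : R × R → R × R → ℚ := fun C D => ∑ x ∈ cell C, ∑ y ∈ cell D, |f x + f y|
  have hsubA : ∀ C, cell C ⊆ A := fun C => Finset.filter_subset _ _
  -- one element against a cell
  have hone : ∀ (p : P) (C : R × R), r p ≠ C.1 → q p ≠ C.2 →
      ∑ y ∈ cell C, |f p + f y| ≤ g p := by
    intro p C h1 h2
    have h3 : ∑ y ∈ cell C, |f p + f y| =
        ∑ y ∈ cell C, (if r p ≠ r y ∧ q p ≠ q y then |f p + f y| else 0) := by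
      apply Finset.sum_congr rfl
      intro y hy
      rw [hcell] at hy
      rw [if_pos]
      rw [hy.2.1, hy.2.2]
      exact ⟨h1, h2⟩
    rw [h3, hg]
    apply Finset.sum_le_sum_of_subset_of_nonneg (hsubA C)
    intro y _ _
    split_ifs
    · exact abs_nonneg _
    · exact le_rfl
  have hS2 : ∀ C D, gAdj C D → S2 C D ≤ G := by
    intro C D hCD
    have h1 : S2 C D ≤ ∑ x ∈ cell C, g x := by
      apply Finset.sum_le_sum
      intro x hx
      rw [hcell] at hx
      apply hone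
      · rw [hx.2.1]; exact hCD.1
      · rw [hx.2.2]; exact hCD.2
    exact h1.trans (Finset.sum_le_sum_of_subset_of_nonneg (hsubA C) fun y _ _ => hg0 y)
  -- averages
  have hcpos : ∀ C, L C → 0 < ((cell C).card : ℚ) := fun C hC => lt_of_lt_of_le hmpos hC
  have havg1 : ∀ C D, ((cell D).card : ℚ) * S1 C ≤ S2 C D + ((cell C).card : ℚ) * S1 D := by
    intro C D
    have h1 : ((cell D).card : ℚ) * S1 C = ∑ x ∈ cell C, ∑ y ∈ cell D, |f x| := by
      simp only [S1, Finset.sum_const, nsmul_eq_mul, Finset.mul_sum]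
    have h2 : ((cell C).card : ℚ) * S1 D = ∑ x ∈ cell C, ∑ y ∈ cell D, |f y| := by
      simp only [S1, Finset.sum_const, nsmul_eq_mul]
    rw [h1, h2]
    simp only [S2]
    rw [← Finset.sum_add_distrib]
    apply Finset.sum_le_sum
    intro x _
    rw [← Finset.sum_add_distrib]
    apply Finset.sum_le_sum
    intro y _
    have := abs_sub (f x + f y) (f y)
    simp only [add_sub_cancel_right] at this
    exact this
  have havg2 : ∀ C D E, 2 * ((cell D).card : ℚ) * ((cell E).card : ℚ) * S1 C ≤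
      ((cell E).card : ℚ) * S2 C D + ((cell D).card : ℚ) * S2 C E +
        ((cell C).card : ℚ) * S2 D E := by
    intro C D E
    have h1 : 2 * ((cell D).card : ℚ) * ((cell E).card : ℚ) * S1 C =
        ∑ x ∈ cell C, ∑ y ∈ cell D, ∑ z ∈ cell E, 2 * |f x| := by
      simp only [S1, Finset.sum_const, nsmul_eq_mul, Finset.mul_sum]
      apply Finset.sum_congr rfl
      intro x _
      ring
    have h2 : ((cell E).card : ℚ) * S2 C D =
        ∑ x ∈ cell C, ∑ y ∈ cell D, ∑ z ∈ cell E, |f x + f y| := by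
      simp only [S2, Finset.sum_const, nsmul_eq_mul, Finset.mul_sum]
    have h3 : ((cell D).card : ℚ) * S2 C E =
        ∑ x ∈ cell C, ∑ y ∈ cell D, ∑ z ∈ cell E, |f x + f z| := by
      simp only [S2, Finset.sum_const, nsmul_eq_mul, Finset.mul_sum]
    have h4 : ((cell C).card : ℚ) * S2 D E =
        ∑ x ∈ cell C, ∑ y ∈ cell D, ∑ z ∈ cell E, |f y + f z| := by
      simp only [S2, Finset.sum_const, nsmul_eq_mul]
    rw [h1, h2, h3, h4, ← Finset.sum_add_distrib, ← Finset.sum_add_distrib]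
    apply Finset.sum_le_sum
    intro x _
    rw [← Finset.sum_add_distrib, ← Finset.sum_add_distrib]
    apply Finset.sum_le_sum
    intro y _
    rw [← Finset.sum_add_distrib, ← Finset.sum_add_distrib]
    apply Finset.sum_le_sum
    intro z _
    have e1 : 2 * |f x| = |(f x + f y) + (f x + f z) - (f y + f z)| := by
      rw [show (f x + f y) + (f x + f z) - (f y + f z) = 2 * f x by ring, abs_mul]
      norm_num
    have e2 := abs_sub ((f x + f y) + (f x + f z)) (f y + f z)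
    have e3 := abs_add_le (f x + f y) (f x + f z)
    linarith
  -- the average of `|f|` over the first cell of a triangle
  have htri : ∀ C D E, L C → L D → L E → gAdj C D → gAdj C E → gAdj D E →
      S1 C / (cell C).card ≤ 3 / 2 * (G / m ^ 2) := by
    intro C D E hC hD hE h1 h2 h3
    have c1 := hcpos C hC
    have c2 := hcpos D hD
    have c3 := hcpos E hE
    have key : ∀ X Y, L X → L Y → gAdj X Y →
        S2 X Y / ((cell X).card * (cell Y).card) ≤ G / m ^ 2 := by
      intro X Y hX hY hXY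
      have d1 := hcpos X hX
      have d2 := hcpos Y hY
      have e1 : S2 X Y / ((cell X).card * (cell Y).card) ≤
          G / ((cell X).card * (cell Y).card) :=
        div_le_div_of_nonneg_right (hS2 X Y hXY) (by positivity)
      have e2 : G / (((cell X).card : ℚ) * (cell Y).card) ≤ G / m ^ 2 := by
        apply div_le_div_of_nonneg_left hG0 (by positivity)
        rw [sq]
        exact mul_le_mul hX hY hmpos.le d1.le
      linarith
    have k1 := key C D hC hD h1
    have k2 := key C E hC hE h2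
    have k3 := key D E hD hE h3
    have h4 := havg2 C D E
    have h5 : S1 C / (cell C).card ≤ 1 / 2 * (S2 C D / ((cell C).card * (cell D).card) +
        S2 C E / ((cell C).card * (cell E).card) +
        S2 D E / ((cell D).card * (cell E).card)) := by
      rw [div_le_iff₀ c1]
      have h6 : 1 / 2 * (S2 C D / (((cell C).card : ℚ) * (cell D).card) +
        S2 C E / ((cell C).card * (cell E).card) +
        S2 D E / ((cell D).card * (cell E).card)) * ((cell C).card : ℚ) =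
        (((cell E).card : ℚ) * S2 C D + ((cell D).card : ℚ) * S2 C E +
        ((cell C).card : ℚ) * S2 D E) / (2 * ((cell D).card : ℚ) * (cell E).card) := by
        field_simp
      rw [h6, le_div_iff₀ (by positivity)]
      linarith
    linarith
  have hpt : ∀ p ∈ A, |f p| ≤ g p / m + 5 / 2 * (G / m ^ 2) := by
    intro p hp
    obtain ⟨Q, hQ, hQ1, hQ2⟩ := hRC (r p) (q p)
    obtain ⟨T1, T2, T3, hT1, hT2, hT3, a1, a2, a3, a4⟩ := g_triangle L hRR hRC hCC Q hQ
    have t1 := htri T1 T2 T3 hT1 hT2 hT3 a2 a3 a4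
    have cQ := hcpos Q hQ
    have c1 := hcpos T1 hT1
    have h1 : S1 Q / (cell Q).card ≤ S2 Q T1 / ((cell Q).card * (cell T1).card) +
        S1 T1 / (cell T1).card := by
      rw [div_le_iff₀ cQ]
      have h6 : (S2 Q T1 / (((cell Q).card : ℚ) * (cell T1).card) +
        S1 T1 / (cell T1).card) * ((cell Q).card : ℚ) =
        (S2 Q T1 + ((cell Q).card : ℚ) * S1 T1) / ((cell T1).card : ℚ) := by
        field_simp
      rw [h6, le_div_iff₀ c1]
      have := havg1 Q T1
      linarith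
    have h2 : S2 Q T1 / ((cell Q).card * (cell T1).card) ≤ G / m ^ 2 := by
      have e1 : S2 Q T1 / ((cell Q).card * (cell T1).card) ≤
          G / ((cell Q).card * (cell T1).card) :=
        div_le_div_of_nonneg_right (hS2 Q T1 a1) (by positivity)
      have e2 : G / (((cell Q).card : ℚ) * (cell T1).card) ≤ G / m ^ 2 := by
        apply div_le_div_of_nonneg_left hG0 (by positivity)
        rw [sq]
        exact mul_le_mul hQ hT1 hmpos.le cQ.le
      linarith
    have h3 : ((cell Q).card : ℚ) * |f p| ≤ g p + S1 Q := by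
      have e1 : ((cell Q).card : ℚ) * |f p| = ∑ y ∈ cell Q, |f p| := by
        simp only [Finset.sum_const, nsmul_eq_mul]
      have e2 : ∑ y ∈ cell Q, |f p| ≤ ∑ y ∈ cell Q, (|f p + f y| + |f y|) := by
        apply Finset.sum_le_sum
        intro y _
        have := abs_sub (f p + f y) (f y)
        simp only [add_sub_cancel_right] at this
        exact this
      rw [Finset.sum_add_distrib] at e2
      have e3 := hone p Q (Ne.symm hQ1) (Ne.symm hQ2)
      have e4 : S1 Q = ∑ y ∈ cell Q, |f y| := rfl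
      linarith
    have h4 : |f p| ≤ g p / (cell Q).card + S1 Q / (cell Q).card := by
      rw [← add_div, le_div_iff₀ cQ]
      linarith
    have h5 : g p / (cell Q).card ≤ g p / m :=
      div_le_div_of_nonneg_left (hg0 p) hmpos hQ
    linarith
  have hsum : ∑ p ∈ A, |f p| ≤ G / m + A.card * (5 / 2 * (G / m ^ 2)) := by
    refine (Finset.sum_le_sum hpt).trans (le_of_eq ?_)
    rw [Finset.sum_add_distrib, Finset.sum_const, nsmul_eq_mul, ← Finset.sum_div]
  have hfin : (A.card : ℚ) * (G / m + A.card * (5 / 2 * (G / m ^ 2))) =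
      (k : ℚ) ^ 2 / δ * G + 5 / 2 * ((k : ℚ) ^ 2 / δ) ^ 2 * G := by
    rw [hm]
    field_simp
  have h1 : (A.card : ℚ) * ∑ p ∈ A, |f p| ≤
      (k : ℚ) ^ 2 / δ * G + 5 / 2 * ((k : ℚ) ^ 2 / δ) ^ 2 * G := by
    rw [← hfin]
    exact mul_le_mul_of_nonneg_left hsum hApos.le
  have hb : 1 ≤ (k : ℚ) ^ 2 / δ := by
    rw [le_div_iff₀ hδ]
    nlinarith
  have hb2 : (k : ℚ) ^ 2 / δ ≤ ((k : ℚ) ^ 2 / δ) ^ 2 := by nlinarith
  have h2 : (k : ℚ) ^ 2 / δ * G ≤ ((k : ℚ) ^ 2 / δ) ^ 2 * G :=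
    mul_le_mul_of_nonneg_right hb2 hG0
  have h3 : 0 ≤ ((k : ℚ) ^ 2 / δ) ^ 2 * G := by positivity
  have h4 : 4 * ((k : ℚ) ^ 2 / δ) ^ 2 * G = ((k : ℚ) ^ 2 / δ) ^ 2 * G +
      5 / 2 * ((k : ℚ) ^ 2 / δ) ^ 2 * G + 1 / 2 * (((k : ℚ) ^ 2 / δ) ^ 2 * G) := by ring
  rw [h4]
  linarith

end Pool.Agent.Lib.MP_95bb8c_al.NR
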