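import Pool.Agent.Lib.MP_95bb8c_al.NR.Basic
import Pool.Agent.Lib.MP_95bb8c_al.NR.Grid

set_option autoImplicit false
set_option linter.unusedSectionVars false

/-!
# Nearly regular lists: the potentials at a vertex and at its mate nearly cancel
-/

namespace Pool.Agent.Lib.MP_95bb8c_al.NR

open Finset

variable {V E : Type} [Fintype V] [DecidableEq V] [Fintype E] [DecidableEq E]
variable {s t : E → V} {bar : V → V} {sig : V → E → E} {c : V → E → E → ℚ}

/-- the sum over the pairs of edges at `u` which are not parallel -/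
theorem good_rows (hl : ∀ e, s e ≠ t e) (g : E → E → ℚ) (K : ℚ) (hK : 0 ≤ K) (u : V)
    (hp : ∀ w y, u ≠ w → w ≠ y → y ≠ u → ∑ e ∈ bd s t u w, ∑ f ∈ bd s t u y,
        g e f ≤ K * ((bd s t u w).card * (bd s t u y).card)) :
    ∑ e ∈ cut s t {u}, ∑ f ∈ cut s t {u},
      (if oth s t u e ≠ oth s t u f then g e f else 0) ≤
      K * ((cut s t {u}).card * (cut s t {u}).card) := by
  have h1 : ∑ e ∈ cut s t {u}, ∑ f ∈ cut s t {u},
      (if oth s t u e ≠ oth s t u f then g e f else 0) =
      ∑ w ∈ univ.erase u, ∑ y ∈ univ.erase u,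
        (if w ≠ y then ∑ e ∈ bd s t u w, ∑ f ∈ bd s t u y, g e f else 0) := by
    rw [sum_cut hl]
    refine Finset.sum_congr rfl fun w hw => ?_
    have hw' : u ≠ w := (Finset.ne_of_mem_erase hw).symm
    have h2 : ∀ e ∈ bd s t u w, ∑ f ∈ cut s t {u},
        (if oth s t u e ≠ oth s t u f then g e f else 0) =
        ∑ y ∈ univ.erase u, (if w ≠ y then ∑ f ∈ bd s t u y, g e f else 0) := by
      intro e he
      rw [sum_cut hl]
      refine Finset.sum_congr rfl fun y hy => ?_
      have hy' : u ≠ y := (Finset.ne_of_mem_erase hy).symm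
      have he' := ((mem_bd hl hw').1 he).2
      by_cases hwy : w ≠ y
      · rw [if_pos hwy]
        refine Finset.sum_congr rfl fun f hf => ?_
        have hf' := ((mem_bd hl hy').1 hf).2
        rw [he', hf', if_pos hwy]
      · rw [if_neg hwy]
        refine Finset.sum_eq_zero fun f hf => ?_
        have hf' := ((mem_bd hl hy').1 hf).2
        rw [he', hf', if_neg hwy]
    rw [Finset.sum_congr rfl h2, Finset.sum_comm]
    refine Finset.sum_congr rfl fun y _ => ?_
    by_cases hwy : w ≠ y
    · simp only [if_pos hwy]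
    · simp only [if_neg hwy, Finset.sum_const_zero]
  rw [h1, card_cut hl u]
  push_cast
  rw [Finset.sum_mul_sum, Finset.mul_sum]
  refine Finset.sum_le_sum fun w hw => ?_
  rw [Finset.mul_sum]
  refine Finset.sum_le_sum fun y hy => ?_
  have hw' : u ≠ w := (Finset.ne_of_mem_erase hw).symm
  have hy' : y ≠ u := Finset.ne_of_mem_erase hy
  by_cases hwy : w ≠ y
  · rw [if_pos hwy]
    exact hp w y hw' hwy hy'
  · rw [if_neg hwy]
    positivity

theorem good (h : Con s t bar sig) (hc : Cst s t bar sig c) (p : V → E → ℚ) (K δ : ℚ)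
    (hK : 0 ≤ K) (hδ : 0 < δ) (k : ℕ) (hk : Fintype.card V = k) (v : V)
    (hhi : ∀ u, u = v ∨ u = bar v → ∀ w, w ≠ u →
      ((bd s t u w).card : ℚ) ≤ (1 / 2 - δ) * (cut s t {v}).card)
    (hp : ∀ u w y, u ≠ w → w ≠ y → y ≠ u → ∑ e ∈ bd s t u w, ∑ f ∈ bd s t u y,
        |c u e f - p u e - p u f| ≤ K * ((bd s t u w).card * (bd s t u y).card)) :
    |∑ e ∈ cut s t {v}, (p v e + p (bar v) (sig v e))| ≤
      8 * ((k : ℚ) ^ 2 / δ) ^ 2 * K * (cut s t {v}).card := by
  have hl := h.hl
  set A := cut s t {v} with hA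
  set F : E → ℚ := fun e => p v e + p (bar v) (sig v e) with hF
  have h0 : 0 ≤ (1 / 2 - δ) * (A.card : ℚ) :=
    le_trans (by positivity) (hhi v (Or.inl rfl) (bar v) (h.bar_ne v))
  have hr : ∀ i, ((A.filter fun e => oth s t v e = i).card : ℚ) ≤ (1 / 2 - δ) * A.card := by
    intro i
    by_cases hi : i = v
    · have : A.filter (fun e => oth s t v e = i) = ∅ := by
        refine Finset.filter_eq_empty_iff.2 fun e _ he => ?_
        exact oth_ne hl v e (he.trans hi)
      rw [this]
      simpa using h0
    · rw [hA, ← bd_filter hl (Ne.symm hi)]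
      exact hhi v (Or.inl rfl) i hi
  have hq : ∀ j, ((A.filter fun e => oth s t (bar v) (sig v e) = j).card : ℚ) ≤
      (1 / 2 - δ) * A.card := by
    intro j
    by_cases hj : j = bar v
    · have : A.filter (fun e => oth s t (bar v) (sig v e) = j) = ∅ := by
        refine Finset.filter_eq_empty_iff.2 fun e _ he => ?_
        exact oth_ne hl (bar v) (sig v e) (he.trans hj)
      rw [this]
      simpa using h0
    · have h1 : (A.filter fun e => oth s t (bar v) (sig v e) = j).card =
          (bd s t (bar v) j).card := by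
        rw [Finset.card_filter, hA,
          sum_sig h v (fun e => if oth s t (bar v) e = j then 1 else 0), ← Finset.card_filter,
          ← bd_filter hl (Ne.symm hj)]
      rw [h1]
      exact hhi (bar v) (Or.inr rfl) j hj
  have hg := grid A (fun e => oth s t v e) (fun e => oth s t (bar v) (sig v e)) k hk δ hδ hr hq F
  -- the right hand side of the grid lemma
  have h2 : ∑ e ∈ A, ∑ f ∈ A, (if oth s t v e ≠ oth s t v f ∧
      oth s t (bar v) (sig v e) ≠ oth s t (bar v) (sig v f) then |F e + F f| else 0) ≤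
      ∑ e ∈ A, ∑ f ∈ A, (if oth s t v e ≠ oth s t v f then |c v e f - p v e - p v f| else 0) +
      ∑ e ∈ A, ∑ f ∈ A, (if oth s t (bar v) (sig v e) ≠ oth s t (bar v) (sig v f) then
        |c (bar v) (sig v e) (sig v f) - p (bar v) (sig v e) - p (bar v) (sig v f)| else 0) := by
    rw [← Finset.sum_add_distrib]
    refine Finset.sum_le_sum fun e he => ?_
    rw [← Finset.sum_add_distrib]
    refine Finset.sum_le_sum fun f hf => ?_
    by_cases h3 : oth s t v e ≠ oth s t v f ∧
        oth s t (bar v) (sig v e) ≠ oth s t (bar v) (sig v f)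
    · rw [if_pos h3, if_pos h3.1, if_pos h3.2]
      have hne : e ≠ f := fun h4 => h3.1 (by rw [h4])
      have h4 : F e + F f = -(c v e f - p v e - p v f) -
          (c (bar v) (sig v e) (sig v f) - p (bar v) (sig v e) - p (bar v) (sig v f)) := by
        rw [hc.anti v e he f hf hne, hF]
        ring
      rw [h4]
      refine (abs_sub _ _).trans (le_of_eq ?_)
      rw [abs_neg]
    · rw [if_neg h3]
      refine add_nonneg ?_ ?_
      · split_ifs
        · exact abs_nonneg _
        · exact le_rfl
      · split_ifs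
        · exact abs_nonneg _
        · exact le_rfl
  have h3 := good_rows hl (fun e f => |c v e f - p v e - p v f|) K hK v (hp v)
  have h4 := good_rows hl (fun e f => |c (bar v) e f - p (bar v) e - p (bar v) f|) K hK (bar v)
    (hp (bar v))
  have h5 : ∑ e ∈ A, ∑ f ∈ A, (if oth s t (bar v) (sig v e) ≠ oth s t (bar v) (sig v f) then
        |c (bar v) (sig v e) (sig v f) - p (bar v) (sig v e) - p (bar v) (sig v f)| else 0) =
      ∑ e ∈ cut s t {bar v}, ∑ f ∈ cut s t {bar v},
        (if oth s t (bar v) e ≠ oth s t (bar v) f then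
          |c (bar v) e f - p (bar v) e - p (bar v) f| else 0) := by
    rw [← sum_sig h v (fun e => ∑ f ∈ cut s t {bar v},
        (if oth s t (bar v) e ≠ oth s t (bar v) f then
          |c (bar v) e f - p (bar v) e - p (bar v) f| else 0))]
    refine Finset.sum_congr rfl fun e _ => ?_
    rw [← sum_sig h v (fun f => if oth s t (bar v) (sig v e) ≠ oth s t (bar v) f then
          |c (bar v) (sig v e) f - p (bar v) (sig v e) - p (bar v) f| else 0)]
  rw [h5] at h2
  rw [card_bar h v] at h4
  rw [← hA] at h3 h4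
  have h6 : (A.card : ℚ) * ∑ e ∈ A, |F e| ≤
      4 * ((k : ℚ) ^ 2 / δ) ^ 2 * (K * (A.card * A.card) + K * (A.card * A.card)) := by
    refine hg.trans ?_
    refine mul_le_mul_of_nonneg_left (h2.trans (add_le_add h3 h4)) (by positivity)
  refine (Finset.abs_sum_le_sum_abs _ _).trans ?_
  rcases Nat.eq_zero_or_pos A.card with h7 | h7
  · rw [Finset.card_eq_zero.1 h7]
    simp
  · have h8 : (0 : ℚ) < A.card := by exact_mod_cast h7
    refine le_of_mul_le_mul_left (h6.trans (le_of_eq ?_)) h8
    ring

end Pool.Agent.Lib.MP_95bb8c_al.NR
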