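import Pool.Agent.Lib.MP_95bb8c_al.NR.Basic

set_option autoImplicit false
set_option linter.unusedSectionVars false

/-!
# Costs of digons, triangles and cycles of length four
-/

namespace Pool.Agent.Lib.MP_95bb8c_al.NR

open Finset

variable {V E : Type} [Fintype V] [DecidableEq V] [Fintype E] [DecidableEq E]
variable {s t : E → V} {bar : V → V} {sig : V → E → E} {c : V → E → E → ℚ}

theorem pair_sum (A M M' : Finset E) (F : E → E → ℚ) :
    ∑ e ∈ A, ∑ f ∈ A.erase e, (if e ∈ M ∧ f ∈ M' then F e f else 0) =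
      ∑ e ∈ M ∩ A, ∑ f ∈ (M' ∩ A).erase e, F e f := by
  rw [Finset.inter_comm M A, ← Finset.sum_ite_mem]
  refine Finset.sum_congr rfl fun e _ => ?_
  by_cases he : e ∈ M
  · rw [if_pos he]
    have h1 : (M' ∩ A).erase e = A.erase e ∩ M' := by
      ext f
      simp only [Finset.mem_erase, Finset.mem_inter]
      tauto
    rw [h1, ← Finset.sum_ite_mem]
    refine Finset.sum_congr rfl fun f _ => ?_
    by_cases hf : f ∈ M'
    · rw [if_pos hf, if_pos ⟨he, hf⟩]
    · rw [if_neg hf, if_neg fun h => hf h.2]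
  · rw [if_neg he]
    exact Finset.sum_eq_zero fun f _ => if_neg fun h => he h.1

theorem cost_eq (X : Finset E) : cost s t c X =
    ∑ v, ∑ e ∈ X ∩ cut s t {v}, ∑ f ∈ (X ∩ cut s t {v}).erase e, c v e f :=
  Finset.sum_congr rfl fun v _ => pair_sum _ _ _ _

theorem vt_pair (F : E → E → ℚ) (hs : ∀ e f, F e f = F f e) {Y : Finset E} {a b : E}
    (hab : a ≠ b) (hY : Y = {a, b}) : ∑ e ∈ Y, ∑ f ∈ Y.erase e, F e f = 2 * F a b := by
  have h1 : ({a, b} : Finset E).erase a = {b} := by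
    rw [Finset.erase_insert]
    exact fun h => hab (Finset.mem_singleton.1 h)
  have h2 : ({a, b} : Finset E).erase b = {a} := by
    rw [Finset.pair_comm, Finset.erase_insert]
    exact fun h => hab (Finset.mem_singleton.1 h).symm
  rw [hY, Finset.sum_pair hab, h1, h2, Finset.sum_singleton, Finset.sum_singleton, hs b a]
  ring

theorem star_bd (hl : ∀ e, s e ≠ t e) {v w : V} (hvw : v ≠ w) {e : E} (he : e ∈ bd s t v w)
    (u : V) : e ∈ cut s t {u} ↔ u = v ∨ u = w := by
  have h1 := (mem_star hl).1 (Finset.mem_inter.1 he).1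
  have h2 := (mem_star hl).1 (Finset.mem_inter.1 he).2
  rw [mem_star hl]
  rcases h1 with h1 | h1
  · rcases h2 with h2 | h2
    · exact absurd (h1.symm.trans h2) hvw
    · rw [h1, h2]
      constructor
      · rintro (h | h)
        · exact Or.inl h.symm
        · exact Or.inr h.symm
      · rintro (h | h)
        · exact Or.inl h.symm
        · exact Or.inr h.symm
  · rcases h2 with h2 | h2
    · rw [h1, h2]
      constructor
      · rintro (h | h)
        · exact Or.inr h.symm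
        · exact Or.inl h.symm
      · rintro (h | h)
        · exact Or.inr h.symm
        · exact Or.inl h.symm
    · exact absurd (h1.symm.trans h2) hvw

/-! ### Digons -/

theorem dig_inter (hl : ∀ e, s e ≠ t e) {v w : V} (h1 : v ≠ w) {e f : E} (he : e ∈ bd s t v w)
    (hf : f ∈ bd s t v w) (u : V) :
    ({e, f} : Finset E) ∩ cut s t {u} = if u = v ∨ u = w then {e, f} else ∅ := by
  ext x
  rw [Finset.mem_inter, Finset.mem_insert, Finset.mem_singleton]
  by_cases hu : u = v ∨ u = w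
  · rw [if_pos hu, Finset.mem_insert, Finset.mem_singleton]
    constructor
    · exact fun h => h.1
    · rintro (rfl | rfl)
      · exact ⟨Or.inl rfl, (star_bd hl h1 he u).2 hu⟩
      · exact ⟨Or.inr rfl, (star_bd hl h1 hf u).2 hu⟩
  · rw [if_neg hu]
    constructor
    · rintro ⟨rfl | rfl, h⟩
      · exact absurd ((star_bd hl h1 he u).1 h) hu
      · exact absurd ((star_bd hl h1 hf u).1 h) hu
    · intro h
      exact absurd h (Finset.notMem_empty x)

theorem deg02_dig (hl : ∀ e, s e ≠ t e) {v w : V} (h1 : v ≠ w) {e f : E} (he : e ∈ bd s t v w)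
    (hf : f ∈ bd s t v w) (hef : e ≠ f) : Deg02 s t {e, f} := by
  intro u
  rw [dig_inter hl h1 he hf u]
  by_cases hu : u = v ∨ u = w
  · rw [if_pos hu]
    exact Or.inr (Finset.card_pair hef)
  · rw [if_neg hu]
    exact Or.inl Finset.card_empty

theorem cost_dig (hl : ∀ e, s e ≠ t e) (hs : ∀ v e f, c v e f = c v f e) {v w : V} (h1 : v ≠ w)
    {e f : E} (he : e ∈ bd s t v w) (hf : f ∈ bd s t v w) (hef : e ≠ f) :
    cost s t c {e, f} = 2 * (c v e f + c w e f) := by
  rw [cost_eq]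
  have h2 : ∀ u ∉ ({v, w} : Finset V), ∑ e' ∈ ({e, f} : Finset E) ∩ cut s t {u},
      ∑ f' ∈ (({e, f} : Finset E) ∩ cut s t {u}).erase e', c u e' f' = 0 := by
    intro u hu
    rw [Finset.mem_insert, Finset.mem_singleton] at hu
    rw [dig_inter hl h1 he hf u, if_neg hu, Finset.sum_empty]
  rw [← Finset.sum_subset (Finset.subset_univ ({v, w} : Finset V)) fun u _ hu => h2 u hu,
    Finset.sum_pair h1]
  rw [vt_pair (c v) (hs v) hef (by rw [dig_inter hl h1 he hf v, if_pos (Or.inl rfl)]),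
    vt_pair (c w) (hs w) hef (by rw [dig_inter hl h1 he hf w, if_pos (Or.inr rfl)])]
  ring

/-! ### Triangles -/

theorem tri_inter (hl : ∀ e, s e ≠ t e) {v w y : V} (h1 : v ≠ w) (h2 : w ≠ y) (h3 : y ≠ v)
    {e f g : E} (he : e ∈ bd s t v w) (hf : f ∈ bd s t w y) (hg : g ∈ bd s t y v) (u : V) :
    ({e, f, g} : Finset E) ∩ cut s t {u} =
      if u = v then {g, e} else if u = w then {e, f} else if u = y then {f, g} else ∅ := by
  have he' := star_bd hl h1 he u
  have hf' := star_bd hl h2 hf u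
  have hg' := star_bd hl h3 hg u
  ext x
  rw [Finset.mem_inter, Finset.mem_insert, Finset.mem_insert, Finset.mem_singleton]
  by_cases hu : u = v
  · rw [if_pos hu, Finset.mem_insert, Finset.mem_singleton]
    constructor
    · rintro ⟨rfl | rfl | rfl, h⟩
      · exact Or.inr rfl
      · rcases hf'.1 h with h4 | h4
        · exact absurd (hu.symm.trans h4) h1
        · exact absurd (h4.symm.trans hu) h3
      · exact Or.inl rfl
    · rintro (rfl | rfl)
      · exact ⟨Or.inr (Or.inr rfl), hg'.2 (Or.inr hu)⟩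
      · exact ⟨Or.inl rfl, he'.2 (Or.inl hu)⟩
  rw [if_neg hu]
  by_cases hu2 : u = w
  · rw [if_pos hu2, Finset.mem_insert, Finset.mem_singleton]
    constructor
    · rintro ⟨rfl | rfl | rfl, h⟩
      · exact Or.inl rfl
      · exact Or.inr rfl
      · rcases hg'.1 h with h4 | h4
        · exact absurd (hu2.symm.trans h4) h2
        · exact absurd h4 hu
    · rintro (rfl | rfl)
      · exact ⟨Or.inl rfl, he'.2 (Or.inr hu2)⟩
      · exact ⟨Or.inr (Or.inl rfl), hf'.2 (Or.inl hu2)⟩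
  rw [if_neg hu2]
  by_cases hu3 : u = y
  · rw [if_pos hu3, Finset.mem_insert, Finset.mem_singleton]
    constructor
    · rintro ⟨rfl | rfl | rfl, h⟩
      · rcases he'.1 h with h4 | h4
        · exact absurd h4 hu
        · exact absurd h4 hu2
      · exact Or.inl rfl
      · exact Or.inr rfl
    · rintro (rfl | rfl)
      · exact ⟨Or.inr (Or.inl rfl), hf'.2 (Or.inr hu3)⟩
      · exact ⟨Or.inr (Or.inr rfl), hg'.2 (Or.inl hu3)⟩
  rw [if_neg hu3]
  constructor
  · rintro ⟨rfl | rfl | rfl, h⟩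
    · rcases he'.1 h with h4 | h4
      · exact absurd h4 hu
      · exact absurd h4 hu2
    · rcases hf'.1 h with h4 | h4
      · exact absurd h4 hu2
      · exact absurd h4 hu3
    · rcases hg'.1 h with h4 | h4
      · exact absurd h4 hu3
      · exact absurd h4 hu
  · intro h
    exact absurd h (Finset.notMem_empty x)

theorem bd_ne (hl : ∀ e, s e ≠ t e) {v w y : V} (h1 : v ≠ w) (h2 : w ≠ y) (h3 : y ≠ v)
    {e f : E} (he : e ∈ bd s t v w) (hf : f ∈ bd s t w y) : e ≠ f := by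
  rintro rfl
  rcases (star_bd hl h2 hf v).1 ((star_bd hl h1 he v).2 (Or.inl rfl)) with h | h
  · exact h1 h
  · exact h3 h.symm

theorem deg02_tri (hl : ∀ e, s e ≠ t e) {v w y : V} (h1 : v ≠ w) (h2 : w ≠ y) (h3 : y ≠ v)
    {e f g : E} (he : e ∈ bd s t v w) (hf : f ∈ bd s t w y) (hg : g ∈ bd s t y v) :
    Deg02 s t {e, f, g} := by
  have hef := bd_ne hl h1 h2 h3 he hf
  have hfg := bd_ne hl h2 h3 h1 hf hg
  have hge := bd_ne hl h3 h1 h2 hg he
  intro u
  rw [tri_inter hl h1 h2 h3 he hf hg u]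
  split_ifs
  · exact Or.inr (Finset.card_pair hge)
  · exact Or.inr (Finset.card_pair hef)
  · exact Or.inr (Finset.card_pair hfg)
  · exact Or.inl Finset.card_empty

theorem cost_tri (hl : ∀ e, s e ≠ t e) (hs : ∀ v e f, c v e f = c v f e)
    {v w y : V} (h1 : v ≠ w) (h2 : w ≠ y) (h3 : y ≠ v)
    {e f g : E} (he : e ∈ bd s t v w) (hf : f ∈ bd s t w y) (hg : g ∈ bd s t y v) :
    cost s t c {e, f, g} = 2 * (c v g e + c w e f + c y f g) := by
  have hef := bd_ne hl h1 h2 h3 he hf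
  have hfg := bd_ne hl h2 h3 h1 hf hg
  have hge := bd_ne hl h3 h1 h2 hg he
  rw [cost_eq]
  have h4 : ∀ u ∉ ({v, w, y} : Finset V), ∑ e' ∈ ({e, f, g} : Finset E) ∩ cut s t {u},
      ∑ f' ∈ (({e, f, g} : Finset E) ∩ cut s t {u}).erase e', c u e' f' = 0 := by
    intro u hu
    rw [Finset.mem_insert, Finset.mem_insert, Finset.mem_singleton, not_or, not_or] at hu
    rw [tri_inter hl h1 h2 h3 he hf hg u, if_neg hu.1, if_neg hu.2.1, if_neg hu.2.2,
      Finset.sum_empty]
  have h5 : v ∉ ({w, y} : Finset V) := by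
    rw [Finset.mem_insert, Finset.mem_singleton, not_or]
    exact ⟨h1, h3.symm⟩
  rw [← Finset.sum_subset (Finset.subset_univ ({v, w, y} : Finset V)) fun u _ hu => h4 u hu,
    Finset.sum_insert h5, Finset.sum_pair h2]
  rw [vt_pair (c v) (hs v) hge (by rw [tri_inter hl h1 h2 h3 he hf hg v, if_pos rfl]),
    vt_pair (c w) (hs w) hef
      (by rw [tri_inter hl h1 h2 h3 he hf hg w, if_neg h1.symm, if_pos rfl]),
    vt_pair (c y) (hs y) hfg
      (by rw [tri_inter hl h1 h2 h3 he hf hg y, if_neg h3, if_neg h2.symm, if_pos rfl])]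
  ring

/-! ### Cycles of length four -/

theorem four_inter (hl : ∀ e, s e ≠ t e) {v w z y : V} (h1 : v ≠ w) (h2 : w ≠ z) (h3 : z ≠ y)
    (h4 : y ≠ v) {e f g h : E} (he : e ∈ bd s t v w) (hf : f ∈ bd s t w z)
    (hg : g ∈ bd s t z y) (hh : h ∈ bd s t y v) (h5 : v ≠ z) (h6 : w ≠ y) (u : V) :
    ({e, f, g, h} : Finset E) ∩ cut s t {u} =
      if u = v then {h, e} else if u = w then {e, f} else if u = z then {f, g} else
        if u = y then {g, h} else ∅ := by
  have he' := star_bd hl h1 he u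
  have hf' := star_bd hl h2 hf u
  have hg' := star_bd hl h3 hg u
  have hh' := star_bd hl h4 hh u
  ext x
  rw [Finset.mem_inter, Finset.mem_insert, Finset.mem_insert, Finset.mem_insert,
    Finset.mem_singleton]
  by_cases hu : u = v
  · have hf2 : f ∉ cut s t {u} := by
      rw [hf', hu, not_or]
      exact ⟨h1, h5⟩
    have hg2 : g ∉ cut s t {u} := by
      rw [hg', hu, not_or]
      exact ⟨h5, h4.symm⟩
    rw [if_pos hu, Finset.mem_insert, Finset.mem_singleton]
    constructor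
    · rintro ⟨rfl | rfl | rfl | rfl, h⟩
      · exact Or.inr rfl
      · exact absurd h hf2
      · exact absurd h hg2
      · exact Or.inl rfl
    · rintro (rfl | rfl)
      · exact ⟨Or.inr (Or.inr (Or.inr rfl)), hh'.2 (Or.inr hu)⟩
      · exact ⟨Or.inl rfl, he'.2 (Or.inl hu)⟩
  rw [if_neg hu]
  by_cases hu2 : u = w
  · have hg2 : g ∉ cut s t {u} := by
      rw [hg', hu2, not_or]
      exact ⟨h2, h6⟩
    have hh2 : h ∉ cut s t {u} := by
      rw [hh', hu2, not_or]
      exact ⟨h6, h1.symm⟩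
    rw [if_pos hu2, Finset.mem_insert, Finset.mem_singleton]
    constructor
    · rintro ⟨rfl | rfl | rfl | rfl, h⟩
      · exact Or.inl rfl
      · exact Or.inr rfl
      · exact absurd h hg2
      · exact absurd h hh2
    · rintro (rfl | rfl)
      · exact ⟨Or.inl rfl, he'.2 (Or.inr hu2)⟩
      · exact ⟨Or.inr (Or.inl rfl), hf'.2 (Or.inl hu2)⟩
  rw [if_neg hu2]
  by_cases hu3 : u = z
  · have he2 : e ∉ cut s t {u} := by
      rw [he', not_or]
      exact ⟨hu, hu2⟩
    have hh2 : h ∉ cut s t {u} := by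
      rw [hh', hu3, not_or]
      exact ⟨h3, h5.symm⟩
    rw [if_pos hu3, Finset.mem_insert, Finset.mem_singleton]
    constructor
    · rintro ⟨rfl | rfl | rfl | rfl, h⟩
      · exact absurd h he2
      · exact Or.inl rfl
      · exact Or.inr rfl
      · exact absurd h hh2
    · rintro (rfl | rfl)
      · exact ⟨Or.inr (Or.inl rfl), hf'.2 (Or.inr hu3)⟩
      · exact ⟨Or.inr (Or.inr (Or.inl rfl)), hg'.2 (Or.inl hu3)⟩
  rw [if_neg hu3]
  by_cases hu4 : u = y
  · have he2 : e ∉ cut s t {u} := by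
      rw [he', not_or]
      exact ⟨hu, hu2⟩
    have hf2 : f ∉ cut s t {u} := by
      rw [hf', not_or]
      exact ⟨hu2, hu3⟩
    rw [if_pos hu4, Finset.mem_insert, Finset.mem_singleton]
    constructor
    · rintro ⟨rfl | rfl | rfl | rfl, h⟩
      · exact absurd h he2
      · exact absurd h hf2
      · exact Or.inl rfl
      · exact Or.inr rfl
    · rintro (rfl | rfl)
      · exact ⟨Or.inr (Or.inr (Or.inl rfl)), hg'.2 (Or.inr hu4)⟩
      · exact ⟨Or.inr (Or.inr (Or.inr rfl)), hh'.2 (Or.inl hu4)⟩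
  rw [if_neg hu4]
  constructor
  · rintro ⟨rfl | rfl | rfl | rfl, h⟩
    · exact absurd (he'.1 h) (by rw [not_or]; exact ⟨hu, hu2⟩)
    · exact absurd (hf'.1 h) (by rw [not_or]; exact ⟨hu2, hu3⟩)
    · exact absurd (hg'.1 h) (by rw [not_or]; exact ⟨hu3, hu4⟩)
    · exact absurd (hh'.1 h) (by rw [not_or]; exact ⟨hu4, hu⟩)
  · intro h
    exact absurd h (Finset.notMem_empty x)

theorem bd_ne4 (hl : ∀ e, s e ≠ t e) {v w y : V} (h1 : v ≠ w) (h2 : w ≠ y) (h3 : v ≠ y)
    {e f : E} (he : e ∈ bd s t v w) (hf : f ∈ bd s t w y) : e ≠ f := bd_ne hl h1 h2 h3.symm he hf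

theorem deg02_four (hl : ∀ e, s e ≠ t e) {v w z y : V} (h1 : v ≠ w) (h2 : w ≠ z) (h3 : z ≠ y)
    (h4 : y ≠ v) {e f g h : E} (he : e ∈ bd s t v w) (hf : f ∈ bd s t w z)
    (hg : g ∈ bd s t z y) (hh : h ∈ bd s t y v) (h5 : v ≠ z) (h6 : w ≠ y) :
    Deg02 s t {e, f, g, h} := by
  have hef := bd_ne4 hl h1 h2 h5 he hf
  have hfg := bd_ne4 hl h2 h3 h6 hf hg
  have hgh := bd_ne4 hl h3 h4 h5.symm hg hh
  have hhe := bd_ne4 hl h4 h1 h6.symm hh he
  intro u
  rw [four_inter hl h1 h2 h3 h4 he hf hg hh h5 h6 u]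
  split_ifs
  · exact Or.inr (Finset.card_pair hhe)
  · exact Or.inr (Finset.card_pair hef)
  · exact Or.inr (Finset.card_pair hfg)
  · exact Or.inr (Finset.card_pair hgh)
  · exact Or.inl Finset.card_empty

theorem cost_four (hl : ∀ e, s e ≠ t e) (hs : ∀ v e f, c v e f = c v f e)
    {v w z y : V} (h1 : v ≠ w) (h2 : w ≠ z) (h3 : z ≠ y)
    (h4 : y ≠ v) {e f g h : E} (he : e ∈ bd s t v w) (hf : f ∈ bd s t w z)
    (hg : g ∈ bd s t z y) (hh : h ∈ bd s t y v) (h5 : v ≠ z) (h6 : w ≠ y) :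
    cost s t c {e, f, g, h} = 2 * (c v h e + c w e f + c z f g + c y g h) := by
  have hef := bd_ne4 hl h1 h2 h5 he hf
  have hfg := bd_ne4 hl h2 h3 h6 hf hg
  have hgh := bd_ne4 hl h3 h4 h5.symm hg hh
  have hhe := bd_ne4 hl h4 h1 h6.symm hh he
  rw [cost_eq]
  have h7 : ∀ u ∉ ({v, w, z, y} : Finset V), ∑ e' ∈ ({e, f, g, h} : Finset E) ∩ cut s t {u},
      ∑ f' ∈ (({e, f, g, h} : Finset E) ∩ cut s t {u}).erase e', c u e' f' = 0 := by
    intro u hu
    rw [Finset.mem_insert, Finset.mem_insert, Finset.mem_insert, Finset.mem_singleton, not_or,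
      not_or, not_or] at hu
    rw [four_inter hl h1 h2 h3 h4 he hf hg hh h5 h6 u, if_neg hu.1, if_neg hu.2.1,
      if_neg hu.2.2.1, if_neg hu.2.2.2, Finset.sum_empty]
  have h8 : v ∉ ({w, z, y} : Finset V) := by
    rw [Finset.mem_insert, Finset.mem_insert, Finset.mem_singleton, not_or, not_or]
    exact ⟨h1, h5, h4.symm⟩
  have h9 : w ∉ ({z, y} : Finset V) := by
    rw [Finset.mem_insert, Finset.mem_singleton, not_or]
    exact ⟨h2, h6⟩
  rw [← Finset.sum_subset (Finset.subset_univ ({v, w, z, y} : Finset V)) fun u _ hu => h7 u hu,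
    Finset.sum_insert h8, Finset.sum_insert h9, Finset.sum_pair h3]
  rw [vt_pair (c v) (hs v) hhe
      (by rw [four_inter hl h1 h2 h3 h4 he hf hg hh h5 h6 v, if_pos rfl]),
    vt_pair (c w) (hs w) hef
      (by rw [four_inter hl h1 h2 h3 h4 he hf hg hh h5 h6 w, if_neg h1.symm, if_pos rfl]),
    vt_pair (c z) (hs z) hfg
      (by rw [four_inter hl h1 h2 h3 h4 he hf hg hh h5 h6 z, if_neg h5.symm, if_neg h2.symm,
        if_pos rfl]),
    vt_pair (c y) (hs y) hgh
      (by rw [four_inter hl h1 h2 h3 h4 he hf hg hh h5 h6 y, if_neg h4, if_neg h6.symm,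
        if_neg h3.symm, if_pos rfl])]
  ring

theorem loc_of_nng (hl : ∀ e, s e ≠ t e) (hs : ∀ v e f, c v e f = c v f e) (h : Nng s t c) :
    Loc s t c where
  symm := hs
  dig := by
    intro v w h1 e he f hf hef
    have h2 := h _ (deg02_dig hl h1 he hf hef)
    rw [cost_dig hl hs h1 he hf hef] at h2
    linarith
  tri := by
    intro v w y h1 h2 h3 e he f hf g hg
    have h4 := h _ (deg02_tri hl h1 h2 h3 he hf hg)
    rw [cost_tri hl hs h1 h2 h3 he hf hg] at h4
    linarith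
  four := by
    intro v w z y h1 h2 h3 h4 h5 h6 e he f hf g hg h' hh
    have h7 := h _ (deg02_four hl h1 h2 h3 h4 he hf hg hh h5 h6)
    rw [cost_four hl hs h1 h2 h3 h4 he hf hg hh h5 h6] at h7
    linarith

end Pool.Agent.Lib.MP_95bb8c_al.NR
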