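import Pool.Agent.Lib.MP_95bb8c_al.NR.Local

set_option autoImplicit false
set_option linter.unusedSectionVars false

/-!
# The bilinear form of the costs on the perfect matching polytope
-/

namespace Pool.Agent.Lib.MP_95bb8c_al.NR

open Finset

variable {V E : Type} [Fintype V] [DecidableEq V] [Fintype E] [DecidableEq E]
variable {s t : E → V} {bar : V → V} {sig : V → E → E} {c : V → E → E → ℚ}

/-! ### Bilinearity -/

theorem phi_sum_left {ι : Type} [Fintype ι] (w : ι → ℚ) (X : ι → E → ℚ) (x y : E → ℚ)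
    (hx : ∀ e, x e = ∑ i, w i * X i e) : phi s t c x y = ∑ i, w i * phi s t c (X i) y := by
  unfold phi
  simp_rw [Finset.mul_sum]
  rw [Finset.sum_comm]
  refine Finset.sum_congr rfl fun v _ => ?_
  rw [Finset.sum_comm]
  refine Finset.sum_congr rfl fun e _ => ?_
  rw [Finset.sum_comm]
  refine Finset.sum_congr rfl fun f _ => ?_
  rw [hx e, Finset.sum_mul, Finset.sum_mul]
  refine Finset.sum_congr rfl fun i _ => ?_
  ring

theorem phi_sum_right {ι : Type} [Fintype ι] (w : ι → ℚ) (Y : ι → E → ℚ) (x y : E → ℚ)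
    (hy : ∀ e, y e = ∑ i, w i * Y i e) : phi s t c x y = ∑ i, w i * phi s t c x (Y i) := by
  unfold phi
  simp_rw [Finset.mul_sum]
  rw [Finset.sum_comm]
  refine Finset.sum_congr rfl fun v _ => ?_
  rw [Finset.sum_comm]
  refine Finset.sum_congr rfl fun e _ => ?_
  rw [Finset.sum_comm]
  refine Finset.sum_congr rfl fun f _ => ?_
  rw [hy f, Finset.mul_sum, Finset.sum_mul]
  refine Finset.sum_congr rfl fun i _ => ?_
  ring

/-! ### Two perfect matchings -/

/-- the indicator of a set of edges -/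
def ind (M : Finset E) (e : E) : ℚ := if e ∈ M then 1 else 0

theorem phi_ind (M M' : Finset E) : phi s t c (ind M) (ind M') =
    ∑ v, ∑ e ∈ M ∩ cut s t {v}, ∑ f ∈ (M' ∩ cut s t {v}).erase e, c v e f := by
  unfold phi
  refine Finset.sum_congr rfl fun v _ => ?_
  rw [← pair_sum]
  refine Finset.sum_congr rfl fun e _ => Finset.sum_congr rfl fun f _ => ?_
  unfold ind
  by_cases he : e ∈ M
  · by_cases hf : f ∈ M'
    · rw [if_pos he, if_pos hf, if_pos ⟨he, hf⟩, one_mul, one_mul]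
    · rw [if_neg hf, if_neg (fun h : e ∈ M ∧ f ∈ M' => hf h.2), mul_zero, zero_mul]
  · rw [if_neg he, if_neg (fun h : e ∈ M ∧ f ∈ M' => he h.1), zero_mul, zero_mul]

theorem symm_inter {M M' A : Finset E} {a b : E} (hM : M ∩ A = {a}) (hM' : M' ∩ A = {b}) :
    symmDiff M M' ∩ A = if a = b then ∅ else {a, b} := by
  have h1 : ∀ x, x ∈ A → (x ∈ M ↔ x = a) := by
    intro x hx
    rw [← Finset.mem_singleton, ← hM, Finset.mem_inter]
    exact ⟨fun h => ⟨h, hx⟩, fun h => h.1⟩
  have h2 : ∀ x, x ∈ A → (x ∈ M' ↔ x = b) := by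
    intro x hx
    rw [← Finset.mem_singleton, ← hM', Finset.mem_inter]
    exact ⟨fun h => ⟨h, hx⟩, fun h => h.1⟩
  have ha : a ∈ A := (Finset.mem_inter.1 (by rw [hM]; exact Finset.mem_singleton_self a :
    a ∈ M ∩ A)).2
  have hb : b ∈ A := (Finset.mem_inter.1 (by rw [hM']; exact Finset.mem_singleton_self b :
    b ∈ M' ∩ A)).2
  by_cases hab : a = b
  · rw [if_pos hab]
    refine Finset.eq_empty_of_forall_notMem fun x hx => ?_
    obtain ⟨hx1, hx2⟩ := Finset.mem_inter.1 hx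
    rw [Finset.mem_symmDiff, h1 x hx2, h2 x hx2, hab] at hx1
    rcases hx1 with h | h
    · exact h.2 h.1
    · exact h.2 h.1
  · rw [if_neg hab]
    ext x
    rw [Finset.mem_inter, Finset.mem_symmDiff, Finset.mem_insert, Finset.mem_singleton]
    constructor
    · rintro ⟨h | h, hx⟩
      · exact Or.inl ((h1 x hx).1 h.1)
      · exact Or.inr ((h2 x hx).1 h.1)
    · rintro (rfl | rfl)
      · exact ⟨Or.inl ⟨(h1 x ha).2 rfl, fun h => hab ((h2 x ha).1 h)⟩, ha⟩
      · exact ⟨Or.inr ⟨(h2 x hb).2 rfl, fun h => hab ((h1 x hb).1 h).symm⟩, hb⟩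

theorem phi_pm (hs : ∀ v e f, c v e f = c v f e) {M M' : Finset E} (hM : IsPM s t M)
    (hM' : IsPM s t M') : cost s t c (symmDiff M M') = 2 * phi s t c (ind M) (ind M') := by
  rw [cost_eq, phi_ind, Finset.mul_sum]
  refine Finset.sum_congr rfl fun v _ => ?_
  obtain ⟨a, ha⟩ := Finset.card_eq_one.1 (hM v)
  obtain ⟨b, hb⟩ := Finset.card_eq_one.1 (hM' v)
  have h1 := symm_inter ha hb
  by_cases hab : a = b
  · rw [if_pos hab] at h1
    rw [h1, Finset.sum_empty, ha, hb, Finset.sum_singleton, hab, Finset.erase_singleton,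
      Finset.sum_empty, mul_zero]
  · rw [if_neg hab] at h1
    rw [vt_pair (c v) (hs v) hab h1, ha, hb, Finset.sum_singleton,
      Finset.erase_eq_of_notMem (fun h => hab (Finset.mem_singleton.1 h)), Finset.sum_singleton]

theorem deg02_pm {M M' : Finset E} (hM : IsPM s t M) (hM' : IsPM s t M') :
    Deg02 s t (symmDiff M M') := by
  intro v
  obtain ⟨a, ha⟩ := Finset.card_eq_one.1 (hM v)
  obtain ⟨b, hb⟩ := Finset.card_eq_one.1 (hM' v)
  rw [symm_inter ha hb]
  by_cases hab : a = b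
  · rw [if_pos hab]
    exact Or.inl Finset.card_empty
  · rw [if_neg hab]
    exact Or.inr (Finset.card_pair hab)

theorem phi_pm_nonneg (hs : ∀ v e f, c v e f = c v f e) (h : Nng s t c) {M M' : Finset E}
    (hM : IsPM s t M) (hM' : IsPM s t M') : 0 ≤ phi s t c (ind M) (ind M') := by
  have h1 := h _ (deg02_pm hM hM')
  rw [phi_pm hs hM hM'] at h1
  linarith

/-! ### The polytope -/

theorem conv_ind {x : E → ℚ} {ι : Type} [Fintype ι] {w : ι → ℚ} {M : ι → Finset E}
    (h4 : ∀ e, ∑ i, (if e ∈ M i then w i else 0) = x e) (e : E) :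
    x e = ∑ i, w i * ind (M i) e := by
  rw [← h4 e]
  refine Finset.sum_congr rfl fun i _ => ?_
  unfold ind
  by_cases he : e ∈ M i
  · rw [if_pos he, if_pos he, mul_one]
  · rw [if_neg he, if_neg he, mul_zero]

theorem phi_nonneg (hl : ∀ e, s e ≠ t e) (hs : ∀ v e f, c v e f = c v f e) (h : Nng s t c)
    {x y : E → ℚ} (hx : InQ s t x) (hy : InQ s t y) : 0 ≤ phi s t c x y := by
  obtain ⟨ι, _, w, M, h1, h2, -, h4⟩ := edmonds V s t x hx
  obtain ⟨κ, _, w', M', h1', h2', -, h4'⟩ := edmonds V s t y hy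
  rw [phi_sum_left w (fun i => ind (M i)) x y (conv_ind h4)]
  refine Finset.sum_nonneg fun i _ => ?_
  by_cases hi : w i = 0
  · rw [hi, zero_mul]
  · refine mul_nonneg (h1 i) ?_
    rw [phi_sum_right w' (fun j => ind (M' j)) (ind (M i)) y (conv_ind h4')]
    refine Finset.sum_nonneg fun j _ => ?_
    by_cases hj : w' j = 0
    · rw [hj, zero_mul]
    · exact mul_nonneg (h1' j) (phi_pm_nonneg hs h (h2 i hi) (h2' j hj))

theorem phi_mix_eq {x y z : E → ℚ} (θ : ℚ) (hz : ∀ e, z e = θ * x e + (1 - θ) * y e) :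
    phi s t c z z = θ ^ 2 * phi s t c x x + θ * (1 - θ) * phi s t c x y +
      θ * (1 - θ) * phi s t c y x + (1 - θ) ^ 2 * phi s t c y y := by
  unfold phi
  simp_rw [Finset.mul_sum]
  rw [← Finset.sum_add_distrib, ← Finset.sum_add_distrib, ← Finset.sum_add_distrib]
  refine Finset.sum_congr rfl fun v _ => ?_
  rw [← Finset.sum_add_distrib, ← Finset.sum_add_distrib, ← Finset.sum_add_distrib]
  refine Finset.sum_congr rfl fun e _ => ?_
  rw [← Finset.sum_add_distrib, ← Finset.sum_add_distrib, ← Finset.sum_add_distrib]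
  refine Finset.sum_congr rfl fun f _ => ?_
  rw [hz e, hz f]
  ring

theorem phi_mix (hl : ∀ e, s e ≠ t e) (hs : ∀ v e f, c v e f = c v f e) (h : Nng s t c)
    {x y z : E → ℚ} (hx : InQ s t x) (hy : InQ s t y) (θ : ℚ) (h0 : 0 ≤ θ) (h1 : θ ≤ 1)
    (hz : ∀ e, z e = θ * x e + (1 - θ) * y e) : θ ^ 2 * phi s t c x x ≤ phi s t c z z := by
  have h2 : 0 ≤ θ * (1 - θ) := mul_nonneg h0 (by linarith)
  have h3 := mul_nonneg h2 (phi_nonneg hl hs h hx hy)
  have h4 := mul_nonneg h2 (phi_nonneg hl hs h hy hx)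
  have h5 := mul_nonneg (sq_nonneg (1 - θ)) (phi_nonneg hl hs h hy hy)
  rw [phi_mix_eq θ hz]
  linarith

end Pool.Agent.Lib.MP_95bb8c_al.NR
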