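import Pool.Agent.Lib.MP_95bb8c_al.NR.Defs

set_option autoImplicit false
set_option linter.unusedSectionVars false

/-!
# Costs on the complete graph

If all triangles and all cycles of length four have costs between `0` and `S`, then the costs are
nearly potentials.
-/

namespace Pool.Agent.Lib.MP_95bb8c_al.NR

open Finset

variable {V : Type} [Fintype V] [DecidableEq V]

/-- the potential at `v` towards `w`, seen from `y`, `z` -/
def PP (x : V → V → V → ℚ) (v w y z : V) : ℚ := (x v w y + x v w z - x v y z) / 2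

/-- the costs of triangles and 4-cycles of the complete graph are between `0` and `S` -/
structure Bdd (x : V → V → V → ℚ) (S : ℚ) : Prop where
  symm : ∀ v w y, x v w y = x v y w
  tri0 : ∀ v w y, v ≠ w → w ≠ y → y ≠ v → 0 ≤ x v y w + x w v y + x y w v
  tri1 : ∀ v w y, v ≠ w → w ≠ y → y ≠ v → x v y w + x w v y + x y w v ≤ S
  four0 : ∀ v w z y, v ≠ w → w ≠ z → z ≠ y → y ≠ v → v ≠ z → w ≠ y →
    0 ≤ x v y w + x w v z + x z w y + x y z v
  four1 : ∀ v w z y, v ≠ w → w ≠ z → z ≠ y → y ≠ v → v ≠ z → w ≠ y →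
    x v y w + x w v z + x z w y + x y z v ≤ S

/-- `3 D = ` signed sum of 24 costs; `2 (PP v w y z - PP v w y z') = D` -/
theorem pp_move {x : V → V → V → ℚ} {S : ℚ} (h : Bdd x S) {v w y z z' : V}
    (hd : [v, w, y, z, z'].Nodup) : |PP x v w y z - PP x v w y z'| ≤ 2 * S := by
  simp only [List.nodup_cons, List.mem_cons, List.not_mem_nil, or_false, not_or,
    List.nodup_nil, and_true, not_false_eq_true] at hd
  obtain ⟨⟨n12, n13, n14, n15⟩, ⟨n23, n24, n25⟩, ⟨n34, n35⟩, n45⟩ := hd
  have s1 := h.symm v w y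
  have s2 := h.symm v w z
  have s3 := h.symm v w z'
  have s4 := h.symm v y z
  have s5 := h.symm v y z'
  have s6 := h.symm v z z'
  have s7 := h.symm w v y
  have s8 := h.symm w v z
  have s9 := h.symm w v z'
  have s10 := h.symm w y z
  have s11 := h.symm w y z'
  have s12 := h.symm w z z'
  have s13 := h.symm y v w
  have s14 := h.symm y v z
  have s15 := h.symm y v z'
  have s16 := h.symm y w z
  have s17 := h.symm y w z'
  have s18 := h.symm y z z'
  have s19 := h.symm z v w
  have s20 := h.symm z v y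
  have s21 := h.symm z v z'
  have s22 := h.symm z w y
  have s23 := h.symm z w z'
  have s24 := h.symm z y z'
  have s25 := h.symm z' v w
  have s26 := h.symm z' v y
  have s27 := h.symm z' v z
  have s28 := h.symm z' w y
  have s29 := h.symm z' w z
  have s30 := h.symm z' y z
  rw [abs_le]
  unfold PP
  constructor
  · have := h.four0 v y w z' n13 (Ne.symm n23) n25 (Ne.symm n15) n12 n35
    have := h.four0 v z w z' n14 (Ne.symm n24) n25 (Ne.symm n15) n12 n45
    have := h.four0 w y z' z n23 n35 (Ne.symm n45) (Ne.symm n24) n25 n34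
    have := h.four0 w z' z v n25 (Ne.symm n45) (Ne.symm n14) n12 n24 (Ne.symm n15)
    have := h.four0 z y v z' (Ne.symm n34) (Ne.symm n13) n15 (Ne.symm n45) (Ne.symm n14) n35
    have := h.four0 z' z v w (Ne.symm n45) (Ne.symm n14) n12 n25 (Ne.symm n15) (Ne.symm n24)
    have := h.four1 v y w z n13 (Ne.symm n23) n24 (Ne.symm n14) n12 n34
    have := h.four1 v z w y n14 (Ne.symm n24) n23 (Ne.symm n13) n12 (Ne.symm n34)
    have := h.four1 w y z' v n23 n35 (Ne.symm n15) n12 n25 (Ne.symm n13)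
    have := h.four1 w z' z y n25 (Ne.symm n45) (Ne.symm n34) (Ne.symm n23) n24 (Ne.symm n35)
    have := h.four1 z y v w (Ne.symm n34) (Ne.symm n13) n12 n24 (Ne.symm n14) (Ne.symm n23)
    have := h.four1 z' z v y (Ne.symm n45) (Ne.symm n14) n13 n35 (Ne.symm n15) (Ne.symm n34)
    have := h.tri0 v w y n12 n23 (Ne.symm n13)
    have := h.tri0 v w z n12 n24 (Ne.symm n14)
    have := h.tri0 w z y n24 (Ne.symm n34) (Ne.symm n23)
    have := h.tri0 w z' v n25 (Ne.symm n15) n12
    have := h.tri0 z v w (Ne.symm n14) n12 n24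
    have := h.tri0 z' v y (Ne.symm n15) n13 n35
    have := h.tri1 v w z' n12 n25 (Ne.symm n15)
    have := h.tri1 w z v n24 (Ne.symm n14) n12
    have := h.tri1 w z' z n25 (Ne.symm n45) (Ne.symm n24)
    have := h.tri1 z v z' (Ne.symm n14) n15 (Ne.symm n45)
    have := h.tri1 z' v w (Ne.symm n15) n12 n25
    linarith
  · have := h.four0 v y w z n13 (Ne.symm n23) n24 (Ne.symm n14) n12 n34
    have := h.four0 v z w y n14 (Ne.symm n24) n23 (Ne.symm n13) n12 (Ne.symm n34)
    have := h.four0 w y z' v n23 n35 (Ne.symm n15) n12 n25 (Ne.symm n13)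
    have := h.four0 w z' z y n25 (Ne.symm n45) (Ne.symm n34) (Ne.symm n23) n24 (Ne.symm n35)
    have := h.four0 z y v w (Ne.symm n34) (Ne.symm n13) n12 n24 (Ne.symm n14) (Ne.symm n23)
    have := h.four0 z' z v y (Ne.symm n45) (Ne.symm n14) n13 n35 (Ne.symm n15) (Ne.symm n34)
    have := h.four1 v y w z' n13 (Ne.symm n23) n25 (Ne.symm n15) n12 n35
    have := h.four1 v z w z' n14 (Ne.symm n24) n25 (Ne.symm n15) n12 n45
    have := h.four1 w y z' z n23 n35 (Ne.symm n45) (Ne.symm n24) n25 n34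
    have := h.four1 w z' z v n25 (Ne.symm n45) (Ne.symm n14) n12 n24 (Ne.symm n15)
    have := h.four1 z y v z' (Ne.symm n34) (Ne.symm n13) n15 (Ne.symm n45) (Ne.symm n14) n35
    have := h.four1 z' z v w (Ne.symm n45) (Ne.symm n14) n12 n25 (Ne.symm n15) (Ne.symm n24)
    have := h.tri0 v w z' n12 n25 (Ne.symm n15)
    have := h.tri0 w z v n24 (Ne.symm n14) n12
    have := h.tri0 w z' z n25 (Ne.symm n45) (Ne.symm n24)
    have := h.tri0 z v z' (Ne.symm n14) n15 (Ne.symm n45)
    have := h.tri0 z' v w (Ne.symm n15) n12 n25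
    have := h.tri1 v w y n12 n23 (Ne.symm n13)
    have := h.tri1 v w z n12 n24 (Ne.symm n14)
    have := h.tri1 w z y n24 (Ne.symm n34) (Ne.symm n23)
    have := h.tri1 w z' v n25 (Ne.symm n15) n12
    have := h.tri1 z v w (Ne.symm n14) n12 n24
    have := h.tri1 z' v y (Ne.symm n15) n13 n35
    linarith

theorem pp_swap {x : V → V → V → ℚ} {S : ℚ} (h : Bdd x S) (v w y z : V) :
    PP x v w y z = PP x v w z y := by
  unfold PP
  rw [h.symm v y z]; ring

theorem pp_all {x : V → V → V → ℚ} {S : ℚ} (h : Bdd x S) {v w y z y' z' : V}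
    (hd : [v, w, y, z].Nodup) (hd' : [v, w, y', z'].Nodup) :
    |PP x v w y z - PP x v w y' z'| ≤ 4 * S := by
  have key := fun {a b c : V} (hh : [v, w, a, b, c].Nodup) => pp_move h hh
  simp only [List.nodup_cons, List.mem_cons, List.not_mem_nil, or_false, not_or,
    List.nodup_nil, and_true, not_false_eq_true] at hd hd' key
  obtain ⟨⟨n12, n13, n14⟩, ⟨n23, n24⟩, n34⟩ := hd
  obtain ⟨⟨-, m13, m14⟩, ⟨m23, m24⟩, m34⟩ := hd'
  have hS : 0 ≤ S := (h.tri0 v w y n12 n23 (Ne.symm n13)).trans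
    (h.tri1 v w y n12 n23 (Ne.symm n13))
  -- one move of the second argument
  have move : ∀ a b c : V, v ≠ a → w ≠ a → v ≠ b → w ≠ b → v ≠ c → w ≠ c → a ≠ b → a ≠ c →
      |PP x v w a b - PP x v w a c| ≤ 2 * S := by
    intro a b c h1 h2 h3 h4 h5 h6 h7 h8
    by_cases hbc : b = c
    · subst hbc; simp only [sub_self, abs_zero]; linarith
    · exact key ⟨⟨n12, h1, h3, h5⟩, ⟨h2, h4, h6⟩, ⟨h7, h8⟩, hbc⟩
  by_cases e1 : y = z'
  · -- y = z'
    subst e1
    rw [pp_swap h v w y' y]
    have := move y z y' n13 n23 n14 n24 m13 m23 n34 (Ne.symm m34)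
    linarith
  · have h1 := move y z z' n13 n23 n14 n24 m14 m24 n34 e1
    have h2 := move z' y y' m14 m24 n13 n23 m13 m23 (Ne.symm e1) (Ne.symm m34)
    rw [pp_swap h v w z' y, pp_swap h v w z' y'] at h2
    have h3 := abs_sub_le (PP x v w y z) (PP x v w y z') (PP x v w y' z')
    linarith

theorem pp_two {x : V → V → V → ℚ} {S : ℚ} (h : Bdd x S) {v w y z : V}
    (hd : [v, w, y, z].Nodup) : |PP x v w y z + PP x w v y z| ≤ 3 / 2 * S := by
  simp only [List.nodup_cons, List.mem_cons, List.not_mem_nil, or_false, not_or,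
    List.nodup_nil, and_true, not_false_eq_true] at hd
  obtain ⟨⟨n12, n13, n14⟩, ⟨n23, n24⟩, n34⟩ := hd
  have a1 := h.tri0 v w y n12 n23 (Ne.symm n13)
  have a2 := h.tri1 v w y n12 n23 (Ne.symm n13)
  have b1 := h.tri0 v w z n12 n24 (Ne.symm n14)
  have b2 := h.tri1 v w z n12 n24 (Ne.symm n14)
  have c1 := h.four0 v y w z n13 (Ne.symm n23) n24 (Ne.symm n14) n12 n34
  have c2 := h.four1 v y w z n13 (Ne.symm n23) n24 (Ne.symm n14) n12 n34
  have s1 := h.symm v w y
  have s2 := h.symm v w z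
  have s3 := h.symm v y z
  have s4 := h.symm w v y
  have s5 := h.symm w v z
  have s6 := h.symm w y z
  have s7 := h.symm y v w
  have s8 := h.symm z v w
  rw [abs_le]
  unfold PP
  constructor <;> linarith

theorem pp_sum {x : V → V → V → ℚ} {S : ℚ} (h : Bdd x S) (v w y z : V) :
    x v w y = PP x v w y z + PP x v y w z := by
  unfold PP
  rw [h.symm v y w]; ring

end Pool.Agent.Lib.MP_95bb8c_al.NR
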