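import Pool.Agent.Lib.MP_95bb8c_al.NR.Basic
import Pool.Agent.Lib.MP_95bb8c_al.NR.Kk

set_option autoImplicit false
set_option linter.unusedSectionVars false

/-!
# The stability lemma

If the costs of the triangles and of the cycles of length four are at least `0` and their averages
are at most `B`, then the costs are nearly potentials in the mean. The potentials are averages over
all transversals, that is, over all choices of one edge for each pair of vertices.
-/

namespace Pool.Agent.Lib.MP_95bb8c_al.NR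

open Finset

variable {V E : Type} [Fintype V] [DecidableEq V] [Fintype E] [DecidableEq E]
variable {s t : E → V} {c : V → E → E → ℚ}

/-- Resampling one coordinate. -/
theorem st_resample {I : Type} [Fintype I] [DecidableEq I] (S : I → Finset E) (i : I)
    (F : (I → E) → ℚ) :
    ∑ T ∈ Fintype.piFinset S, ∑ e ∈ S i, F (Function.update T i e) =
      (S i).card * ∑ T ∈ Fintype.piFinset S, F T := by
  rw [← Finset.sum_product']
  have hmem : ∀ x : (I → E) × E, x ∈ Fintype.piFinset S ×ˢ S i →
      (Function.update x.1 i x.2, x.1 i) ∈ Fintype.piFinset S ×ˢ S i := by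
    rintro ⟨T, e⟩ hx
    simp only [Finset.mem_product, Fintype.mem_piFinset] at hx ⊢
    refine ⟨fun j => ?_, hx.1 i⟩
    by_cases hj : j = i
    · subst hj
      rw [Function.update_self]
      exact hx.2
    · rw [Function.update_of_ne hj]
      exact hx.1 j
  have hinv : ∀ x : (I → E) × E,
      (Function.update (Function.update x.1 i x.2) i (x.1 i),
        (Function.update x.1 i x.2) i) = x := by
    rintro ⟨T, e⟩
    simp only [Function.update_idem, Function.update_eq_self, Function.update_self]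
  have h : ∑ x ∈ Fintype.piFinset S ×ˢ S i, F (Function.update x.1 i x.2) =
      ∑ x ∈ Fintype.piFinset S ×ˢ S i, F x.1 := by
    refine Finset.sum_nbij' (fun x => (Function.update x.1 i x.2, x.1 i))
      (fun x => (Function.update x.1 i x.2, x.1 i)) (fun x hx => hmem x hx)
      (fun x hx => hmem x hx) (fun x _ => hinv x) (fun x _ => hinv x) (fun x _ => rfl)
  rw [h, Finset.sum_product]
  simp only [Finset.sum_const, nsmul_eq_mul, Finset.mul_sum]

/-- The edges which join the two elements of an unordered pair. -/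
def st_bd (s t : E → V) : Sym2 V → Finset E := Sym2.lift ⟨bd s t, bd_comm⟩

theorem st_bd_mk (v w : V) : st_bd s t s(v, w) = bd s t v w := rfl

/-- The costs on the complete graph which come from a transversal. -/
def st_x (c : V → E → E → ℚ) (T : Sym2 V → E) (v w y : V) : ℚ := c v (T s(v, w)) (T s(v, y))

/-- The sum of the costs of all triangles and 4-cycles of a transversal. -/
def st_S (c : V → E → E → ℚ) (T : Sym2 V → E) : ℚ :=
  (∑ q : V × V × V, if q.1 ≠ q.2.1 ∧ q.2.1 ≠ q.2.2 ∧ q.2.2 ≠ q.1 then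
    st_x c T q.1 q.2.2 q.2.1 + st_x c T q.2.1 q.1 q.2.2 + st_x c T q.2.2 q.2.1 q.1 else 0) +
  ∑ q : V × V × V × V, if q.1 ≠ q.2.1 ∧ q.2.1 ≠ q.2.2.1 ∧ q.2.2.1 ≠ q.2.2.2 ∧ q.2.2.2 ≠ q.1 ∧
      q.1 ≠ q.2.2.1 ∧ q.2.1 ≠ q.2.2.2 then
    st_x c T q.1 q.2.2.2 q.2.1 + st_x c T q.2.1 q.1 q.2.2.1 + st_x c T q.2.2.1 q.2.1 q.2.2.2 +
      st_x c T q.2.2.2 q.2.2.1 q.1 else 0

theorem st_three (hc : Loc s t c) {T : Sym2 V → E} (hT : T ∈ Fintype.piFinset (st_bd s t))
    (v w y : V) (h1 : v ≠ w) (h2 : w ≠ y) (h3 : y ≠ v) :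
    0 ≤ st_x c T v y w + st_x c T w v y + st_x c T y w v := by
  rw [Fintype.mem_piFinset] at hT
  have e1 : T s(v, w) ∈ bd s t v w := hT s(v, w)
  have e2 : T s(w, y) ∈ bd s t w y := hT s(w, y)
  have e3 : T s(y, v) ∈ bd s t y v := hT s(y, v)
  have := hc.tri v w y h1 h2 h3 _ e1 _ e2 _ e3
  unfold st_x
  rw [Sym2.eq_swap (a := v) (b := y), Sym2.eq_swap (a := w) (b := v),
    Sym2.eq_swap (a := y) (b := w)]
  exact this

theorem st_four (hc : Loc s t c) {T : Sym2 V → E} (hT : T ∈ Fintype.piFinset (st_bd s t))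
    (v w z y : V) (h1 : v ≠ w) (h2 : w ≠ z) (h3 : z ≠ y) (h4 : y ≠ v) (h5 : v ≠ z)
    (h6 : w ≠ y) :
    0 ≤ st_x c T v y w + st_x c T w v z + st_x c T z w y + st_x c T y z v := by
  rw [Fintype.mem_piFinset] at hT
  have e1 : T s(v, w) ∈ bd s t v w := hT s(v, w)
  have e2 : T s(w, z) ∈ bd s t w z := hT s(w, z)
  have e3 : T s(z, y) ∈ bd s t z y := hT s(z, y)
  have e4 : T s(y, v) ∈ bd s t y v := hT s(y, v)
  have := hc.four v w z y h1 h2 h3 h4 h5 h6 _ e1 _ e2 _ e3 _ e4
  unfold st_x
  rw [Sym2.eq_swap (a := v) (b := y), Sym2.eq_swap (a := w) (b := v),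
    Sym2.eq_swap (a := z) (b := w), Sym2.eq_swap (a := y) (b := z)]
  exact this

theorem st_nonneg3 (hc : Loc s t c) {T : Sym2 V → E} (hT : T ∈ Fintype.piFinset (st_bd s t))
    (q : V × V × V) : 0 ≤ if q.1 ≠ q.2.1 ∧ q.2.1 ≠ q.2.2 ∧ q.2.2 ≠ q.1 then
    st_x c T q.1 q.2.2 q.2.1 + st_x c T q.2.1 q.1 q.2.2 + st_x c T q.2.2 q.2.1 q.1 else 0 := by
  split_ifs with h
  · exact st_three hc hT _ _ _ h.1 h.2.1 h.2.2
  · exact le_rfl

theorem st_nonneg4 (hc : Loc s t c) {T : Sym2 V → E} (hT : T ∈ Fintype.piFinset (st_bd s t))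
    (q : V × V × V × V) : 0 ≤ if q.1 ≠ q.2.1 ∧ q.2.1 ≠ q.2.2.1 ∧ q.2.2.1 ≠ q.2.2.2 ∧
      q.2.2.2 ≠ q.1 ∧ q.1 ≠ q.2.2.1 ∧ q.2.1 ≠ q.2.2.2 then
    st_x c T q.1 q.2.2.2 q.2.1 + st_x c T q.2.1 q.1 q.2.2.1 + st_x c T q.2.2.1 q.2.1 q.2.2.2 +
      st_x c T q.2.2.2 q.2.2.1 q.1 else 0 := by
  split_ifs with h
  · exact st_four hc hT _ _ _ _ h.1 h.2.1 h.2.2.1 h.2.2.2.1 h.2.2.2.2.1 h.2.2.2.2.2
  · exact le_rfl

theorem st_bdd (hc : Loc s t c) {T : Sym2 V → E} (hT : T ∈ Fintype.piFinset (st_bd s t)) :
    Bdd (st_x c T) (st_S c T) where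
  symm v w y := hc.symm _ _ _
  tri0 v w y h1 h2 h3 := st_three hc hT v w y h1 h2 h3
  tri1 v w y h1 h2 h3 := by
    have a1 := Finset.single_le_sum (fun q _ => st_nonneg3 hc hT q)
      (Finset.mem_univ ((v, w, y) : V × V × V))
    have a2 := Finset.sum_nonneg (s := (univ : Finset (V × V × V × V)))
      (fun q _ => st_nonneg4 hc hT q)
    simp only [] at a1
    rw [if_pos ⟨h1, h2, h3⟩] at a1
    unfold st_S
    linarith
  four0 v w z y h1 h2 h3 h4 h5 h6 := st_four hc hT v w z y h1 h2 h3 h4 h5 h6
  four1 v w z y h1 h2 h3 h4 h5 h6 := by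
    have a1 := Finset.single_le_sum (fun q _ => st_nonneg4 hc hT q)
      (Finset.mem_univ ((v, w, z, y) : V × V × V × V))
    have a2 := Finset.sum_nonneg (s := (univ : Finset (V × V × V)))
      (fun q _ => st_nonneg3 hc hT q)
    simp only [] at a1
    rw [if_pos ⟨h1, h2, h3, h4, h5, h6⟩] at a1
    unfold st_S
    linarith

theorem st_mem {T : Sym2 V → E} (hT : T ∈ Fintype.piFinset (st_bd s t)) {v w : V} {e : E}
    (he : e ∈ bd s t v w) :
    Function.update T s(v, w) e ∈ Fintype.piFinset (st_bd s t) := by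
  rw [Fintype.mem_piFinset] at hT ⊢
  intro j
  by_cases hj : j = s(v, w)
  · subst hj
    rw [Function.update_self]
    exact he
  · rw [Function.update_of_ne hj]
    exact hT j

theorem st_resample' (v w : V) (F : (Sym2 V → E) → ℚ) :
    ∑ T ∈ Fintype.piFinset (st_bd s t), ∑ e ∈ bd s t v w, F (Function.update T s(v, w) e) =
      (bd s t v w).card * ∑ T ∈ Fintype.piFinset (st_bd s t), F T :=
  st_resample (st_bd s t) s(v, w) F

/-- The mean of the sum of all costs. -/
theorem st_mean {k : ℕ} (hk : Fintype.card V = k)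
    (hne : ∀ v w, v ≠ w → (bd s t v w).Nonempty) (B : ℚ) (hB : 0 ≤ B)
    (h3 : ∀ v w y, v ≠ w → w ≠ y → y ≠ v →
      ∑ e ∈ bd s t v w, ∑ f ∈ bd s t w y, ∑ g ∈ bd s t y v, (c v g e + c w e f + c y f g) ≤
        B * ((bd s t v w).card * (bd s t w y).card * (bd s t y v).card))
    (h4 : ∀ v w z y, v ≠ w → w ≠ z → z ≠ y → y ≠ v → v ≠ z → w ≠ y →
      ∑ e ∈ bd s t v w, ∑ f ∈ bd s t w z, ∑ g ∈ bd s t z y, ∑ h ∈ bd s t y v,
        (c v h e + c w e f + c z f g + c y g h) ≤
        B * ((bd s t v w).card * (bd s t w z).card * (bd s t z y).card * (bd s t y v).card)) :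
    ∑ T ∈ Fintype.piFinset (st_bd s t), st_S c T ≤
      ((k : ℚ) ^ 3 + (k : ℚ) ^ 4) * (B * (Fintype.piFinset (st_bd s t)).card) := by
  have hN0 : (0 : ℚ) ≤ ((Fintype.piFinset (st_bd s t)).card : ℚ) := Nat.cast_nonneg _
  have hBN : 0 ≤ B * ((Fintype.piFinset (st_bd s t)).card : ℚ) := mul_nonneg hB hN0
  have hpos : ∀ v w, v ≠ w → (0 : ℚ) < (bd s t v w).card := fun v w h => by
    exact_mod_cast (hne v w h).card_pos
  -- triangles
  have hA : ∀ q : V × V × V, ∑ T ∈ Fintype.piFinset (st_bd s t),
      (if q.1 ≠ q.2.1 ∧ q.2.1 ≠ q.2.2 ∧ q.2.2 ≠ q.1 then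
        st_x c T q.1 q.2.2 q.2.1 + st_x c T q.2.1 q.1 q.2.2 + st_x c T q.2.2 q.2.1 q.1
        else 0) ≤ B * (Fintype.piFinset (st_bd s t)).card := by
    rintro ⟨v, w, y⟩
    simp only
    by_cases hd : v ≠ w ∧ w ≠ y ∧ y ≠ v
    · simp only [if_pos hd]
      obtain ⟨d1, d2, d3⟩ := hd
      have n1 : s(v, w) ≠ s(w, y) := by
        intro h
        rw [Sym2.eq_iff] at h
        rcases h with h | h
        · exact d1 h.1
        · exact d3 h.1.symm
      have n2 : s(v, w) ≠ s(y, v) := by
        intro h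
        rw [Sym2.eq_iff] at h
        rcases h with h | h
        · exact d3 h.1.symm
        · exact d2 h.2
      have n3 : s(w, y) ≠ s(y, v) := by
        intro h
        rw [Sym2.eq_iff] at h
        rcases h with h | h
        · exact d2 h.1
        · exact d1 h.1.symm
      have r := st_resample' (s := s) (t := t) v w (fun T => ∑ f ∈ bd s t w y,
        ∑ g ∈ bd s t y v, (fun T => st_x c T v y w + st_x c T w v y + st_x c T y w v)
          (Function.update (Function.update T s(w, y) f) s(y, v) g))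
      rw [st_resample' (s := s) (t := t) w y (fun T => ∑ g ∈ bd s t y v,
        (fun T => st_x c T v y w + st_x c T w v y + st_x c T y w v)
          (Function.update T s(y, v) g)),
        st_resample' (s := s) (t := t) y v
          (fun T => st_x c T v y w + st_x c T w v y + st_x c T y w v)] at r
      have r2 : ∀ T : Sym2 V → E, ∑ e ∈ bd s t v w, ∑ f ∈ bd s t w y, ∑ g ∈ bd s t y v,
          (fun T => st_x c T v y w + st_x c T w v y + st_x c T y w v)
          (Function.update (Function.update (Function.update T s(v, w) e) s(w, y) f)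
            s(y, v) g) = ∑ e ∈ bd s t v w, ∑ f ∈ bd s t w y, ∑ g ∈ bd s t y v,
              (c v g e + c w e f + c y f g) := by
        intro T
        refine Finset.sum_congr rfl fun e _ => Finset.sum_congr rfl fun f _ =>
          Finset.sum_congr rfl fun g _ => ?_
        simp only [st_x]
        rw [Sym2.eq_swap (a := v) (b := y), Sym2.eq_swap (a := w) (b := v),
          Sym2.eq_swap (a := y) (b := w)]
        simp only [Function.update_self, Function.update_of_ne n1, Function.update_of_ne n2,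
          Function.update_of_ne n3]
      simp only [r2, Finset.sum_const, nsmul_eq_mul] at r
      have r3 := h3 v w y d1 d2 d3
      have p1 := hpos v w d1
      have p2 := hpos w y d2
      have p3 := hpos y v d3
      have p : (0 : ℚ) < (bd s t v w).card * (bd s t w y).card * (bd s t y v).card := by
        positivity
      have r4 : ((bd s t v w).card * (bd s t w y).card * (bd s t y v).card : ℚ) *
          ∑ T ∈ Fintype.piFinset (st_bd s t),
            (st_x c T v y w + st_x c T w v y + st_x c T y w v) ≤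
          ((bd s t v w).card * (bd s t w y).card * (bd s t y v).card : ℚ) *
            (B * (Fintype.piFinset (st_bd s t)).card) := by
        have r5 := mul_le_mul_of_nonneg_left r3 hN0
        rw [r] at r5
        linarith
      exact le_of_mul_le_mul_left r4 p
    · simp only [if_neg hd, Finset.sum_const_zero]
      exact hBN
  -- cycles of length four
  have hB4 : ∀ q : V × V × V × V, ∑ T ∈ Fintype.piFinset (st_bd s t),
      (if q.1 ≠ q.2.1 ∧ q.2.1 ≠ q.2.2.1 ∧ q.2.2.1 ≠ q.2.2.2 ∧ q.2.2.2 ≠ q.1 ∧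
        q.1 ≠ q.2.2.1 ∧ q.2.1 ≠ q.2.2.2 then
        st_x c T q.1 q.2.2.2 q.2.1 + st_x c T q.2.1 q.1 q.2.2.1 +
          st_x c T q.2.2.1 q.2.1 q.2.2.2 + st_x c T q.2.2.2 q.2.2.1 q.1
        else 0) ≤ B * (Fintype.piFinset (st_bd s t)).card := by
    rintro ⟨v, w, z, y⟩
    simp only
    by_cases hd : v ≠ w ∧ w ≠ z ∧ z ≠ y ∧ y ≠ v ∧ v ≠ z ∧ w ≠ y
    · simp only [if_pos hd]
      obtain ⟨d1, d2, d3, d4, d5, d6⟩ := hd
      have ne2 : ∀ a b x u : V, (a ≠ x ∨ b ≠ u) → (a ≠ u ∨ b ≠ x) → s(a, b) ≠ s(x, u) := by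
        intro a b x u h h' e
        rw [Sym2.eq_iff] at e
        tauto
      have n1 : s(v, w) ≠ s(w, z) := ne2 _ _ _ _ (Or.inl d1) (Or.inl d5)
      have n2 : s(v, w) ≠ s(z, y) := ne2 _ _ _ _ (Or.inl d5) (Or.inl d4.symm)
      have n3 : s(v, w) ≠ s(y, v) := ne2 _ _ _ _ (Or.inl d4.symm) (Or.inr d6)
      have n4 : s(w, z) ≠ s(z, y) := ne2 _ _ _ _ (Or.inl d2) (Or.inl d6)
      have n5 : s(w, z) ≠ s(y, v) := ne2 _ _ _ _ (Or.inl d6) (Or.inl d1.symm)
      have n6 : s(z, y) ≠ s(y, v) := ne2 _ _ _ _ (Or.inl d3) (Or.inl d5.symm)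
      have r := st_resample' (s := s) (t := t) v w (fun T => ∑ f ∈ bd s t w z,
        ∑ g ∈ bd s t z y, ∑ h ∈ bd s t y v,
          (fun T => st_x c T v y w + st_x c T w v z + st_x c T z w y + st_x c T y z v)
          (Function.update (Function.update (Function.update T s(w, z) f) s(z, y) g)
            s(y, v) h))
      rw [st_resample' (s := s) (t := t) w z (fun T => ∑ g ∈ bd s t z y, ∑ h ∈ bd s t y v,
          (fun T => st_x c T v y w + st_x c T w v z + st_x c T z w y + st_x c T y z v)
          (Function.update (Function.update T s(z, y) g) s(y, v) h)),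
        st_resample' (s := s) (t := t) z y (fun T => ∑ h ∈ bd s t y v,
          (fun T => st_x c T v y w + st_x c T w v z + st_x c T z w y + st_x c T y z v)
          (Function.update T s(y, v) h)),
        st_resample' (s := s) (t := t) y v
          (fun T => st_x c T v y w + st_x c T w v z + st_x c T z w y + st_x c T y z v)] at r
      have r2 : ∀ T : Sym2 V → E, ∑ e ∈ bd s t v w, ∑ f ∈ bd s t w z, ∑ g ∈ bd s t z y,
          ∑ h ∈ bd s t y v,
          (fun T => st_x c T v y w + st_x c T w v z + st_x c T z w y + st_x c T y z v)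
          (Function.update (Function.update (Function.update (Function.update T s(v, w) e)
            s(w, z) f) s(z, y) g) s(y, v) h) =
            ∑ e ∈ bd s t v w, ∑ f ∈ bd s t w z, ∑ g ∈ bd s t z y, ∑ h ∈ bd s t y v,
              (c v h e + c w e f + c z f g + c y g h) := by
        intro T
        refine Finset.sum_congr rfl fun e _ => Finset.sum_congr rfl fun f _ =>
          Finset.sum_congr rfl fun g _ => Finset.sum_congr rfl fun h _ => ?_
        simp only [st_x]
        rw [Sym2.eq_swap (a := v) (b := y), Sym2.eq_swap (a := w) (b := v),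
          Sym2.eq_swap (a := z) (b := w), Sym2.eq_swap (a := y) (b := z)]
        simp only [Function.update_self, Function.update_of_ne n1, Function.update_of_ne n2,
          Function.update_of_ne n3, Function.update_of_ne n4, Function.update_of_ne n5,
          Function.update_of_ne n6]
      simp only [r2, Finset.sum_const, nsmul_eq_mul] at r
      have r3 := h4 v w z y d1 d2 d3 d4 d5 d6
      have p1 := hpos v w d1
      have p2 := hpos w z d2
      have p3 := hpos z y d3
      have p4 := hpos y v d4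
      have p : (0 : ℚ) < (bd s t v w).card * (bd s t w z).card * (bd s t z y).card *
          (bd s t y v).card := by
        positivity
      have r4 : ((bd s t v w).card * (bd s t w z).card * (bd s t z y).card *
          (bd s t y v).card : ℚ) *
          ∑ T ∈ Fintype.piFinset (st_bd s t),
            (st_x c T v y w + st_x c T w v z + st_x c T z w y + st_x c T y z v) ≤
          ((bd s t v w).card * (bd s t w z).card * (bd s t z y).card *
          (bd s t y v).card : ℚ) *
            (B * (Fintype.piFinset (st_bd s t)).card) := by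
        have r5 := mul_le_mul_of_nonneg_left r3 hN0
        rw [r] at r5
        linarith
      exact le_of_mul_le_mul_left r4 p
    · simp only [if_neg hd, Finset.sum_const_zero]
      exact hBN
  unfold st_S
  rw [Finset.sum_add_distrib, Finset.sum_comm, add_mul]
  refine add_le_add ?_ ?_
  · refine (Finset.sum_le_sum fun q _ => hA q).trans (le_of_eq ?_)
    rw [Finset.sum_const, nsmul_eq_mul, Finset.card_univ]
    simp only [Fintype.card_prod, hk]
    push_cast
    ring
  · rw [Finset.sum_comm]
    refine (Finset.sum_le_sum fun q _ => hB4 q).trans (le_of_eq ?_)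
    rw [Finset.sum_const, nsmul_eq_mul, Finset.card_univ]
    simp only [Fintype.card_prod, hk]
    push_cast
    ring

/-- Two vertices outside a small set. -/
theorem st_two {k : ℕ} (hk : Fintype.card V = k) (h5 : 5 ≤ k) (F : Finset V) (hF : F.card ≤ 3) :
    ∃ a b, a ∉ F ∧ b ∉ F ∧ a ≠ b := by
  have h1 : 1 < (univ \ F).card := by
    rw [Finset.card_sdiff_of_subset (Finset.subset_univ F), Finset.card_univ, hk]
    omega
  obtain ⟨a, ha, b, hb, hab⟩ := Finset.one_lt_card.1 h1
  rw [Finset.mem_sdiff] at ha hb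
  exact ⟨a, b, ha.2, hb.2, hab⟩

theorem stability (hl : ∀ e, s e ≠ t e) (hc : Loc s t c) {k : ℕ} (hk : Fintype.card V = k)
    (h5 : 5 ≤ k) (hne : ∀ v w, v ≠ w → (bd s t v w).Nonempty) (B : ℚ)
    (h3 : ∀ v w y, v ≠ w → w ≠ y → y ≠ v →
      ∑ e ∈ bd s t v w, ∑ f ∈ bd s t w y, ∑ g ∈ bd s t y v, (c v g e + c w e f + c y f g) ≤
        B * ((bd s t v w).card * (bd s t w y).card * (bd s t y v).card))
    (h4 : ∀ v w z y, v ≠ w → w ≠ z → z ≠ y → y ≠ v → v ≠ z → w ≠ y →
      ∑ e ∈ bd s t v w, ∑ f ∈ bd s t w z, ∑ g ∈ bd s t z y, ∑ h ∈ bd s t y v,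
        (c v h e + c w e f + c z f g + c y g h) ≤
        B * ((bd s t v w).card * (bd s t w z).card * (bd s t z y).card * (bd s t y v).card)) :
    ∃ p : V → E → ℚ,
      (∀ v w y, v ≠ w → w ≠ y → y ≠ v → ∑ e ∈ bd s t v w, ∑ f ∈ bd s t v y,
        |c v e f - p v e - p v f| ≤ KA k * B * ((bd s t v w).card * (bd s t v y).card)) ∧
      ∀ v w, v ≠ w → ∑ e ∈ bd s t v w, |p v e + p w e| ≤ KA k * B * (bd s t v w).card := by
  classical
  have hpos : ∀ v w, v ≠ w → (0 : ℚ) < (bd s t v w).card := fun v w h => by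
    exact_mod_cast (hne v w h).card_pos
  -- `0 ≤ B`
  have hB : 0 ≤ B := by
    obtain ⟨a, b, -, -, hab⟩ := st_two hk h5 (∅ : Finset V) (by simp)
    obtain ⟨z, -, hz, -, -⟩ := st_two hk h5 ({a, b} : Finset V)
      (Finset.card_le_two.trans (by norm_num))
    simp only [Finset.mem_insert, Finset.mem_singleton, not_or] at hz
    have e1 := h3 a b z hab (Ne.symm hz.2) hz.1
    have e2 : 0 ≤ ∑ e ∈ bd s t a b, ∑ f ∈ bd s t b z, ∑ g ∈ bd s t z a,
        (c a g e + c b e f + c z f g) :=
      Finset.sum_nonneg fun e he => Finset.sum_nonneg fun f hf => Finset.sum_nonneg fun g hg =>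
        hc.tri a b z hab (Ne.symm hz.2) hz.1 e he f hf g hg
    have p1 := hpos a b hab
    have p2 := hpos b z (Ne.symm hz.2)
    have p3 := hpos z a hz.1
    have p : (0 : ℚ) < (bd s t a b).card * (bd s t b z).card * (bd s t z a).card := by
      positivity
    by_contra hneg
    push Not at hneg
    have := mul_neg_of_neg_of_pos hneg p
    linarith
  set TT : Finset (Sym2 V → E) := Fintype.piFinset (st_bd s t) with hTT
  -- there is a transversal
  have hTne : TT.Nonempty := by
    rw [hTT, Fintype.piFinset_nonempty]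
    intro i
    induction i using Sym2.ind with
    | _ v w =>
      by_cases hvw : v = w
      · subst hvw
        obtain ⟨a, -, ha, -, -⟩ := st_two hk h5 ({v} : Finset V) (by simp)
        rw [Finset.mem_singleton] at ha
        obtain ⟨e, he⟩ := hne v a (Ne.symm ha)
        refine ⟨e, ?_⟩
        rw [st_bd_mk]
        unfold bd at he ⊢
        rw [Finset.mem_inter] at he ⊢
        exact ⟨he.1, he.1⟩
      · exact hne v w hvw
  set N : ℚ := (TT.card : ℚ) with hN
  have hNpos : 0 < N := by
    rw [hN]; exact_mod_cast hTne.card_pos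
  have hmean : ∑ T ∈ TT, st_S c T ≤ ((k : ℚ) ^ 3 + (k : ℚ) ^ 4) * (B * N) :=
    st_mean hk hne B hB h3 h4
  -- the reference vertices
  have hch : ∀ v w : V, ∃ y z : V, v ≠ w → [v, w, y, z].Nodup := by
    intro v w
    obtain ⟨y, z, hy, hz, hyz⟩ := st_two hk h5 ({v, w} : Finset V)
      (Finset.card_le_two.trans (by norm_num))
    refine ⟨y, z, fun hvw => ?_⟩
    simp only [Finset.mem_insert, Finset.mem_singleton, not_or] at hy hz
    simp only [List.nodup_cons, List.mem_cons, List.not_mem_nil, or_false, not_or,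
      List.nodup_nil, and_true, not_false_eq_true]
    exact ⟨⟨hvw, Ne.symm hy.1, Ne.symm hz.1⟩, ⟨Ne.symm hy.2, Ne.symm hz.2⟩, hyz⟩
  choose y0 z0 hyz using hch
  -- the potentials
  let A : V → V → E → (Sym2 V → E) → ℚ := fun v w e T =>
    PP (st_x c (Function.update T s(v, w) e)) v w (y0 v w) (z0 v w)
  let p : V → E → ℚ := fun v e => (∑ T ∈ TT, A v (oth s t v e) e T) / N
  have hp : ∀ v w, v ≠ w → ∀ e ∈ bd s t v w, p v e = (∑ T ∈ TT, A v w e T) / N := by
    intro v w hvw e he
    have := ((mem_bd hl hvw).1 he).2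
    simp only [p]
    rw [this]
  have hk5 : (5 : ℚ) ≤ k := by exact_mod_cast h5
  have hconst : (k : ℚ) ^ 3 + (k : ℚ) ^ 4 ≤ 2 * (k : ℚ) ^ 10 := by
    have a1 : (k : ℚ) ^ 3 ≤ (k : ℚ) ^ 10 := pow_le_pow_right₀ (by linarith) (by norm_num)
    have a2 : (k : ℚ) ^ 4 ≤ (k : ℚ) ^ 10 := pow_le_pow_right₀ (by linarith) (by norm_num)
    linarith
  refine ⟨p, ?_, ?_⟩
  · intro v w y d1 d2 d3
    -- vertices outside `v, w, y`
    obtain ⟨y1, z1, hy1, hz1, hyz1⟩ := st_two hk h5 ({v, w, y} : Finset V)
      Finset.card_le_three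
    simp only [Finset.mem_insert, Finset.mem_singleton, not_or] at hy1 hz1
    have ne2 : ∀ a b x u : V, (a ≠ x ∨ b ≠ u) → (a ≠ u ∨ b ≠ x) → s(a, b) ≠ s(x, u) := by
      intro a b x u h h' e
      rw [Sym2.eq_iff] at e
      tauto
    -- one transversal
    have hone : ∀ T ∈ TT, ∀ e ∈ bd s t v w, ∀ f ∈ bd s t v y,
        |c v e f - A v w e T - A v y f T| ≤ 4 * st_S c (Function.update T s(v, w) e) +
          4 * st_S c (Function.update T s(v, y) f) +
          8 * st_S c (Function.update (Function.update T s(v, w) e) s(v, y) f) := by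
      intro T hT e he f hf
      have hTe := st_mem hT he
      have hTf := st_mem hT hf
      have hTef := st_mem hTe hf
      have b1 := st_bdd hc hTe
      have b2 := st_bdd hc hTf
      have b3 := st_bdd hc hTef
      have hnd : ∀ a b x : V, v ≠ a → v ≠ b → v ≠ x → a ≠ b → a ≠ x → b ≠ x →
          [v, a, b, x].Nodup := by
        intro a b x g1 g2 g3 g4 g5 g6
        simp only [List.nodup_cons, List.mem_cons, List.not_mem_nil, or_false, not_or,
          List.nodup_nil, and_true, not_false_eq_true]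
        exact ⟨⟨g1, g2, g3⟩, ⟨g4, g5⟩, g6⟩
      have q1 := pp_all b1 (hyz v w d1) (hnd w y1 z1 d1 (Ne.symm hy1.1) (Ne.symm hz1.1)
        (Ne.symm hy1.2.1) (Ne.symm hz1.2.1) hyz1)
      have q2 := pp_all b3 (hnd w y1 z1 d1 (Ne.symm hy1.1) (Ne.symm hz1.1)
        (Ne.symm hy1.2.1) (Ne.symm hz1.2.1) hyz1)
        (hnd w y z1 d1 (Ne.symm d3) (Ne.symm hz1.1) d2 (Ne.symm hz1.2.1) (Ne.symm hz1.2.2))
      have q3 := pp_all b2 (hyz v y (Ne.symm d3)) (hnd y y1 z1 (Ne.symm d3) (Ne.symm hy1.1)
        (Ne.symm hz1.1) (Ne.symm hy1.2.2) (Ne.symm hz1.2.2) hyz1)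
      have q4 := pp_all b3 (hnd y y1 z1 (Ne.symm d3) (Ne.symm hy1.1)
        (Ne.symm hz1.1) (Ne.symm hy1.2.2) (Ne.symm hz1.2.2) hyz1)
        (hnd y w z1 (Ne.symm d3) d1 (Ne.symm hz1.1) (Ne.symm d2) (Ne.symm hz1.2.2)
          (Ne.symm hz1.2.1))
      have m1 : s(v, w) ≠ s(v, y) := ne2 _ _ _ _ (Or.inr d2) (Or.inl (Ne.symm d3))
      have m2 : s(v, y1) ≠ s(v, y) := ne2 _ _ _ _ (Or.inr hy1.2.2) (Or.inl (Ne.symm d3))
      have m3 : s(v, z1) ≠ s(v, y) := ne2 _ _ _ _ (Or.inr hz1.2.2) (Or.inl (Ne.symm d3))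
      have m4 : s(v, y1) ≠ s(v, w) := ne2 _ _ _ _ (Or.inr hy1.2.1) (Or.inl d1)
      have m5 : s(v, z1) ≠ s(v, w) := ne2 _ _ _ _ (Or.inr hz1.2.1) (Or.inl d1)
      have g1 : PP (st_x c (Function.update T s(v, w) e)) v w y1 z1 =
          PP (st_x c (Function.update (Function.update T s(v, w) e) s(v, y) f)) v w y1 z1 := by
        simp only [PP, st_x, Function.update_of_ne m1, Function.update_of_ne m2,
          Function.update_of_ne m3]
      have g2 : PP (st_x c (Function.update T s(v, y) f)) v y y1 z1 =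
          PP (st_x c (Function.update (Function.update T s(v, w) e) s(v, y) f)) v y y1 z1 := by
        simp only [PP, st_x, Function.update_of_ne m4, Function.update_of_ne m5,
          Function.update_self, Function.update_of_ne m2, Function.update_of_ne m3]
      have g3 : c v e f =
          PP (st_x c (Function.update (Function.update T s(v, w) e) s(v, y) f)) v w y z1 +
          PP (st_x c (Function.update (Function.update T s(v, w) e) s(v, y) f)) v y w z1 := by
        rw [← pp_sum b3 v w y z1]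
        simp only [st_x, Function.update_self, Function.update_of_ne m1]
      simp only [A]
      rw [abs_le] at q1 q2 q3 q4 ⊢
      rw [g1] at q1
      rw [g2] at q3
      constructor <;> linarith [q1.1, q1.2, q2.1, q2.2, q3.1, q3.2, q4.1, q4.2]
    -- the sum over all transversals
    have hsum : ∀ e ∈ bd s t v w, ∀ f ∈ bd s t v y,
        N * |c v e f - p v e - p v f| ≤ ∑ T ∈ TT,
          (4 * st_S c (Function.update T s(v, w) e) +
          4 * st_S c (Function.update T s(v, y) f) +
          8 * st_S c (Function.update (Function.update T s(v, w) e) s(v, y) f)) := by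
      intro e he f hf
      have e1 : N * (c v e f - p v e - p v f) =
          ∑ T ∈ TT, (c v e f - A v w e T - A v y f T) := by
        rw [hp v w d1 e he, hp v y (Ne.symm d3) f hf, Finset.sum_sub_distrib,
          Finset.sum_sub_distrib, Finset.sum_const, nsmul_eq_mul]
        rw [← hN]
        field_simp
      have e2 : N * |c v e f - p v e - p v f| = |N * (c v e f - p v e - p v f)| := by
        rw [abs_mul, abs_of_pos hNpos]
      rw [e2, e1]
      exact (Finset.abs_sum_le_sum_abs _ _).trans
        (Finset.sum_le_sum fun T hT => hone T hT e he f hf)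
    have htot : N * ∑ e ∈ bd s t v w, ∑ f ∈ bd s t v y, |c v e f - p v e - p v f| ≤
        16 * ((bd s t v w).card * (bd s t v y).card) * ∑ T ∈ TT, st_S c T := by
      have f1 : N * ∑ e ∈ bd s t v w, ∑ f ∈ bd s t v y, |c v e f - p v e - p v f| ≤
          ∑ e ∈ bd s t v w, ∑ f ∈ bd s t v y, ∑ T ∈ TT,
          (4 * st_S c (Function.update T s(v, w) e) +
          4 * st_S c (Function.update T s(v, y) f) +
          8 * st_S c (Function.update (Function.update T s(v, w) e) s(v, y) f)) := by
        rw [Finset.mul_sum]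
        refine Finset.sum_le_sum fun e he => ?_
        rw [Finset.mul_sum]
        exact Finset.sum_le_sum fun f hf => hsum e he f hf
      refine f1.trans (le_of_eq ?_)
      have k1 : ∑ e ∈ bd s t v w, ∑ f ∈ bd s t v y, ∑ T ∈ TT,
          st_S c (Function.update T s(v, w) e) =
          (bd s t v w).card * (bd s t v y).card * ∑ T ∈ TT, st_S c T := by
        simp only [Finset.sum_const, nsmul_eq_mul]
        rw [← Finset.mul_sum, Finset.sum_comm, st_resample' v w (fun T => st_S c T)]
        ring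
      have k2 : ∑ e ∈ bd s t v w, ∑ f ∈ bd s t v y, ∑ T ∈ TT,
          st_S c (Function.update T s(v, y) f) =
          (bd s t v w).card * (bd s t v y).card * ∑ T ∈ TT, st_S c T := by
        rw [Finset.sum_const, nsmul_eq_mul, Finset.sum_comm,
          st_resample' v y (fun T => st_S c T)]
        ring
      have k3 : ∑ e ∈ bd s t v w, ∑ f ∈ bd s t v y, ∑ T ∈ TT,
          st_S c (Function.update (Function.update T s(v, w) e) s(v, y) f) =
          (bd s t v w).card * (bd s t v y).card * ∑ T ∈ TT, st_S c T := by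
        have k4 : ∑ e ∈ bd s t v w, ∑ f ∈ bd s t v y, ∑ T ∈ TT,
            st_S c (Function.update (Function.update T s(v, w) e) s(v, y) f) =
            ∑ T ∈ TT, ∑ e ∈ bd s t v w, ∑ f ∈ bd s t v y,
            st_S c (Function.update (Function.update T s(v, w) e) s(v, y) f) := by
          rw [Finset.sum_comm]
          refine (Finset.sum_congr rfl fun e _ => Finset.sum_comm).trans ?_
          rw [Finset.sum_comm]
          refine Finset.sum_congr rfl fun T _ => Finset.sum_comm
        rw [k4, st_resample' v w (fun T => ∑ f ∈ bd s t v y,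
          st_S c (Function.update T s(v, y) f)), st_resample' v y (fun T => st_S c T)]
        ring
      simp only [Finset.sum_add_distrib, ← Finset.mul_sum]
      rw [k1, k2, k3]
      ring
    have hcard : (0 : ℚ) ≤ (bd s t v w).card * (bd s t v y).card := by positivity
    have hfin : N * ∑ e ∈ bd s t v w, ∑ f ∈ bd s t v y, |c v e f - p v e - p v f| ≤
        N * (KA k * B * ((bd s t v w).card * (bd s t v y).card)) := by
      refine htot.trans ?_
      have g1 := mul_le_mul_of_nonneg_left hmean (by positivity :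
        (0 : ℚ) ≤ 16 * ((bd s t v w).card * (bd s t v y).card))
      refine g1.trans ?_
      have g2 : (16 * ((k : ℚ) ^ 3 + (k : ℚ) ^ 4)) *
          (B * N * ((bd s t v w).card * (bd s t v y).card)) ≤
          (1000 * (k : ℚ) ^ 10) * (B * N * ((bd s t v w).card * (bd s t v y).card)) := by
        apply mul_le_mul_of_nonneg_right
        · have : (0 : ℚ) ≤ (k : ℚ) ^ 10 := by positivity
          linarith
        · positivity
      unfold KA
      linarith
    exact le_of_mul_le_mul_left hfin hNpos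
  · intro v w d1
    have hone : ∀ T ∈ TT, ∀ e ∈ bd s t v w,
        |A v w e T + A w v e T| ≤ 6 * st_S c (Function.update T s(v, w) e) := by
      intro T hT e he
      have hTe := st_mem hT he
      have b1 := st_bdd hc hTe
      have hnd := hyz v w d1
      have hnd' := hyz w v (Ne.symm d1)
      have hnd2 : [w, v, y0 v w, z0 v w].Nodup := by
        simp only [List.nodup_cons, List.mem_cons, List.not_mem_nil, or_false, not_or,
          List.nodup_nil, and_true, not_false_eq_true] at hnd ⊢
        tauto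
      have q1 := pp_two b1 hnd
      have q2 := pp_all b1 hnd' hnd2
      have hS : 0 ≤ st_S c (Function.update T s(v, w) e) := by
        have := (abs_nonneg _).trans q1
        linarith
      simp only [A]
      rw [Sym2.eq_swap (a := w) (b := v)]
      rw [abs_le] at q1 q2 ⊢
      constructor <;> linarith [q1.1, q1.2, q2.1, q2.2]
    have hsum : ∀ e ∈ bd s t v w, N * |p v e + p w e| ≤
        ∑ T ∈ TT, 6 * st_S c (Function.update T s(v, w) e) := by
      intro e he
      have he' : e ∈ bd s t w v := by rw [bd_comm]; exact he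
      have e1 : N * (p v e + p w e) = ∑ T ∈ TT, (A v w e T + A w v e T) := by
        rw [hp v w d1 e he, hp w v (Ne.symm d1) e he', Finset.sum_add_distrib]
        field_simp
      have e2 : N * |p v e + p w e| = |N * (p v e + p w e)| := by
        rw [abs_mul, abs_of_pos hNpos]
      rw [e2, e1]
      exact (Finset.abs_sum_le_sum_abs _ _).trans
        (Finset.sum_le_sum fun T hT => hone T hT e he)
    have htot : N * ∑ e ∈ bd s t v w, |p v e + p w e| ≤
        6 * (bd s t v w).card * ∑ T ∈ TT, st_S c T := by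
      have f1 : N * ∑ e ∈ bd s t v w, |p v e + p w e| ≤
          ∑ e ∈ bd s t v w, ∑ T ∈ TT, 6 * st_S c (Function.update T s(v, w) e) := by
        rw [Finset.mul_sum]
        exact Finset.sum_le_sum fun e he => hsum e he
      refine f1.trans (le_of_eq ?_)
      simp only [← Finset.mul_sum]
      rw [Finset.sum_comm, st_resample' v w (fun T => st_S c T)]
      ring
    have hfin : N * ∑ e ∈ bd s t v w, |p v e + p w e| ≤
        N * (KA k * B * (bd s t v w).card) := by
      refine htot.trans ?_
      have g1 := mul_le_mul_of_nonneg_left hmean (by positivity :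
        (0 : ℚ) ≤ 6 * (bd s t v w).card)
      refine g1.trans ?_
      have g2 : (6 * ((k : ℚ) ^ 3 + (k : ℚ) ^ 4)) * (B * N * (bd s t v w).card) ≤
          (1000 * (k : ℚ) ^ 10) * (B * N * (bd s t v w).card) := by
        apply mul_le_mul_of_nonneg_right
        · have : (0 : ℚ) ≤ (k : ℚ) ^ 10 := by positivity
          linarith
        · positivity
      unfold KA
      linarith
    exact le_of_mul_le_mul_left hfin hNpos

end Pool.Agent.Lib.MP_95bb8c_al.NR
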