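import Pool.Agent.Lib.MP_95bb8c_al.NR.Basic

set_option autoImplicit false
set_option linter.unusedSectionVars false

/-!
# Weights of nearly regular multigraphs
-/

namespace Pool.Agent.Lib.MP_95bb8c_al.NR

open Finset

variable {V E : Type} [Fintype V] [DecidableEq V] [Fintype E] [DecidableEq E]
variable {s t : E → V}

/-- the uniform weights -/
noncomputable def nu (s t : E → V) (k : ℕ) (e : E) : ℚ :=
  1 / (((k : ℚ) - 1) * (bd s t (s e) (t e)).card)

theorem ends_of_bd (hl : ∀ e, s e ≠ t e) {v w : V} (hvw : v ≠ w) {e : E}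
    (he : e ∈ bd s t v w) : (s e = v ∧ t e = w) ∨ (s e = w ∧ t e = v) := by
  unfold bd at he
  rw [Finset.mem_inter, mem_star hl, mem_star hl] at he
  rcases he with ⟨h1 | h1, h2 | h2⟩
  · exact absurd (h1.symm.trans h2) hvw
  · exact Or.inl ⟨h1, h2⟩
  · exact Or.inr ⟨h2, h1⟩
  · exact absurd (h1.symm.trans h2) hvw

theorem val_bd (hl : ∀ e, s e ≠ t e) {G : V → V → ℚ} (hG : ∀ v w, G v w = G w v) {v w : V}
    (hvw : v ≠ w) {e : E} (he : e ∈ bd s t v w) : G (s e) (t e) = G v w := by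
  rcases ends_of_bd hl hvw he with ⟨h1, h2⟩ | ⟨h1, h2⟩
  · rw [h1, h2]
  · rw [h1, h2, hG]

theorem sum_bd (hl : ∀ e, s e ≠ t e) {G : V → V → ℚ} (hG : ∀ v w, G v w = G w v) {v w : V}
    (hvw : v ≠ w) :
    ∑ e ∈ bd s t v w, G (s e) (t e) = (bd s t v w).card * G v w := by
  rw [Finset.sum_congr rfl (fun e he => val_bd hl hG hvw he), Finset.sum_const, nsmul_eq_mul]

theorem sum_cut_set (hl : ∀ e, s e ≠ t e) (S : Finset V) (F : E → ℚ) :
    ∑ e ∈ cut s t S, F e = ∑ v ∈ S, ∑ w ∈ Sᶜ, ∑ e ∈ bd s t v w, F e := by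
  rw [← Finset.sum_product', ← Finset.sum_fiberwise_of_maps_to (s := cut s t S) (t := S ×ˢ Sᶜ)
    (g := fun e => if s e ∈ S then (s e, t e) else (t e, s e))]
  · refine Finset.sum_congr rfl fun p hp => ?_
    rw [Finset.mem_product, Finset.mem_compl] at hp
    have hne : p.1 ≠ p.2 := fun h => hp.2 (h ▸ hp.1)
    refine Finset.sum_congr ?_ fun _ _ => rfl
    ext e
    rw [Finset.mem_filter, mem_cut]
    constructor
    · rintro ⟨h1, h2⟩
      by_cases h3 : s e ∈ S
      · rw [if_pos h3] at h2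
        rw [← h2]
        exact mem_bd_ends hl e
      · rw [if_neg h3] at h2
        rw [← h2, bd_comm]
        exact mem_bd_ends hl e
    · intro he
      rcases ends_of_bd hl hne he with ⟨h1, h2⟩ | ⟨h1, h2⟩
      · rw [h1, h2, if_pos hp.1]
        exact ⟨fun h => hp.2 (h.1 hp.1), rfl⟩
      · rw [h1, h2, if_neg hp.2]
        exact ⟨fun h => hp.2 (h.2 hp.1), rfl⟩
  · intro e he
    rw [mem_cut] at he
    rw [Finset.mem_product, Finset.mem_compl]
    by_cases h3 : s e ∈ S
    · rw [if_pos h3]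
      exact ⟨h3, fun h => he ⟨fun _ => h, fun _ => h3⟩⟩
    · rw [if_neg h3]
      refine ⟨?_, h3⟩
      by_contra h
      exact he ⟨fun h' => absurd h' h3, fun h' => absurd h' h⟩

section
variable {k : ℕ} {d δ ε : ℚ}

theorem Near.mpos (hN : Near s t k d δ ε) (hδ : 0 < δ) {v w : V} (hvw : v ≠ w) :
    (0 : ℚ) < (bd s t v w).card :=
  lt_of_lt_of_le (mul_pos hδ hN.dpos) (hN.lo v w hvw)

theorem Near.kk (hN : Near s t k d δ ε) : (6 : ℚ) ≤ k := by exact_mod_cast hN.six

theorem Near.card_compl (hN : Near s t k d δ ε) (S : Finset V) :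
    ((Sᶜ).card : ℚ) = k - S.card := by
  rw [Finset.card_compl, hN.card, Nat.cast_sub]
  rw [← hN.card]
  exact Finset.card_le_univ S

theorem nu_cut (hl : ∀ e, s e ≠ t e) (hN : Near s t k d δ ε) (hδ : 0 < δ) (S : Finset V) :
    ∑ e ∈ cut s t S, nu s t k e = S.card * (k - S.card) / (k - 1) := by
  rw [sum_cut_set hl]
  have h1 : ∀ v ∈ S, ∀ w ∈ Sᶜ, ∑ e ∈ bd s t v w, nu s t k e = 1 / ((k : ℚ) - 1) := by
    intro v hv w hw
    have hne : v ≠ w := fun h => (Finset.mem_compl.1 hw) (h ▸ hv)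
    have hm := hN.mpos hδ hne
    have hk := hN.kk
    have hG : ∀ v w : V, (fun v w => 1 / (((k : ℚ) - 1) * (bd s t v w).card)) v w =
        (fun v w => 1 / (((k : ℚ) - 1) * (bd s t v w).card)) w v := fun v w => by
      simp only [bd_comm (s := s) (t := t) v w]
    have := sum_bd hl hG hne
    unfold nu
    rw [this]
    have : (k : ℚ) - 1 ≠ 0 := by linarith
    field_simp
  rw [Finset.sum_congr rfl fun v hv => Finset.sum_congr rfl fun w hw => h1 v hv w hw]
  rw [Finset.sum_const, Finset.sum_const, nsmul_eq_mul, nsmul_eq_mul, hN.card_compl]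
  ring

theorem one_le_ratio (hN : Near s t k d δ ε) (hev : Even k) {S : Finset V}
    (hS : Odd S.card) : (1 : ℚ) ≤ S.card * (k - S.card) / (k - 1) := by
  have hk := hN.kk
  have h1 : S.card ≤ k := by rw [← hN.card]; exact Finset.card_le_univ S
  have h2 : 1 ≤ S.card := hS.pos
  have h3 : S.card ≠ k := fun h => (Nat.not_even_iff_odd.2 hS) (h ▸ hev)
  have h4 : S.card + 1 ≤ k := by omega
  have h5 : (1 : ℚ) ≤ S.card := by exact_mod_cast h2
  have h6 : (S.card : ℚ) + 1 ≤ k := by exact_mod_cast h4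
  rw [le_div_iff₀ (by linarith)]
  nlinarith

theorem inQ_nu (hl : ∀ e, s e ≠ t e) (hN : Near s t k d δ ε) (hev : Even k) (hδ : 0 < δ) :
    InQ s t (nu s t k) where
  nonneg e := by
    have := hN.mpos hδ (hl e)
    have hk := hN.kk
    unfold nu
    have : (0 : ℚ) < (k : ℚ) - 1 := by linarith
    positivity
  loop e he := absurd he (hl e)
  deg v := by
    have hk := hN.kk
    rw [nu_cut hl hN hδ, Finset.card_singleton]
    have : (k : ℚ) - 1 ≠ 0 := by linarith
    push_cast
    field_simp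
  odd S hS := by
    rw [nu_cut hl hN hδ]
    exact one_le_ratio hN hev hS

/-- the missing degree -/
def bt (s t : E → V) (d : ℚ) (v : V) : ℚ := d - (cut s t {v}).card

/-- the correction on the pair `v, w` -/
def tt (s t : E → V) (k : ℕ) (d : ℚ) (v w : V) : ℚ :=
  (bt s t d v + bt s t d w) / ((k : ℚ) - 2) -
    (∑ u, bt s t d u) / (((k : ℚ) - 1) * ((k : ℚ) - 2))

/-- the weight of the edges which join `v` and `w` -/
def XX (s t : E → V) (k : ℕ) (d : ℚ) (v w : V) : ℚ :=
  ((bd s t v w).card + tt s t k d v w) / (d * (bd s t v w).card)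

theorem tt_comm (v w : V) : tt s t k d v w = tt s t k d w v := by
  unfold tt
  ring

theorem XX_comm (v w : V) : XX s t k d v w = XX s t k d w v := by
  unfold XX
  rw [tt_comm, bd_comm]

theorem bt_le (hN : Near s t k d δ ε) (v : V) : |bt s t d v| ≤ ε * d := by
  unfold bt
  rw [abs_sub_comm]
  exact hN.deg v

theorem tt_le (hN : Near s t k d δ ε) (hε0 : 0 < ε) (v w : V) :
    |tt s t k d v w| ≤ ε * d := by
  have hk := hN.kk
  have hd := hN.dpos
  have h1 : |∑ u, bt s t d u| ≤ k * (ε * d) := by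
    refine (Finset.abs_sum_le_sum_abs _ _).trans ?_
    refine (Finset.sum_le_sum fun u _ => bt_le hN u).trans ?_
    rw [Finset.sum_const, Finset.card_univ, hN.card, nsmul_eq_mul]
  have h2 : |bt s t d v + bt s t d w| ≤ 2 * (ε * d) :=
    (abs_add_le _ _).trans (by linarith [bt_le hN v, bt_le hN w])
  have h3 : (0 : ℚ) < (k : ℚ) - 2 := by linarith
  have h4 : (0 : ℚ) < ((k : ℚ) - 1) * ((k : ℚ) - 2) := mul_pos (by linarith) h3
  unfold tt
  refine (abs_sub _ _).trans ?_
  rw [abs_div, abs_div, abs_of_pos h3, abs_of_pos h4]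
  have h5 : |bt s t d v + bt s t d w| / ((k : ℚ) - 2) ≤ 2 * (ε * d) / ((k : ℚ) - 2) :=
    div_le_div_of_nonneg_right h2 h3.le
  have h6 : |∑ u, bt s t d u| / (((k : ℚ) - 1) * ((k : ℚ) - 2)) ≤
      k * (ε * d) / (((k : ℚ) - 1) * ((k : ℚ) - 2)) := div_le_div_of_nonneg_right h1 h4.le
  have h7 : 2 * (ε * d) / ((k : ℚ) - 2) + k * (ε * d) / (((k : ℚ) - 1) * ((k : ℚ) - 2)) ≤
      ε * d := by
    have h8 : 2 * (ε * d) / ((k : ℚ) - 2) + k * (ε * d) / (((k : ℚ) - 1) * ((k : ℚ) - 2)) =
        (ε * d) * (3 * k - 2) / (((k : ℚ) - 1) * ((k : ℚ) - 2)) := by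
      have : (k : ℚ) - 1 ≠ 0 := by linarith
      field_simp
      ring
    rw [h8, div_le_iff₀ h4]
    have h9 : (0 : ℚ) ≤ ε * d := by positivity
    have h10 : 3 * (k : ℚ) - 2 ≤ ((k : ℚ) - 1) * ((k : ℚ) - 2) := by nlinarith
    exact mul_le_mul_of_nonneg_left h10 h9
  linarith

theorem sum_tt (hN : Near s t k d δ ε) (v : V) :
    ∑ w ∈ univ.erase v, tt s t k d v w = bt s t d v := by
  have hk := hN.kk
  have h1 : ∑ w ∈ univ.erase v, bt s t d w = ∑ u, bt s t d u - bt s t d v := by
    rw [← Finset.add_sum_erase univ _ (Finset.mem_univ v)]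
    ring
  have h2 : ((univ.erase v).card : ℚ) = k - 1 := by
    rw [Finset.card_erase_of_mem (Finset.mem_univ v), Finset.card_univ, hN.card, Nat.cast_sub]
    · simp
    · have := hN.six
      omega
  unfold tt
  rw [Finset.sum_sub_distrib, ← Finset.sum_div, Finset.sum_add_distrib, Finset.sum_const,
    Finset.sum_const, nsmul_eq_mul, nsmul_eq_mul, h1, h2]
  have : (k : ℚ) - 1 ≠ 0 := by linarith
  have : (k : ℚ) - 2 ≠ 0 := by linarith
  field_simp
  ring

theorem XX_mul (hN : Near s t k d δ ε) (hδ : 0 < δ) {v w : V} (hvw : v ≠ w) :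
    ((bd s t v w).card : ℚ) * (d * XX s t k d v w) = (bd s t v w).card + tt s t k d v w := by
  have hm := hN.mpos hδ hvw
  have hd := hN.dpos
  unfold XX
  field_simp

theorem XX_close (hN : Near s t k d δ ε) (hδ : 0 < δ) (hε0 : 0 < ε) {v w : V} (hvw : v ≠ w) :
    |d * XX s t k d v w - 1| ≤ ε / δ := by
  have hm := hN.mpos hδ hvw
  have hd := hN.dpos
  have h1 : d * XX s t k d v w - 1 = tt s t k d v w / (bd s t v w).card := by
    unfold XX
    field_simp
    ring
  rw [h1, abs_div, abs_of_pos hm, div_le_div_iff₀ hm hδ]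
  have h2 := tt_le hN hε0 v w
  have h3 := hN.lo v w hvw
  calc |tt s t k d v w| * δ ≤ ε * d * δ := mul_le_mul_of_nonneg_right h2 hδ.le
    _ = ε * (δ * d) := by ring
    _ ≤ ε * (bd s t v w).card := mul_le_mul_of_nonneg_left h3 hε0.le

theorem sum_XX_star (hl : ∀ e, s e ≠ t e) (hN : Near s t k d δ ε) (hδ : 0 < δ) (v : V) :
    ∑ e ∈ cut s t {v}, XX s t k d (s e) (t e) = 1 := by
  have hd := hN.dpos
  rw [sum_cut hl]
  have h1 : ∀ w ∈ univ.erase v, ∑ e ∈ bd s t v w, XX s t k d (s e) (t e) =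
      (((bd s t v w).card : ℚ) + tt s t k d v w) / d := by
    intro w hw
    have hvw : v ≠ w := (Finset.ne_of_mem_erase hw).symm
    rw [sum_bd hl XX_comm hvw, ← XX_mul hN hδ hvw]
    field_simp
  rw [Finset.sum_congr rfl h1, ← Finset.sum_div, Finset.sum_add_distrib, sum_tt hN,
    ← Nat.cast_sum, ← card_cut hl]
  unfold bt
  field_simp
  ring

theorem cut_compl2 (S : Finset V) : cut s t Sᶜ = cut s t S := by
  ext e
  simp only [mem_cut, Finset.mem_compl]
  tauto

theorem weights (hl : ∀ e, s e ≠ t e) {k : ℕ} {d δ ε : ℚ} (hN : Near s t k d δ ε)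
    (hev : Even k) (hδ : 0 < δ) (hε0 : 0 < ε) (hε : ε ≤ δ ^ 2 / 4) :
    ∃ x y : E → ℚ, InQ s t (nu s t k) ∧ InQ s t y ∧
      (∀ e, x e = δ / (2 * k) * nu s t k e + (1 - δ / (2 * k)) * y e) ∧
      (∀ v, ∑ e ∈ cut s t {v}, x e = 1) ∧
      (∀ e, |d * x e - 1| ≤ ε / δ) ∧
      ∀ v w, v ≠ w → |∑ e ∈ bd s t v w, d * x e - (bd s t v w).card| ≤ ε * d := by
  classical
  have hk := hN.kk
  have hd := hN.dpos
  -- bounds for the parameters
  have hcard : 1 < Fintype.card V := by
    rw [hN.card]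
    have := hN.six
    omega
  obtain ⟨a, b, hab⟩ := Fintype.exists_pair_of_one_lt_card hcard
  have hδ4 : δ ≤ 1 / 4 := by
    have h1 := (hN.lo a b hab).trans (hN.hi a b hab)
    have h2 := le_of_mul_le_mul_right h1 hd
    linarith
  have hεδ : ε / δ ≤ δ / 4 := by
    rw [div_le_iff₀ hδ]
    nlinarith
  set θ : ℚ := δ / (2 * k) with hθ
  have hθ0 : 0 < θ := by positivity
  have hθk : θ * k = δ / 2 := by
    rw [hθ]
    field_simp
  have hθ1 : θ ≤ 1 / 2 := by
    have : θ * 6 ≤ θ * k := mul_le_mul_of_nonneg_left hk hθ0.le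
    linarith
  have hθ1' : (1 : ℚ) - θ ≠ 0 := by linarith
  have hθ1'' : (0 : ℚ) < 1 - θ := by linarith
  refine ⟨fun e => XX s t k d (s e) (t e),
    fun e => (XX s t k d (s e) (t e) - θ * nu s t k e) / (1 - θ), inQ_nu hl hN hev hδ, ?_, ?_,
    sum_XX_star hl hN hδ, fun e => XX_close hN hδ hε0 (hl e), ?_⟩
  · have hsum : ∀ S : Finset V, ∑ e ∈ cut s t S, (XX s t k d (s e) (t e) - θ * nu s t k e) /
        (1 - θ) = (∑ e ∈ cut s t S, XX s t k d (s e) (t e) -
          θ * (S.card * (k - S.card) / (k - 1))) / (1 - θ) := by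
      intro S
      rw [← Finset.sum_div, Finset.sum_sub_distrib, ← Finset.mul_sum, nu_cut hl hN hδ]
    have hstar : ∀ v : V, ∑ e ∈ cut s t {v}, (XX s t k d (s e) (t e) - θ * nu s t k e) /
        (1 - θ) = 1 := by
      intro v
      rw [hsum, sum_XX_star hl hN hδ, Finset.card_singleton]
      have : (k : ℚ) - 1 ≠ 0 := by linarith
      push_cast
      field_simp
    have hlow : ∀ e, (1 - δ / 4) / d ≤ XX s t k d (s e) (t e) := by
      intro e
      have h1 := (abs_le.1 (XX_close hN hδ hε0 (hl e))).1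
      rw [div_le_iff₀ hd]
      linarith
    refine ⟨fun e => ?_, fun e he => absurd he (hl e), hstar, fun S hS => ?_⟩
    · refine div_nonneg ?_ hθ1''.le
      have h1 := hlow e
      have hm := hN.mpos hδ (hl e)
      have hlo := hN.lo _ _ (hl e)
      have h2 : nu s t k e ≤ 1 / (((k : ℚ) - 1) * (δ * d)) := by
        unfold nu
        have : (0 : ℚ) < (k : ℚ) - 1 := by linarith
        have h3 : (0 : ℚ) < ((k : ℚ) - 1) * (δ * d) := by positivity
        exact one_div_le_one_div_of_le h3 (mul_le_mul_of_nonneg_left hlo this.le)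
      have h4 : θ * nu s t k e ≤ θ * (1 / (((k : ℚ) - 1) * (δ * d))) :=
        mul_le_mul_of_nonneg_left h2 hθ0.le
      have h5 : θ * (1 / (((k : ℚ) - 1) * (δ * d))) = 1 / (2 * k * (k - 1)) / d := by
        have : (k : ℚ) - 1 ≠ 0 := by linarith
        rw [hθ]
        field_simp
      have h6 : (1 : ℚ) / (2 * k * (k - 1)) ≤ 1 - δ / 4 := by
        have h7 : (1 : ℚ) ≤ 2 * k * (k - 1) := by nlinarith
        have h8 : (1 : ℚ) / (2 * k * (k - 1)) ≤ 1 / 2 := by
          rw [div_le_div_iff₀ (by linarith) (by norm_num)]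
          nlinarith
        linarith
      have h9 : (1 : ℚ) / (2 * k * (k - 1)) / d ≤ (1 - δ / 4) / d :=
        div_le_div_of_nonneg_right h6 hd.le
      linarith
    · have hle : S.card ≤ k := by rw [← hN.card]; exact Finset.card_le_univ S
      have hpos := hS.pos
      have hne : S.card ≠ k := fun h => (Nat.not_even_iff_odd.2 hS) (h ▸ hev)
      rcases Nat.lt_or_ge S.card 3 with h3 | h3
      · have h1 : S.card = 1 := by
          obtain ⟨j, hj⟩ := hS
          omega
        obtain ⟨v, rfl⟩ := Finset.card_eq_one.1 h1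
        exact (hstar v).ge
      · rcases Nat.lt_or_ge k (S.card + 3) with h4 | h4
        · have h1 : (Sᶜ).card = 1 := by
            rw [Finset.card_compl, hN.card]
            obtain ⟨j, hj⟩ := hS
            obtain ⟨i, hi⟩ := hev
            omega
          obtain ⟨v, hv⟩ := Finset.card_eq_one.1 h1
          rw [← cut_compl2, hv]
          exact (hstar v).ge
        · rw [hsum, le_div_iff₀ hθ1'']
          have h5 := hN.odd S hS h3 h4
          have h6 : (1 - δ / 4) / d * (cut s t S).card ≤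
              ∑ e ∈ cut s t S, XX s t k d (s e) (t e) := by
            rw [mul_comm, ← nsmul_eq_mul, ← Finset.sum_const]
            exact Finset.sum_le_sum fun e _ => hlow e
          have h7 : (1 - δ / 4) / d * ((1 + δ) * d) ≤ (1 - δ / 4) / d * (cut s t S).card :=
            mul_le_mul_of_nonneg_left h5 (div_nonneg (by linarith) hd.le)
          have h8 : (1 - δ / 4) / d * ((1 + δ) * d) = (1 - δ / 4) * (1 + δ) := by
            field_simp
          have h9 : (S.card : ℚ) * (k - S.card) / (k - 1) ≤ k := by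
            have h10 : (S.card : ℚ) ≤ k := by exact_mod_cast hle
            have h11 : (3 : ℚ) ≤ S.card := by exact_mod_cast h3
            rw [div_le_iff₀ (by linarith)]
            nlinarith
          have h12 : θ * (S.card * (k - S.card) / (k - 1)) ≤ δ / 2 := by
            rw [← hθk]
            exact mul_le_mul_of_nonneg_left h9 hθ0.le
          nlinarith
  · intro e
    field_simp
    ring
  · intro v w hvw
    rw [← Finset.mul_sum, sum_bd hl XX_comm hvw]
    have h1 := XX_mul hN hδ hvw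
    have h2 : d * (((bd s t v w).card : ℚ) * XX s t k d v w) - (bd s t v w).card =
        tt s t k d v w := by linarith
    rw [h2]
    exact tt_le hN hε0 v w

end

end Pool.Agent.Lib.MP_95bb8c_al.NR
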