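import Pool.Agent.Lib.MP_95bb8c_al.NR.Ineq
import Pool.Agent.Lib.MP_95bb8c_al.NR.Stab
import Pool.Agent.Lib.MP_95bb8c_al.NR.Good
import Pool.Agent.Lib.MP_95bb8c_al.NR.Phi
import Pool.Agent.Lib.MP_95bb8c_al.NR.Weights
import Pool.Agent.Lib.MP_95bb8c_al.NR.Local

set_option autoImplicit false
set_option linter.unusedSectionVars false

/-!
# In nearly regular graphs all triangles have cost `0`
-/

namespace Pool.Agent.Lib.MP_95bb8c_al.NR

open Finset

variable {V E : Type} [Fintype V] [DecidableEq V] [Fintype E] [DecidableEq E]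
variable {s t : E → V} {bar : V → V} {sig : V → E → E} {c : V → E → E → ℚ}

theorem even_k (h : Con s t bar sig) : Even (Fintype.card V) := by
  have := even_card_of_closed bar h.bar_bar h.bar_ne univ (fun v _ => Finset.mem_univ _)
  rwa [Finset.card_univ] at this

theorem Near.ne {k : ℕ} {d δ ε : ℚ} (hN : Near s t k d δ ε) (hδ : 0 < δ) (v w : V)
    (hvw : v ≠ w) : (bd s t v w).Nonempty := by
  rw [← Finset.card_pos]
  have h1 := hN.lo v w hvw
  have h2 := mul_pos hδ hN.dpos
  have h3 : (0 : ℚ) < (bd s t v w).card := lt_of_lt_of_le h2 h1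
  exact_mod_cast h3

/-- The weights are nearly constant. -/
theorem g_le {d e1 : ℚ} (hd : 0 < d) (h1 : e1 ≤ 1) (x : E → ℚ)
    (hx2 : ∀ e, |d * x e - 1| ≤ e1) (e f : E) :
    |x e * x f - 1 / d ^ 2| ≤ 3 * e1 / d ^ 2 := by
  have ha := hx2 e
  have hb := hx2 f
  have h2 : x e * x f - 1 / d ^ 2 =
      ((d * x e - 1) * (d * x f - 1) + (d * x e - 1) + (d * x f - 1)) / d ^ 2 := by
    field_simp
    ring
  rw [h2, abs_div, abs_of_pos (pow_pos hd 2)]
  apply div_le_div_of_nonneg_right _ (pow_pos hd 2).le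
  have h3 : |(d * x e - 1) * (d * x f - 1)| ≤ e1 := by
    rw [abs_mul]
    calc |d * x e - 1| * |d * x f - 1| ≤ e1 * 1 :=
          mul_le_mul ha (hb.trans h1) (abs_nonneg _) ((abs_nonneg _).trans ha)
      _ = e1 := mul_one _
  have h4 := abs_add_le ((d * x e - 1) * (d * x f - 1) + (d * x e - 1)) (d * x f - 1)
  have h5 := abs_add_le ((d * x e - 1) * (d * x f - 1)) (d * x e - 1)
  linarith

/-- The main inequality. -/
theorem main_le (h : Con s t bar sig) (hc : Cst s t bar sig c) (hloc : Loc s t c) {k : ℕ}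
    {d δ ε : ℚ} (hN : Near s t k d δ ε) (hδ : 0 < δ) (hδ1 : δ ≤ 1 / 4) (hε0 : 0 < ε)
    (hε : ε ≤ δ ^ 2 / 4) (x : E → ℚ) (hx1 : ∀ v, ∑ e ∈ cut s t {v}, x e = 1)
    (hx2 : ∀ e, |d * x e - 1| ≤ ε / δ)
    (hx3 : ∀ v w, v ≠ w → |∑ e ∈ bd s t v w, d * x e - (bd s t v w).card| ≤ ε * d) :
    phi s t c x x ≤ 3 * (ε / δ) * (DG s t c / 2) +
      12 * KA k * k * (18 / δ + 16 * (8 * ((k : ℚ) ^ 2 / (δ / 2)) ^ 2)) * ε * TB s t c := by
  have hl := h.hl
  have hd := hN.dpos
  have hne := hN.ne hδ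
  set T := TB s t c with hT
  have hT0 : 0 ≤ T := tb_nonneg hloc hne
  have hk6 : (6 : ℚ) ≤ k := by exact_mod_cast hN.six
  have hKA : 0 ≤ KA k := by
    unfold KA
    positivity
  obtain ⟨p, hp1, hp2⟩ := stability hl hloc hN.card (le_trans (by norm_num) hN.six) hne (12 * T)
    (by
      intro v w y h1 h2 h3
      rw [sum_tri hne h1 h2 h3]
      apply mul_le_mul_of_nonneg_right _ (by positivity)
      have := tb_tri hloc hne h1 h2 h3
      linarith)
    (by
      intro v w z y h1 h2 h3 h4 h5 h6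
      rw [sum_four hne h1 h2 h3 h4]
      apply mul_le_mul_of_nonneg_right _ (by positivity)
      exact tb_four hloc hne h1 h2 h3 h4 h5 h6)
  set K := KA k * (12 * T) with hK
  have hK0 : 0 ≤ K := by positivity
  set e1 := ε / δ with he1
  have he10 : 0 < e1 := div_pos hε0 hδ
  have he11 : e1 ≤ δ / 4 := by
    rw [he1, div_le_iff₀ hδ]
    linarith [hε]
  have hεe : ε = e1 * δ := by
    rw [he1]
    field_simp
  have hεe1 : ε ≤ e1 := by
    rw [hεe]
    nlinarith
  have hε1 : ε ≤ 1 / 16 := by nlinarith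
  set N : V → ℚ := fun v => ((cut s t {v}).card : ℚ) with hNdef
  have hNb : ∀ v, |N v - d| ≤ ε * d := hN.deg
  have hN2 : ∀ v, N v ≤ 2 * d := by
    intro v
    have := (abs_le.1 (hNb v)).2
    nlinarith
  have hN0 : ∀ v, 0 ≤ N v := fun v => Nat.cast_nonneg _
  have hN1 : ∀ v, (1 - ε) * d ≤ N v := by
    intro v
    have := (abs_le.1 (hNb v)).1
    linarith
  have hcardV : ((univ : Finset V).card : ℚ) = k := by
    rw [Finset.card_univ, hN.card]
  -- the differences of the weights
  set g : E → E → ℚ := fun e f => x e * x f - 1 / d ^ 2 with hg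
  have hgb : ∀ e f, |g e f| ≤ 3 * e1 / d ^ 2 := g_le hd (by linarith) x hx2
  -- the total cost is zero
  have h0 := sum_anti h hc
  rw [split_pairs hl] at h0
  have hphi : phi s t c x x = nonP s t (fun v e f => g e f * c v e f) +
      parP s t (fun v e f => g e f * c v e f) := by
    have h1 : phi s t c x x = nonP s t (fun v e f => x e * x f * c v e f) +
        parP s t (fun v e f => x e * x f * c v e f) := split_pairs hl _
    have h2 : nonP s t (fun v e f => x e * x f * c v e f) =
        nonP s t (fun v e f => g e f * c v e f) + 1 / d ^ 2 * nonP s t c := by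
      rw [← nonP_smul, ← nonP_add]
      congr 1
      funext v e f
      simp only [hg]
      ring
    have h3 : parP s t (fun v e f => x e * x f * c v e f) =
        parP s t (fun v e f => g e f * c v e f) + 1 / d ^ 2 * parP s t c := by
      unfold parP
      simp_rw [Finset.mul_sum, ← Finset.sum_add_distrib]
      refine Finset.sum_congr rfl fun v _ => Finset.sum_congr rfl fun w _ =>
        Finset.sum_congr rfl fun e _ => Finset.sum_congr rfl fun f _ => ?_
      simp only [hg]
      ring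
    rw [h1, h2, h3]
    linear_combination (1 / d ^ 2) * h0
  -- parallel pairs
  have hpar : parP s t (fun v e f => g e f * c v e f) ≤ 3 * e1 * (DG s t c / 2) := by
    apply par_le hloc g (3 * e1) d (by positivity) (fun e f => (le_abs_self _).trans (hgb e f)) hne
    intro v w hvw
    have h1 := hN.hi v w hvw
    have : (1 / 2 - δ) * d ≤ d := by nlinarith
    linarith
  -- pairs in different bundles
  have hsplit : nonP s t (fun v e f => g e f * c v e f) =
      nonP s t (fun v e f => g e f * (c v e f - p v e - p v f)) +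
        nonP s t (fun v e f => g e f * (p v e + p v f)) := by
    rw [← nonP_add]
    congr 1
    funext v e f
    ring
  have hrest : nonP s t (fun v e f => g e f * (c v e f - p v e - p v f)) ≤
      12 * e1 * k * K := by
    have h1 := rest_le hl g (3 * e1 / d ^ 2) K (by positivity) hgb p hp1 hK0
    have h2 : ∑ v, (N v) ^ 2 ≤ k * (2 * d) ^ 2 := by
      calc ∑ v, (N v) ^ 2 ≤ ∑ _v : V, (2 * d) ^ 2 :=
            Finset.sum_le_sum fun v _ => pow_le_pow_left₀ (hN0 v) (hN2 v) 2
        _ = k * (2 * d) ^ 2 := by rw [Finset.sum_const, nsmul_eq_mul, hcardV]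
    have h3 : 3 * e1 / d ^ 2 * K * ∑ v, (N v) ^ 2 ≤ 3 * e1 / d ^ 2 * K * (k * (2 * d) ^ 2) :=
      mul_le_mul_of_nonneg_left h2 (by positivity)
    refine h1.trans (h3.trans (le_of_eq ?_))
    field_simp
    ring
  -- the potentials
  have hpot := pot_eq hl x (1 / d ^ 2) p hx1
  set X : V → V → ℚ := fun v w => ∑ f ∈ bd s t v w, x f with hX
  set gs : V → V → E → ℚ := fun v w e => x e * (1 - X v w) -
    1 / d ^ 2 * (d - (bd s t v w).card) with hgs
  have hXs : ∀ v w, X v w = X w v := by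
    intro v w
    simp only [hX]
    rw [bd_comm]
  have hsymm : ∀ v w e, gs v w e = gs w v e := by
    intro v w e
    simp only [hgs]
    rw [hXs v w, bd_comm v w]
  have hgsb : ∀ v w, v ≠ w → ∀ e ∈ bd s t v w, |gs v w e| ≤ 3 * e1 / d := by
    intro v w hvw e _
    have h1 := hx2 e
    have h2 := hx3 v w hvw
    rw [← Finset.mul_sum] at h2
    have h3 : d * gs v w e = (d * x e - 1) * (1 - X v w) - (d * X v w - (bd s t v w).card) / d := by
      simp only [hgs]
      field_simp
      ring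
    have h4 : |1 - X v w| ≤ 2 := by
      have h5 := hN.hi v w hvw
      have h6 : (0 : ℚ) ≤ (bd s t v w).card := Nat.cast_nonneg _
      obtain ⟨h7, h8⟩ := abs_le.1 h2
      have h9 : d * X v w ≤ d * 1 := by nlinarith
      have h10 : d * (-1) ≤ d * X v w := by nlinarith
      have h11 := le_of_mul_le_mul_left h9 hd
      have h12 := le_of_mul_le_mul_left h10 hd
      rw [abs_le]
      constructor <;> linarith
    have h13 : |(d * X v w - (bd s t v w).card) / d| ≤ ε := by
      rw [abs_div, abs_of_pos hd, div_le_iff₀ hd]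
      exact h2
    have h14 : |(d * x e - 1) * (1 - X v w)| ≤ e1 * 2 := by
      rw [abs_mul]
      exact mul_le_mul h1 h4 (abs_nonneg _) he10.le
    have h15 : |d * gs v w e| ≤ 3 * e1 := by
      rw [h3]
      have := abs_sub ((d * x e - 1) * (1 - X v w)) ((d * X v w - (bd s t v w).card) / d)
      linarith
    rw [abs_mul, abs_of_pos hd] at h15
    rw [le_div_iff₀ hd]
    linarith
  have hpot2 : 2 * ∑ v, ∑ w ∈ univ.erase v, ∑ e ∈ bd s t v w, p v e *
        (x e * (1 - ∑ f ∈ bd s t v w, x f) - 1 / d ^ 2 *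
          (((cut s t {v}).card : ℚ) - (bd s t v w).card)) =
      2 * (∑ v, ∑ w ∈ univ.erase v, ∑ e ∈ bd s t v w, p v e * gs v w e) -
        1 / d ^ 2 * (2 * ∑ v, (N v - d) * ∑ e ∈ cut s t {v}, p v e) := by
    have h1 : ∀ v, (N v - d) * ∑ e ∈ cut s t {v}, p v e =
        ∑ w ∈ univ.erase v, ∑ e ∈ bd s t v w, (N v - d) * p v e := by
      intro v
      rw [sum_cut hl, Finset.mul_sum]
      exact Finset.sum_congr rfl fun w _ => Finset.mul_sum _ _ _
    have h2 : ∑ v, ∑ w ∈ univ.erase v, ∑ e ∈ bd s t v w, p v e *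
        (x e * (1 - ∑ f ∈ bd s t v w, x f) - 1 / d ^ 2 *
          (((cut s t {v}).card : ℚ) - (bd s t v w).card)) =
        (∑ v, ∑ w ∈ univ.erase v, ∑ e ∈ bd s t v w, p v e * gs v w e) -
          1 / d ^ 2 * ∑ v, (N v - d) * ∑ e ∈ cut s t {v}, p v e := by
      simp_rw [h1, Finset.mul_sum, ← Finset.sum_sub_distrib]
      refine Finset.sum_congr rfl fun v _ => Finset.sum_congr rfl fun w _ =>
        Finset.sum_congr rfl fun e _ => ?_
      simp only [hgs, hX, hNdef]
      ring
    rw [h2]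
    ring
  have hsum : ∑ v, ∑ w ∈ univ.erase v, ((bd s t v w).card : ℚ) ≤ k * (2 * d) := by
    calc ∑ v, ∑ w ∈ univ.erase v, ((bd s t v w).card : ℚ) = ∑ v, N v := by
          refine Finset.sum_congr rfl fun v _ => ?_
          simp only [hNdef]
          rw [card_cut hl]
          push_cast
          rfl
      _ ≤ ∑ _v : V, (2 * d) := Finset.sum_le_sum fun v _ => hN2 v
      _ = k * (2 * d) := by rw [Finset.sum_const, nsmul_eq_mul, hcardV]
  have hsym2 : 2 * ∑ v, ∑ w ∈ univ.erase v, ∑ e ∈ bd s t v w, p v e * gs v w e ≤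
      6 * e1 * k * K := by
    have h1 := sym_le gs hsymm (3 * e1 / d) K p hgsb (by positivity) hp2
    have h2 : 3 * e1 / d * K * ∑ v, ∑ w ∈ univ.erase v, ((bd s t v w).card : ℚ) ≤
        3 * e1 / d * K * (k * (2 * d)) := mul_le_mul_of_nonneg_left hsum (by positivity)
    refine h1.trans (h2.trans (le_of_eq ?_))
    field_simp
    ring
  set C1 : ℚ := 8 * ((k : ℚ) ^ 2 / (δ / 2)) ^ 2 with hC1
  have hC10 : 0 ≤ C1 := by positivity
  have hgood : ∀ v, |∑ e ∈ cut s t {v}, (p v e + p (bar v) (sig v e))| ≤ C1 * K * (2 * d) := by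
    intro v
    have h1 := good h hc p K (δ / 2) hK0 (by positivity) k hN.card v (by
      intro u hu w hw
      have h2 := hN.hi u w (fun h => hw h.symm)
      refine h2.trans ?_
      have h3 := hN1 v
      have h4 : (1 / 2 - δ) * d ≤ (1 / 2 - δ / 2) * ((1 - ε) * d) := by nlinarith
      refine h4.trans (mul_le_mul_of_nonneg_left h3 (by linarith))) hp1
    refine h1.trans ?_
    rw [← hC1]
    exact mul_le_mul_of_nonneg_left (hN2 v) (by positivity)
  have hrem : -(1 / d ^ 2 * (2 * ∑ v, (N v - d) * ∑ e ∈ cut s t {v}, p v e)) ≤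
      2 * ε * C1 * k * K := by
    rw [rem_eq h d p]
    have h1 : |∑ v, (N v - d) * ∑ e ∈ cut s t {v}, (p v e + p (bar v) (sig v e))| ≤
        k * (ε * d * (C1 * K * (2 * d))) := by
      calc |∑ v, (N v - d) * ∑ e ∈ cut s t {v}, (p v e + p (bar v) (sig v e))|
          ≤ ∑ v, |(N v - d) * ∑ e ∈ cut s t {v}, (p v e + p (bar v) (sig v e))| :=
            Finset.abs_sum_le_sum_abs _ _
        _ ≤ ∑ _v : V, ε * d * (C1 * K * (2 * d)) := by
            refine Finset.sum_le_sum fun v _ => ?_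
            rw [abs_mul]
            exact mul_le_mul (hNb v) (hgood v) (abs_nonneg _) (by positivity)
        _ = k * (ε * d * (C1 * K * (2 * d))) := by
            rw [Finset.sum_const, nsmul_eq_mul, hcardV]
    have h2 := (abs_le.1 h1).1
    have h3 : -(1 / d ^ 2 * ∑ v, (N v - d) * ∑ e ∈ cut s t {v}, (p v e + p (bar v) (sig v e))) ≤
        1 / d ^ 2 * (k * (ε * d * (C1 * K * (2 * d)))) := by
      rw [← mul_neg]
      apply mul_le_mul_of_nonneg_left _ (by positivity)
      linarith
    refine h3.trans (le_of_eq ?_)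
    field_simp
  have hfin : nonP s t (fun v e f => g e f * (p v e + p v f)) ≤
      6 * e1 * k * K + 2 * ε * C1 * k * K := by
    have h1 : nonP s t (fun v e f => g e f * (p v e + p v f)) = _ := hpot
    rw [h1, hpot2]
    linarith
  have htot : phi s t c x x ≤ 3 * e1 * (DG s t c / 2) + (12 * e1 * k * K +
      (6 * e1 * k * K + 2 * ε * C1 * k * K)) := by
    rw [hphi, hsplit]
    linarith
  refine htot.trans ?_
  have hlast : 12 * e1 * k * K + (6 * e1 * k * K + 2 * ε * C1 * k * K) ≤
      12 * KA k * k * (18 / δ + 16 * C1) * ε * T := by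
    have h1 : 12 * KA k * k * (18 / δ + 16 * C1) * ε * T = 18 * e1 * k * K +
        16 * ε * C1 * k * K := by
      rw [hK, he1]
      field_simp
    rw [h1]
    have h2 : 0 ≤ ε * C1 * k * K := by positivity
    linarith
  linarith

/-- In nearly regular graphs all triangles have cost `0`. -/
theorem near_zero (k : ℕ) (δ : ℚ) (hδ : 0 < δ) : ∃ ε : ℚ, 0 < ε ∧
    ∀ (V E : Type) [Fintype V] [DecidableEq V] [Fintype E] [DecidableEq E] (s t : E → V)
      (bar : V → V) (sig : V → E → E) (c : V → E → E → ℚ) (d : ℚ),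
      Con s t bar sig → Near s t k d δ ε → Cst s t bar sig c → Nng s t c →
      ∀ v w y, v ≠ w → w ≠ y → y ≠ v → ∀ e ∈ bd s t v w, ∀ f ∈ bd s t w y,
        ∀ g ∈ bd s t y v, c v g e + c w e f + c y f g = 0 := by
  by_cases hk : 6 ≤ k
  swap
  · exact ⟨1, one_pos, fun V E _ _ _ _ s t bar sig c d _ hN => absurd hN.six hk⟩
  have hk6 : (6 : ℚ) ≤ k := by exact_mod_cast hk
  set c0 : ℚ := (δ / (2 * k)) ^ 2 * (1 / ((k : ℚ) - 1)) ^ 2 with hc0
  have hk1 : (0 : ℚ) < (k : ℚ) - 1 := by linarith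
  have hc0p : 0 < c0 := by positivity
  set M : ℚ := 12 * KA k * k * (18 / δ + 16 * (8 * ((k : ℚ) ^ 2 / (δ / 2)) ^ 2)) with hM
  have hKA : 0 < KA k := by
    unfold KA
    positivity
  have hMp : 0 < M := by positivity
  refine ⟨min (δ ^ 2 / 4) (min (c0 * δ / 6) (c0 / (2 * M))), by positivity, ?_⟩
  set ε : ℚ := min (δ ^ 2 / 4) (min (c0 * δ / 6) (c0 / (2 * M))) with hε
  have hε0 : 0 < ε := by positivity
  have hε1 : ε ≤ δ ^ 2 / 4 := min_le_left _ _
  have hε2 : ε ≤ c0 * δ / 6 := (min_le_right _ _).trans (min_le_left _ _)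
  have hε3 : ε ≤ c0 / (2 * M) := (min_le_right _ _).trans (min_le_right _ _)
  intro V E _ _ _ _ s t bar sig c d h hN hc hnng
  have hl := h.hl
  have hloc := loc_of_nng hl hc.symm hnng
  have hne := hN.ne hδ
  have hd := hN.dpos
  -- `δ ≤ 1/4`
  have hδ1 : δ ≤ 1 / 4 := by
    have h2 : ∃ v w : V, v ≠ w := by
      have : 1 < Fintype.card V := by
        rw [hN.card]
        omega
      exact Fintype.exists_pair_of_one_lt_card this
    obtain ⟨v, w, hvw⟩ := h2
    have h3 := (hN.lo v w hvw).trans (hN.hi v w hvw)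
    have h4 := le_of_mul_le_mul_right h3 hd
    linarith
  have hev : Even k := by
    rw [← hN.card]
    exact even_k h
  obtain ⟨x, y, hnu, hy, hxy, hx1, hx2, hx3⟩ := weights hl hN hev hδ hε0 hε1
  have h1 := main_le h hc hloc hN hδ hδ1 hε0 hε1 x hx1 hx2 hx3
  have hθ0 : 0 ≤ δ / (2 * k) := by positivity
  have hθ1 : δ / (2 * k) ≤ 1 := by
    rw [div_le_one (by positivity)]
    linarith
  have h2 := phi_mix hl hc.symm hnng hnu hy (δ / (2 * k)) hθ0 hθ1 hxy
  have h3 : phi s t c (nu s t k) (nu s t k) =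
      (1 / ((k : ℚ) - 1)) ^ 2 * (TB s t c + DG s t c / 2) := by
    apply phi_nu hl hne
    intro v w hvw e he
    have h4 : bd s t (s e) (t e) = bd s t v w := by
      have h5 := (mem_bd hl hvw).1 he
      have h6 := h5.1
      rw [mem_star hl] at h6
      have h7 := h5.2
      unfold oth at h7
      by_cases h8 : s e = v
      · rw [if_pos h8] at h7
        rw [h8, h7]
      · rw [if_neg h8] at h7
        rw [h7, h6.resolve_left h8, bd_comm]
    unfold nu
    rw [h4]
    have h5 : ((bd s t v w).card : ℚ) ≠ 0 := by exact_mod_cast (hne v w hvw).card_pos.ne'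
    field_simp
  have hT0 := tb_nonneg hloc hne
  have hD0 := dg_nonneg hloc
  have h4 : c0 * (TB s t c + DG s t c / 2) ≤ 3 * (ε / δ) * (DG s t c / 2) +
      M * ε * TB s t c := by
    have h5 : c0 * (TB s t c + DG s t c / 2) =
        (δ / (2 * k)) ^ 2 * phi s t c (nu s t k) (nu s t k) := by
      rw [h3, hc0]
      ring
    rw [h5]
    exact h2.trans h1
  have h5 : 3 * (ε / δ) ≤ c0 / 2 := by
    rw [mul_div_assoc', div_le_iff₀ hδ]
    linarith
  have h6 : M * ε ≤ c0 / 2 := by
    calc M * ε ≤ M * (c0 / (2 * M)) := mul_le_mul_of_nonneg_left hε3 hMp.le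
      _ = c0 / 2 := by field_simp
  have hT : TB s t c = 0 := by
    have h7 : 3 * (ε / δ) * (DG s t c / 2) ≤ c0 / 2 * (DG s t c / 2) :=
      mul_le_mul_of_nonneg_right h5 (by linarith)
    have h8 : M * ε * TB s t c ≤ c0 / 2 * TB s t c := mul_le_mul_of_nonneg_right h6 hT0
    have h9 : 0 ≤ c0 * DG s t c := mul_nonneg hc0p.le hD0
    have h10 : c0 * TB s t c ≤ 0 := by linarith
    have h11 : TB s t c ≤ 0 := by
      by_contra h12
      push Not at h12
      have := mul_pos hc0p h12
      linarith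
    exact le_antisymm h11 hT0
  intro v w y h7 h8 h9 e he f hf g hg
  have h10 := tb_tri hloc hne h7 h8 h9
  rw [hT, mul_zero] at h10
  have h11 := sum_tri (c := c) hne h7 h8 h9
  have h12 := av_tri hloc hne h7 h8 h9
  have h13 : av s t c v y w + av s t c w v y + av s t c y w v = 0 := le_antisymm h10 h12
  rw [h13, zero_mul] at h11
  have h14 : ∀ e ∈ bd s t v w, ∀ f ∈ bd s t w y, ∀ g ∈ bd s t y v,
      0 ≤ c v g e + c w e f + c y f g := hloc.tri v w y h7 h8 h9
  have h15 := (Finset.sum_eq_zero_iff_of_nonneg (fun e he => Finset.sum_nonneg fun f hf =>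
    Finset.sum_nonneg fun g hg => h14 e he f hf g hg)).1 h11 e he
  have h16 := (Finset.sum_eq_zero_iff_of_nonneg (fun f hf =>
    Finset.sum_nonneg fun g hg => h14 e he f hf g hg)).1 h15 f hf
  exact (Finset.sum_eq_zero_iff_of_nonneg (fun g hg => h14 e he f hf g hg)).1 h16 g hg

end Pool.Agent.Lib.MP_95bb8c_al.NR
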