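import Pool.Agent.Lib.MP_95bb8c_al.NR.Tb

set_option autoImplicit false
set_option linter.unusedSectionVars false

/-!
# The parts of the final inequality
-/

namespace Pool.Agent.Lib.MP_95bb8c_al.NR

open Finset

variable {V E : Type} [Fintype V] [DecidableEq V] [Fintype E] [DecidableEq E]
variable {s t : E → V} {bar : V → V} {sig : V → E → E} {c : V → E → E → ℚ}

/-- The normalised total cost of the digons. -/
def DG (s t : E → V) (c : V → E → E → ℚ) : ℚ :=
  ∑ v, ∑ w ∈ univ.erase v, (∑ e ∈ bd s t v w, ∑ f ∈ (bd s t v w).erase e,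
    (c v e f + c w e f)) / ((bd s t v w).card : ℚ) ^ 2

theorem dig_nonneg (hc : Loc s t c) {v w : V} (hvw : v ≠ w) :
    0 ≤ ∑ e ∈ bd s t v w, ∑ f ∈ (bd s t v w).erase e, (c v e f + c w e f) :=
  Finset.sum_nonneg fun e he => Finset.sum_nonneg fun f hf => by
    have hf' := Finset.mem_erase.1 hf
    exact hc.dig v w hvw e he f hf'.2 hf'.1.symm

theorem dg_nonneg (hc : Loc s t c) : 0 ≤ DG s t c :=
  Finset.sum_nonneg fun v _ => Finset.sum_nonneg fun w hw =>
    div_nonneg (dig_nonneg hc (Finset.ne_of_mem_erase hw).symm) (by positivity)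

/-- The form of uniform weights. -/
theorem phi_nu (hl : ∀ e, s e ≠ t e)
    (hne : ∀ v w, v ≠ w → (bd s t v w).Nonempty) (nu : E → ℚ) (a : ℚ)
    (hnu : ∀ v w, v ≠ w → ∀ e ∈ bd s t v w, nu e = a * (1 / ((bd s t v w).card : ℚ))) :
    phi s t c nu nu = a ^ 2 * (TB s t c + DG s t c / 2) := by
  have h1 : phi s t c nu nu = nonP s t (fun v e f => nu e * nu f * c v e f) +
      parP s t (fun v e f => nu e * nu f * c v e f) := split_pairs hl _
  have h2 : nonP s t (fun v e f => nu e * nu f * c v e f) = a ^ 2 * TB s t c := by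
    unfold nonP TB
    rw [Finset.mul_sum]
    refine Finset.sum_congr rfl fun v _ => ?_
    rw [Finset.mul_sum]
    refine Finset.sum_congr rfl fun w hw => ?_
    rw [Finset.mul_sum]
    refine Finset.sum_congr rfl fun y hy => ?_
    have hvw : v ≠ w := (Finset.ne_of_mem_erase hw).symm
    have hvy : v ≠ y := (Finset.ne_of_mem_erase (Finset.mem_erase.1 hy).2).symm
    rw [av_eq, Finset.mul_sum]
    refine Finset.sum_congr rfl fun e he => ?_
    rw [Finset.mul_sum]
    refine Finset.sum_congr rfl fun f hf => ?_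
    show nu e * nu f * c v e f = _
    rw [hnu v w hvw e he, hnu v y hvy f hf]
    ring
  have h3 : 2 * parP s t (fun v e f => nu e * nu f * c v e f) = a ^ 2 * DG s t c := by
    rw [parP_ends (fun e f => nu e * nu f) c]
    unfold DG
    rw [Finset.mul_sum]
    refine Finset.sum_congr rfl fun v _ => ?_
    rw [Finset.mul_sum]
    refine Finset.sum_congr rfl fun w hw => ?_
    have hvw : v ≠ w := (Finset.ne_of_mem_erase hw).symm
    rw [div_eq_mul_inv, Finset.sum_mul, Finset.mul_sum]
    refine Finset.sum_congr rfl fun e he => ?_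
    rw [Finset.sum_mul, Finset.mul_sum]
    refine Finset.sum_congr rfl fun f hf => ?_
    rw [hnu v w hvw e he, hnu v w hvw f (Finset.mem_erase.1 hf).2]
    have h4 : ((bd s t v w).card : ℚ) ≠ 0 := by exact_mod_cast (hne v w hvw).card_pos.ne'
    field_simp
  rw [h1, h2]
  linarith

/-- The pairs in the same bundle. -/
theorem par_le (hc : Loc s t c) (g : E → E → ℚ) (b d : ℚ)
    (hb : 0 ≤ b) (hg : ∀ e f, g e f ≤ b / d ^ 2)
    (hne : ∀ v w, v ≠ w → (bd s t v w).Nonempty)
    (hm : ∀ v w, v ≠ w → ((bd s t v w).card : ℚ) ≤ d) :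
    parP s t (fun v e f => g e f * c v e f) ≤ b * (DG s t c / 2) := by
  have h1 := parP_ends (s := s) (t := t) g c
  have h2 : ∑ v, ∑ w ∈ univ.erase v, ∑ e ∈ bd s t v w, ∑ f ∈ (bd s t v w).erase e,
      g e f * (c v e f + c w e f) ≤ b * DG s t c := by
    unfold DG
    rw [Finset.mul_sum]
    refine Finset.sum_le_sum fun v _ => ?_
    rw [Finset.mul_sum]
    refine Finset.sum_le_sum fun w hw => ?_
    have hvw : v ≠ w := (Finset.ne_of_mem_erase hw).symm
    have h3 : ∑ e ∈ bd s t v w, ∑ f ∈ (bd s t v w).erase e, g e f * (c v e f + c w e f) ≤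
        b / d ^ 2 * ∑ e ∈ bd s t v w, ∑ f ∈ (bd s t v w).erase e, (c v e f + c w e f) := by
      rw [Finset.mul_sum]
      refine Finset.sum_le_sum fun e he => ?_
      rw [Finset.mul_sum]
      refine Finset.sum_le_sum fun f hf => ?_
      have hf' := Finset.mem_erase.1 hf
      exact mul_le_mul_of_nonneg_right (hg e f) (hc.dig v w hvw e he f hf'.2 hf'.1.symm)
    refine h3.trans ?_
    have h4 := dig_nonneg (c := c) hc hvw
    have h5 : (0 : ℚ) < (bd s t v w).card := by exact_mod_cast (hne v w hvw).card_pos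
    have h6 := hm v w hvw
    set Q := ∑ e ∈ bd s t v w, ∑ f ∈ (bd s t v w).erase e, (c v e f + c w e f) with hQ
    have h7 : Q / d ^ 2 ≤ Q / ((bd s t v w).card : ℚ) ^ 2 := by
      apply div_le_div_of_nonneg_left h4 (by positivity)
      exact pow_le_pow_left₀ h5.le h6 2
    calc b / d ^ 2 * Q = b * (Q / d ^ 2) := by ring
      _ ≤ b * (Q / ((bd s t v w).card : ℚ) ^ 2) := mul_le_mul_of_nonneg_left h7 hb
  rw [← h1] at h2
  linarith

/-- The remainders of the pairs in different bundles. -/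
theorem rest_le (hl : ∀ e, s e ≠ t e) (g : E → E → ℚ) (b K : ℚ) (hb : 0 ≤ b)
    (hg : ∀ e f, |g e f| ≤ b) (p : V → E → ℚ)
    (hp : ∀ v w y, v ≠ w → w ≠ y → y ≠ v → ∑ e ∈ bd s t v w, ∑ f ∈ bd s t v y,
        |c v e f - p v e - p v f| ≤ K * ((bd s t v w).card * (bd s t v y).card)) (hK : 0 ≤ K) :
    nonP s t (fun v e f => g e f * (c v e f - p v e - p v f)) ≤
      b * K * ∑ v, ((cut s t {v}).card : ℚ) ^ 2 := by
  unfold nonP
  rw [Finset.mul_sum]
  refine Finset.sum_le_sum fun v _ => ?_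
  have h1 : ((cut s t {v}).card : ℚ) = ∑ w ∈ univ.erase v, ((bd s t v w).card : ℚ) := by
    rw [card_cut hl]
    push_cast
    rfl
  have h2 : ∀ w ∈ univ.erase v, ∑ y ∈ (univ.erase v).erase w, ∑ e ∈ bd s t v w,
      ∑ f ∈ bd s t v y, g e f * (c v e f - p v e - p v f) ≤
      b * K * (((bd s t v w).card : ℚ) * (cut s t {v}).card) := by
    intro w hw
    have h3 : ∀ y ∈ (univ.erase v).erase w, ∑ e ∈ bd s t v w,
        ∑ f ∈ bd s t v y, g e f * (c v e f - p v e - p v f) ≤
        b * K * (((bd s t v w).card : ℚ) * (bd s t v y).card) := by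
      intro y hy
      have hy' := Finset.mem_erase.1 hy
      have h4 := hp v w y (Finset.ne_of_mem_erase hw).symm hy'.1.symm
        (Finset.ne_of_mem_erase hy'.2)
      calc ∑ e ∈ bd s t v w, ∑ f ∈ bd s t v y, g e f * (c v e f - p v e - p v f)
          ≤ ∑ e ∈ bd s t v w, ∑ f ∈ bd s t v y, b * |c v e f - p v e - p v f| := by
            refine Finset.sum_le_sum fun e _ => Finset.sum_le_sum fun f _ => ?_
            refine (le_abs_self _).trans ?_
            rw [abs_mul]
            exact mul_le_mul_of_nonneg_right (hg e f) (abs_nonneg _)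
        _ = b * ∑ e ∈ bd s t v w, ∑ f ∈ bd s t v y, |c v e f - p v e - p v f| := by
            simp_rw [Finset.mul_sum]
        _ ≤ b * (K * ((bd s t v w).card * (bd s t v y).card)) :=
            mul_le_mul_of_nonneg_left h4 hb
        _ = _ := by ring
    refine (Finset.sum_le_sum h3).trans ?_
    rw [← Finset.mul_sum, ← Finset.mul_sum]
    apply mul_le_mul_of_nonneg_left _ (mul_nonneg hb hK)
    apply mul_le_mul_of_nonneg_left _ (Nat.cast_nonneg _)
    rw [h1]
    exact Finset.sum_le_sum_of_subset_of_nonneg (Finset.erase_subset _ _)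
      (fun _ _ _ => Nat.cast_nonneg _)
  refine (Finset.sum_le_sum h2).trans ?_
  rw [← Finset.mul_sum, ← Finset.sum_mul, ← h1]
  apply le_of_eq
  ring

/-- The potentials of the pairs in different bundles. -/
theorem pot_eq (hl : ∀ e, s e ≠ t e) (x : E → ℚ) (a : ℚ) (p : V → E → ℚ)
    (hx : ∀ v, ∑ e ∈ cut s t {v}, x e = 1) :
    nonP s t (fun v e f => (x e * x f - a) * (p v e + p v f)) =
      2 * ∑ v, ∑ w ∈ univ.erase v, ∑ e ∈ bd s t v w, p v e *
        (x e * (1 - ∑ f ∈ bd s t v w, x f) - a * (((cut s t {v}).card : ℚ) - (bd s t v w).card)) := by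
  have h1 : nonP s t (fun v e f => (x e * x f - a) * (p v e + p v f)) =
      nonP s t (fun v e f => (x e * x f - a) * p v e) +
        nonP s t (fun v e f => (x e * x f - a) * p v f) := by
    rw [← nonP_add]
    congr 1
    funext v e f
    ring
  have h2 : nonP s t (fun v e f => (x e * x f - a) * p v f) =
      nonP s t (fun v e f => (x e * x f - a) * p v e) := by
    rw [← nonP_swap]
    congr 1
    funext v e f
    ring
  have h3 : nonP s t (fun v e f => (x e * x f - a) * p v e) =
      ∑ v, ∑ w ∈ univ.erase v, ∑ e ∈ bd s t v w, p v e *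
        (x e * (1 - ∑ f ∈ bd s t v w, x f) - a * (((cut s t {v}).card : ℚ) - (bd s t v w).card)) := by
    unfold nonP
    refine Finset.sum_congr rfl fun v _ => Finset.sum_congr rfl fun w hw => ?_
    rw [Finset.sum_comm]
    refine Finset.sum_congr rfl fun e he => ?_
    have h4 : ∑ y ∈ (univ.erase v).erase w, ∑ f ∈ bd s t v y, x f =
        1 - ∑ f ∈ bd s t v w, x f := by
      have h5 := Finset.add_sum_erase (univ.erase v) (fun y => ∑ f ∈ bd s t v y, x f) hw
      have h6 := sum_cut hl v x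
      rw [hx v] at h6
      linarith
    have h7 : ∑ y ∈ (univ.erase v).erase w, ((bd s t v y).card : ℚ) =
        ((cut s t {v}).card : ℚ) - (bd s t v w).card := by
      have h5 := Finset.add_sum_erase (univ.erase v) (fun y => ((bd s t v y).card : ℚ)) hw
      have h6 : ((cut s t {v}).card : ℚ) = ∑ w ∈ univ.erase v, ((bd s t v w).card : ℚ) := by
        rw [card_cut hl]
        push_cast
        rfl
      linarith
    rw [← h4, ← h7, mul_sub, Finset.mul_sum, Finset.mul_sum, Finset.mul_sum, Finset.mul_sum,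
      ← Finset.sum_sub_distrib]
    refine Finset.sum_congr rfl fun y _ => ?_
    simp_rw [sub_mul, Finset.sum_sub_distrib]
    rw [Finset.sum_const, nsmul_eq_mul, Finset.mul_sum, Finset.mul_sum]
    congr 1
    · exact Finset.sum_congr rfl fun f _ => by ring
    · ring
  rw [h1, h2, h3]
  ring

/-- Weights which belong to the edges are counted at both ends. -/
theorem sym_le (g : V → V → E → ℚ) (hg : ∀ v w e, g v w e = g w v e) (b K : ℚ) (p : V → E → ℚ)
    (hb : ∀ v w, v ≠ w → ∀ e ∈ bd s t v w, |g v w e| ≤ b) (hb0 : 0 ≤ b)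
    (hp : ∀ v w, v ≠ w → ∑ e ∈ bd s t v w, |p v e + p w e| ≤ K * (bd s t v w).card) :
    2 * ∑ v, ∑ w ∈ univ.erase v, ∑ e ∈ bd s t v w, p v e * g v w e ≤
      b * K * ∑ v, ∑ w ∈ univ.erase v, ((bd s t v w).card : ℚ) := by
  have h1 : ∑ v, ∑ w ∈ univ.erase v, ∑ e ∈ bd s t v w, p v e * g v w e =
      ∑ v, ∑ w ∈ univ.erase v, ∑ e ∈ bd s t v w, p w e * g v w e := by
    rw [ends_swap]
    refine Finset.sum_congr rfl fun v _ => Finset.sum_congr rfl fun w _ => ?_
    rw [bd_comm w v]
    exact Finset.sum_congr rfl fun e _ => by rw [hg w v e]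
  have h2 : 2 * ∑ v, ∑ w ∈ univ.erase v, ∑ e ∈ bd s t v w, p v e * g v w e =
      ∑ v, ∑ w ∈ univ.erase v, ∑ e ∈ bd s t v w, (p v e + p w e) * g v w e := by
    rw [two_mul]
    nth_rw 2 [h1]
    simp_rw [← Finset.sum_add_distrib, ← add_mul]
  rw [h2, Finset.mul_sum]
  refine Finset.sum_le_sum fun v _ => ?_
  rw [Finset.mul_sum]
  refine Finset.sum_le_sum fun w hw => ?_
  have hvw : v ≠ w := (Finset.ne_of_mem_erase hw).symm
  calc ∑ e ∈ bd s t v w, (p v e + p w e) * g v w e
      ≤ ∑ e ∈ bd s t v w, b * |p v e + p w e| := by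
        refine Finset.sum_le_sum fun e he => ?_
        refine (le_abs_self _).trans ?_
        rw [abs_mul, mul_comm]
        exact mul_le_mul_of_nonneg_right (hb v w hvw e he) (abs_nonneg _)
    _ = b * ∑ e ∈ bd s t v w, |p v e + p w e| := by rw [Finset.mul_sum]
    _ ≤ b * (K * (bd s t v w).card) := mul_le_mul_of_nonneg_left (hp v w hvw) hb0
    _ = _ := by ring

/-- The remaining part, by the connecting map. -/
theorem rem_eq (h : Con s t bar sig) (d : ℚ) (p : V → E → ℚ) :
    2 * ∑ v, (((cut s t {v}).card : ℚ) - d) * ∑ e ∈ cut s t {v}, p v e =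
      ∑ v, (((cut s t {v}).card : ℚ) - d) *
        ∑ e ∈ cut s t {v}, (p v e + p (bar v) (sig v e)) := by
  have h1 : ∑ v, (((cut s t {v}).card : ℚ) - d) * ∑ e ∈ cut s t {v}, p v e =
      ∑ v, (((cut s t {v}).card : ℚ) - d) * ∑ e ∈ cut s t {v}, p (bar v) (sig v e) := by
    rw [← sum_bar h (fun v => (((cut s t {v}).card : ℚ) - d) * ∑ e ∈ cut s t {v}, p v e)]
    refine Finset.sum_congr rfl fun v _ => ?_
    rw [card_bar h, ← sum_sig h v (fun e => p (bar v) e)]
  rw [two_mul]
  nth_rw 2 [h1]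
  rw [← Finset.sum_add_distrib]
  refine Finset.sum_congr rfl fun v _ => ?_
  rw [← mul_add, Finset.sum_add_distrib]

end Pool.Agent.Lib.MP_95bb8c_al.NR
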