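import Pool.Agent.Lib.MP_95bb8c_al.NR.Basic

set_option autoImplicit false
set_option linter.unusedSectionVars false

/-!
# Sums over pairs of edges at the vertices
-/

namespace Pool.Agent.Lib.MP_95bb8c_al.NR

open Finset

variable {V E : Type} [Fintype V] [DecidableEq V] [Fintype E] [DecidableEq E]
variable {s t : E → V} {bar : V → V} {sig : V → E → E} {c : V → E → E → ℚ}

/-- The sum over the pairs of edges in different bundles. -/
def nonP (s t : E → V) (G : V → E → E → ℚ) : ℚ :=
  ∑ v, ∑ w ∈ univ.erase v, ∑ y ∈ (univ.erase v).erase w,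
    ∑ e ∈ bd s t v w, ∑ f ∈ bd s t v y, G v e f

/-- The sum over the pairs of different edges in the same bundle. -/
def parP (s t : E → V) (G : V → E → E → ℚ) : ℚ :=
  ∑ v, ∑ w ∈ univ.erase v, ∑ e ∈ bd s t v w, ∑ f ∈ (bd s t v w).erase e, G v e f

theorem bd_disj (hl : ∀ e, s e ≠ t e) {v w y : V} (hw : v ≠ w) (hy : v ≠ y) (hwy : w ≠ y)
    {e : E} (he : e ∈ bd s t v w) : e ∉ bd s t v y := by
  intro hf
  rw [mem_bd hl hw] at he
  rw [mem_bd hl hy] at hf
  exact hwy (he.2.symm.trans hf.2)

/-- The pairs at the vertices are sorted by the bundles. -/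
theorem split_pairs (hl : ∀ e, s e ≠ t e) (G : V → E → E → ℚ) :
    ∑ v, ∑ e ∈ cut s t {v}, ∑ f ∈ (cut s t {v}).erase e, G v e f =
      nonP s t G + parP s t G := by
  unfold nonP parP
  rw [← Finset.sum_add_distrib]
  refine Finset.sum_congr rfl fun v _ => ?_
  rw [sum_cut hl, ← Finset.sum_add_distrib]
  refine Finset.sum_congr rfl fun w hw => ?_
  have hvw : v ≠ w := (Finset.ne_of_mem_erase hw).symm
  have h1 : ∀ e ∈ bd s t v w, ∑ f ∈ (cut s t {v}).erase e, G v e f =
      ∑ y ∈ (univ.erase v).erase w, ∑ f ∈ bd s t v y, G v e f +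
        ∑ f ∈ (bd s t v w).erase e, G v e f := by
    intro e he
    have hec : e ∈ cut s t {v} := (mem_bd hl hvw |>.1 he).1
    have h2 := Finset.add_sum_erase (cut s t {v}) (fun f => G v e f) hec
    have h3 := Finset.add_sum_erase (bd s t v w) (fun f => G v e f) he
    have h4 := sum_cut hl v (fun f => G v e f)
    have h5 := Finset.add_sum_erase (univ.erase v) (fun y => ∑ f ∈ bd s t v y, G v e f) hw
    linarith
  rw [Finset.sum_congr rfl h1, Finset.sum_add_distrib]
  congr 1
  exact Finset.sum_comm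

theorem nonP_add (G H : V → E → E → ℚ) :
    nonP s t (fun v e f => G v e f + H v e f) = nonP s t G + nonP s t H := by
  unfold nonP
  simp_rw [Finset.sum_add_distrib]

theorem nonP_smul (a : ℚ) (G : V → E → E → ℚ) :
    nonP s t (fun v e f => a * G v e f) = a * nonP s t G := by
  unfold nonP
  simp_rw [Finset.mul_sum]

theorem nonP_mono (G H : V → E → E → ℚ) (h : ∀ v e f, G v e f ≤ H v e f) :
    nonP s t G ≤ nonP s t H := by
  unfold nonP
  refine Finset.sum_le_sum fun v _ => Finset.sum_le_sum fun w _ => Finset.sum_le_sum fun y _ =>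
    Finset.sum_le_sum fun e _ => Finset.sum_le_sum fun f _ => h v e f

/-- Exchange of the two edges of a pair. -/
theorem nonP_swap (G : V → E → E → ℚ) :
    nonP s t (fun v e f => G v f e) = nonP s t G := by
  unfold nonP
  refine Finset.sum_congr rfl fun v _ => ?_
  rw [Finset.sum_comm' (s := univ.erase v) (t := fun w => (univ.erase v).erase w)
    (t' := univ.erase v) (s' := fun y => (univ.erase v).erase y)]
  · refine Finset.sum_congr rfl fun y _ => Finset.sum_congr rfl fun w _ => ?_
    exact Finset.sum_comm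
  · intro x y
    simp only [Finset.mem_erase, Finset.mem_univ, and_true]
    constructor
    · rintro ⟨h1, h2, h3⟩
      exact ⟨⟨fun h => h2 h.symm, h1⟩, h3⟩
    · rintro ⟨⟨h1, h2⟩, h3⟩
      exact ⟨h2, fun h => h1 h.symm, h3⟩

/-- Exchange of the two ends of a bundle. -/
theorem ends_swap (F : V → V → ℚ) :
    ∑ v, ∑ w ∈ univ.erase v, F v w = ∑ v, ∑ w ∈ univ.erase v, F w v := by
  rw [Finset.sum_comm' (s := univ) (t := fun v => univ.erase v) (t' := univ)
    (s' := fun w => univ.erase w)]
  intro x y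
  simp only [Finset.mem_erase, Finset.mem_univ, and_true, true_and]
  exact ⟨fun h h' => h h'.symm, fun h h' => h h'.symm⟩

/-- Pairs in a bundle are counted at both ends. -/
theorem parP_ends (g : E → E → ℚ) (G : V → E → E → ℚ) :
    2 * parP s t (fun v e f => g e f * G v e f) =
      ∑ v, ∑ w ∈ univ.erase v, ∑ e ∈ bd s t v w, ∑ f ∈ (bd s t v w).erase e,
        g e f * (G v e f + G w e f) := by
  have h1 : parP s t (fun v e f => g e f * G v e f) =
      ∑ v, ∑ w ∈ univ.erase v, ∑ e ∈ bd s t v w, ∑ f ∈ (bd s t v w).erase e,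
        g e f * G w e f := by
    unfold parP
    rw [ends_swap]
    refine Finset.sum_congr rfl fun v _ => Finset.sum_congr rfl fun w _ => ?_
    rw [bd_comm w v]
  have h2 : ∑ v, ∑ w ∈ univ.erase v, ∑ e ∈ bd s t v w, ∑ f ∈ (bd s t v w).erase e,
        g e f * (G v e f + G w e f) = parP s t (fun v e f => g e f * G v e f) +
      ∑ v, ∑ w ∈ univ.erase v, ∑ e ∈ bd s t v w, ∑ f ∈ (bd s t v w).erase e,
        g e f * G w e f := by
    unfold parP
    simp_rw [← Finset.sum_add_distrib, mul_add]
  rw [h2, ← h1]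
  ring

end Pool.Agent.Lib.MP_95bb8c_al.NR
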