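import Pool.Agent.Lib.MP_95bb8c_al.NR.Aver

set_option autoImplicit false
set_option linter.unusedSectionVars false

/-!
# The total average cost bounds the average costs of triangles and cycles of length four
-/

namespace Pool.Agent.Lib.MP_95bb8c_al.NR

open Finset

variable {V E : Type} [Fintype V] [DecidableEq V] [Fintype E] [DecidableEq E]
variable {s t : E → V} {bar : V → V} {sig : V → E → E} {c : V → E → E → ℚ}

/-- Sum over triples of distinct vertices. -/
def D3 (F : V → V → V → ℚ) : ℚ :=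
  ∑ v, ∑ w ∈ univ.erase v, ∑ y ∈ (univ.erase v).erase w, F v w y

theorem d3_inner (F : V → V → V → ℚ) : D3 (fun v w y => F v y w) = D3 F := by
  unfold D3
  refine Finset.sum_congr rfl fun v _ => ?_
  rw [Finset.sum_comm' (s := univ.erase v) (t := fun w => (univ.erase v).erase w)
    (t' := univ.erase v) (s' := fun y => (univ.erase v).erase y)]
  intro x y
  simp only [Finset.mem_erase, Finset.mem_univ, and_true]
  constructor
  · rintro ⟨h1, h2, h3⟩
    exact ⟨⟨fun h => h2 h.symm, h1⟩, h3⟩
  · rintro ⟨⟨h1, h2⟩, h3⟩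
    exact ⟨h2, fun h => h1 h.symm, h3⟩

theorem d3_outer (F : V → V → V → ℚ) : D3 (fun v w y => F w v y) = D3 F := by
  unfold D3
  rw [ends_swap (fun v w => ∑ y ∈ (univ.erase v).erase w, F w v y)]
  refine Finset.sum_congr rfl fun v _ => Finset.sum_congr rfl fun w _ => ?_
  rw [Finset.erase_right_comm]

theorem d3_add (F G : V → V → V → ℚ) : D3 (fun v w y => F v w y + G v w y) = D3 F + D3 G := by
  unfold D3
  simp_rw [Finset.sum_add_distrib]

theorem d3_single (F : V → V → V → ℚ) (h0 : ∀ v w y, v ≠ w → w ≠ y → y ≠ v → 0 ≤ F v w y)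
    {v w y : V} (h1 : v ≠ w) (h2 : w ≠ y) (h3 : y ≠ v) : F v w y ≤ D3 F := by
  have a3 : ∀ v w, v ≠ w → ∀ y ∈ (univ.erase v).erase w, 0 ≤ F v w y := by
    intro v w hvw y hy
    have := Finset.mem_erase.1 hy
    exact h0 v w y hvw this.1.symm (Finset.ne_of_mem_erase this.2)
  have a2 : ∀ v, ∀ w ∈ univ.erase v, 0 ≤ ∑ y ∈ (univ.erase v).erase w, F v w y :=
    fun v w hw => Finset.sum_nonneg (a3 v w (Finset.ne_of_mem_erase hw).symm)
  have a1 : ∀ v ∈ (univ : Finset V), 0 ≤ ∑ w ∈ univ.erase v, ∑ y ∈ (univ.erase v).erase w, F v w y :=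
    fun v _ => Finset.sum_nonneg (a2 v)
  have hw : w ∈ univ.erase v := Finset.mem_erase.2 ⟨h1.symm, Finset.mem_univ _⟩
  have hy : y ∈ (univ.erase v).erase w :=
    Finset.mem_erase.2 ⟨h2.symm, Finset.mem_erase.2 ⟨h3, Finset.mem_univ _⟩⟩
  calc F v w y ≤ ∑ y ∈ (univ.erase v).erase w, F v w y :=
        Finset.single_le_sum (f := fun y => F v w y) (a3 v w h1) hy
    _ ≤ ∑ w ∈ univ.erase v, ∑ y ∈ (univ.erase v).erase w, F v w y :=
        Finset.single_le_sum (f := fun w => ∑ y ∈ (univ.erase v).erase w, F v w y) (a2 v) hw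
    _ ≤ D3 F := Finset.single_le_sum
        (f := fun v => ∑ w ∈ univ.erase v, ∑ y ∈ (univ.erase v).erase w, F v w y) a1
        (Finset.mem_univ v)

theorem tb_sum (hs : ∀ v e f, c v e f = c v f e) :
    D3 (fun v w y => av s t c v y w + av s t c w v y + av s t c y w v) = 3 * TB s t c := by
  have e0 : TB s t c = D3 (av s t c) := rfl
  have e1 : D3 (fun v w y => av s t c v y w) = TB s t c := d3_inner (av s t c)
  have e2 : D3 (fun v w y => av s t c w v y) = TB s t c := d3_outer (av s t c)
  have e3 : D3 (fun v w y => av s t c y w v) = TB s t c := by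
    refine (d3_inner (fun v w y => av s t c w y v)).trans ?_
    have h1 : (fun v w y => av s t c w y v) = fun v w y => av s t c w v y := by
      funext v w y
      exact av_symm hs w y v
    rw [h1]
    exact e2
  rw [d3_add (fun v w y => av s t c v y w + av s t c w v y) (fun v w y => av s t c y w v),
    d3_add, e1, e2, e3]
  ring

theorem tb_tri (hc : Loc s t c) (hne : ∀ v w, v ≠ w → (bd s t v w).Nonempty) {v w y : V}
    (h1 : v ≠ w) (h2 : w ≠ y) (h3 : y ≠ v) :
    av s t c v y w + av s t c w v y + av s t c y w v ≤ 3 * TB s t c := by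
  rw [← tb_sum hc.symm]
  exact d3_single (fun v w y => av s t c v y w + av s t c w v y + av s t c y w v)
    (fun v w y g1 g2 g3 => av_tri hc hne g1 g2 g3) h1 h2 h3

theorem tb_four (hc : Loc s t c) (hne : ∀ v w, v ≠ w → (bd s t v w).Nonempty) {v w z y : V}
    (h1 : v ≠ w) (h2 : w ≠ z) (h3 : z ≠ y) (h4 : y ≠ v) (h5 : v ≠ z) (h6 : w ≠ y) :
    av s t c v y w + av s t c w v z + av s t c z w y + av s t c y z v ≤ 12 * TB s t c := by
  have a1 := tb_tri hc hne h1 h6 h4
  have a2 := tb_tri hc hne h1 h2 h5.symm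
  have a3 := tb_tri hc hne h5 h3 h4
  have a4 := tb_tri hc hne h2 h3 h6.symm
  -- the two other cycles of length four
  have b1 := av_four hc hne h5 h2.symm h6 h4 h1 h3
  have b2 := av_four hc hne h1 h6 h3.symm h5.symm h4.symm h2
  have c1 := av_symm (s := s) (t := t) hc.symm z v w
  have c2 := av_symm (s := s) (t := t) hc.symm w z y
  have c3 := av_symm (s := s) (t := t) hc.symm y w z
  have c4 := av_symm (s := s) (t := t) hc.symm z y v
  linarith

theorem tb_nonneg (hc : Loc s t c) (hne : ∀ v w, v ≠ w → (bd s t v w).Nonempty) :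
    0 ≤ TB s t c := by
  have h1 := tb_sum (s := s) (t := t) hc.symm
  have h2 : 0 ≤ D3 (fun v w y => av s t c v y w + av s t c w v y + av s t c y w v) := by
    unfold D3
    refine Finset.sum_nonneg fun v _ => Finset.sum_nonneg fun w hw => Finset.sum_nonneg fun y hy => ?_
    have := Finset.mem_erase.1 hy
    exact av_tri hc hne (Finset.ne_of_mem_erase hw).symm this.1.symm (Finset.ne_of_mem_erase this.2)
  rw [h1] at h2
  linarith

end Pool.Agent.Lib.MP_95bb8c_al.NR
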