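import Pool.Agent.Lib.MP_95bb8c_al.NR.Final
import Pool.Agent.Lib.MP_95bb8c_al.NR.Farkas
import Pool.Agent.Lib.MP_95bb8c_al.Whitehead

set_option autoImplicit false
set_option linter.unusedSectionVars false

/-!
# Nearly regular lists of words
-/

namespace Pool.Agent.Lib.MP_95bb8c_al.NR

open Finset

section Graph

variable {V E : Type} [Fintype V] [DecidableEq V] [Fintype E] [DecidableEq E]
variable {s t : E → V} {bar : V → V} {sig : V → E → E}

/-- The cut of two vertices. -/
theorem cut_pair (hl : ∀ e, s e ≠ t e) {v w : V} (hvw : v ≠ w) :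
    (cut s t {v, w}).card + 2 * (bd s t v w).card = (cut s t {v}).card + (cut s t {w}).card := by
  have h1 : cut s t {v, w} = (cut s t {v} ∪ cut s t {w}) \ bd s t v w := by
    ext e
    have h2 := hl e
    rw [Finset.mem_sdiff, Finset.mem_union, mem_star hl, mem_star hl, mem_cut]
    unfold bd
    rw [Finset.mem_inter, mem_star hl, mem_star hl]
    simp only [Finset.mem_insert, Finset.mem_singleton]
    constructor
    · intro h3
      by_cases a : s e = v <;> by_cases b : s e = w <;> by_cases a' : t e = v <;>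
        by_cases b' : t e = w <;> simp_all
    · rintro ⟨h3, h4⟩ h5
      by_cases a : s e = v <;> by_cases b : s e = w <;> by_cases a' : t e = v <;>
        by_cases b' : t e = w <;> simp_all
  have h2 : bd s t v w ⊆ cut s t {v} ∪ cut s t {w} :=
    Finset.inter_subset_left.trans Finset.subset_union_left
  rw [h1, Finset.card_sdiff_of_subset h2]
  have h3 := Finset.card_le_card h2
  have h4 := Finset.card_union_add_card_inter (cut s t {v}) (cut s t {w})
  unfold bd at *
  omega

/-- Nearly regular graphs have balanced lists of cycles. -/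
theorem near_list (k : ℕ) (δ : ℚ) (hδ : 0 < δ) : ∃ ε : ℚ, 0 < ε ∧
    ∀ (V E : Type) [Fintype V] [DecidableEq V] [Fintype E] [DecidableEq E] (s t : E → V)
      (bar : V → V) (sig : V → E → E) (d : ℚ),
      Con s t bar sig → Near s t k d δ ε →
      ∃ L : List (Finset E), (∀ C ∈ L, IsCycle s t C) ∧ (∃ C ∈ L, 3 ≤ C.card) ∧
        ∀ v, ∀ e ∈ cut s t {v}, ∀ f ∈ cut s t {v},
          (L.countP fun C => e ∈ C ∧ f ∈ C) = (L.countP fun C => sig v e ∈ C ∧ sig v f ∈ C) := by
  obtain ⟨ε, hε, H⟩ := near_zero k δ hδ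
  refine ⟨ε, hε, ?_⟩
  intro V E _ _ _ _ s t bar sig d h hN
  have hl := h.hl
  have hne := hN.ne hδ
  have hcard : 2 < (univ : Finset V).card := by
    rw [Finset.card_univ, hN.card]
    have := hN.six
    omega
  obtain ⟨v, w, y, -, -, -, hvw, hvy, hwy⟩ := Finset.two_lt_card_iff.1 hcard |>.imp
    fun v hv => hv.imp fun w hw => hw.imp fun y hy => by
      exact hy
  obtain ⟨e, he⟩ := hne v w hvw
  obtain ⟨f, hf⟩ := hne w y hwy
  obtain ⟨g, hg⟩ := hne y v hvy.symm
  have hgv : g ∈ bd s t v y := by
    rw [bd_comm]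
    exact hg
  refine farkas_list h {e, f, g} (deg02_tri hl hvw hwy hvy.symm he hf hg) v e g
    (by simp) (by simp) ((mem_bd hl hvw).1 he).1 ((mem_bd hl hvy).1 hgv).1 ?_ ?_
  · rw [((mem_bd hl hvw).1 he).2, ((mem_bd hl hvy).1 hgv).2]
    exact hwy
  · intro c hc hn
    rw [cost_tri hl hc.symm hvw hwy hvy.symm he hf hg,
      H V E s t bar sig c d h hN hc hn v w y hvw hwy hvy.symm e he f hf g hg, mul_zero]

end Graph

variable {n : ℕ} {U : List (List (Letter n))}

theorem con_words (hU : CycRed U) : Con (src U) (tgt U) bar (conMap U) := by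
  refine ⟨no_loop hU, bar_bar, bar_ne, conMap_mem hU, ?_⟩
  intro v e he
  rw [mem_star (no_loop hU)] at he
  by_cases h1 : tgt U e = v
  · have h2 : conMap U v e = e.next := if_pos h1
    have h3 : src U e.next = bar v := tgt_eq h1
    have h4 : ¬ tgt U e.next = bar v := fun h5 => no_loop hU e.next (h3.trans h5.symm)
    rw [h2]
    unfold conMap
    rw [if_neg h4, prev_next]
  · have h2 : conMap U v e = e.prev := if_neg h1
    have h3 : src U e = v := he.resolve_right h1
    have h4 : tgt U e.prev = bar v := src_eq h3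
    rw [h2]
    unfold conMap
    rw [if_pos h4, next_prev]

/-- Nearly regular lists of words. -/
theorem near_words (n : ℕ) (hn : 3 ≤ n) (δ : ℝ) (hδ : 0 < δ) : ∃ ε : ℝ, 0 < ε ∧
    ∀ (U : List (List (Letter n))) (d : ℕ), CycRed U → 0 < d →
      (∀ a : Fin n, |(occ U a : ℝ) - d| ≤ ε * d) →
      (∀ v w : Letter n, v ≠ w → δ * d ≤ ((star U v ∩ star U w).card : ℝ)) →
      (∀ v : Letter n, ((star U v ∩ star U (bar v)).card : ℝ) ≤ (1 / 2 - δ) * d) →
      (∀ S : Finset (Letter n), 2 ≤ S.card → S.card ≤ 2 * n - 2 → (∃ v ∈ S, bar v ∉ S) →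
        (1 + δ) * d ≤ ((cut (src U) (tgt U) S).card : ℝ)) →
      ∃ L : List (Finset (Pos U)),
        (∀ C ∈ L, IsCycle (src U) (tgt U) C) ∧ (∃ C ∈ L, 3 ≤ C.card) ∧
        ∀ v : Letter n, ∀ e ∈ star U v, ∀ f ∈ star U v,
          (L.countP fun C => e ∈ C ∧ f ∈ C) =
            (L.countP fun C => conMap U v e ∈ C ∧ conMap U v f ∈ C) := by
  obtain ⟨δ', hδ1, hδ2⟩ := exists_rat_btwn (show (0 : ℝ) < δ / 4 by positivity)
  have hδ0 : 0 < δ' := by exact_mod_cast hδ1
  obtain ⟨ε', hε', H⟩ := near_list (2 * n) δ' hδ0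
  refine ⟨min (ε' : ℝ) (δ / 4), lt_min (by exact_mod_cast hε') (by positivity), ?_⟩
  intro U d hU hd hocc hlo hhi hcut
  have hl := no_loop hU
  have hdR : (0 : ℝ) < d := by exact_mod_cast hd
  have hcardV : Fintype.card (Letter n) = 2 * n := by
    rw [Fintype.card_prod, Fintype.card_fin, Fintype.card_bool, mul_comm]
  have hdeg : ∀ v : Letter n, ((cut (src U) (tgt U) {v}).card : ℝ) = occ U v.1 := by
    intro v
    have := dg_eq hU v
    unfold dg at this
    rw [this]
  refine H (Letter n) (Pos U) (src U) (tgt U) bar (conMap U) d (con_words hU)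
    ⟨hcardV, by omega, by exact_mod_cast hd, ?_, ?_, ?_, ?_⟩
  · intro v
    have h1 := hocc v.1
    rw [← hdeg v] at h1
    have h2 : |((cut (src U) (tgt U) {v}).card : ℝ) - d| ≤ ε' * d :=
      h1.trans (mul_le_mul_of_nonneg_right (min_le_left _ _) hdR.le)
    exact_mod_cast h2
  · intro v w hvw
    have h1 := hlo v w hvw
    have h2 : (δ' : ℝ) * d ≤ ((bd (src U) (tgt U) v w).card : ℝ) := by
      refine le_trans ?_ h1
      apply mul_le_mul_of_nonneg_right _ hdR.le
      linarith
    exact_mod_cast h2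
  · intro v w hvw
    have h2 : ((bd (src U) (tgt U) v w).card : ℝ) ≤ (1 / 2 - δ') * d := by
      by_cases hw : w = bar v
      · rw [hw]
        refine (hhi v).trans ?_
        apply mul_le_mul_of_nonneg_right _ hdR.le
        linarith
      · have h3 := hcut {v, w} (by rw [Finset.card_pair hvw])
          (by rw [Finset.card_pair hvw]; omega)
          ⟨v, by simp, by
            simp only [Finset.mem_insert, Finset.mem_singleton, not_or]
            exact ⟨bar_ne v, fun h => hw h.symm⟩⟩
        have h4 : ((cut (src U) (tgt U) {v, w}).card : ℝ) + 2 * (bd (src U) (tgt U) v w).card =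
            (cut (src U) (tgt U) {v}).card + (cut (src U) (tgt U) {w}).card := by
          exact_mod_cast cut_pair hl hvw
        rw [hdeg, hdeg] at h4
        have h5 := (abs_le.1 (hocc v.1)).2
        have h6 := (abs_le.1 (hocc w.1)).2
        have h7 : min (ε' : ℝ) (δ / 4) * d ≤ δ / 4 * d :=
          mul_le_mul_of_nonneg_right (min_le_right _ _) hdR.le
        have h8 : (δ' : ℝ) * d ≤ δ / 4 * d := mul_le_mul_of_nonneg_right hδ2.le hdR.le
        linarith
    have h3 : (((bd (src U) (tgt U) v w).card : ℚ) : ℝ) ≤ (((1 / 2 - δ') * d : ℚ) : ℝ) := by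
      push_cast
      exact h2
    exact_mod_cast h3
  · intro S hodd h3 hle
    have hex : ∃ v ∈ S, bar v ∉ S := by
      by_contra hcon
      push Not at hcon
      have := even_card_of_closed bar bar_bar bar_ne S hcon
      rw [← Nat.not_even_iff_odd] at hodd
      exact hodd this
    have h1 := hcut S (by omega) (by omega) hex
    have h2 : (1 + (δ' : ℝ)) * d ≤ ((cut (src U) (tgt U) S).card : ℝ) := by
      refine le_trans ?_ h1
      apply mul_le_mul_of_nonneg_right _ hdR.le
      linarith
    exact_mod_cast h2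

end Pool.Agent.Lib.MP_95bb8c_al.NR
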